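import Pool.Agent.H67.Boltz.Defs

set_option autoImplicit false

/-!
# The algebra of the kinetic equation for isotropic distributions
-/

open MeasureTheory Filter Topology Set
open scoped RealInnerProductSpace

namespace Pool.Agent.H67.Boltz

variable {d : ℕ}

theorem exists_isom {w w' : E d} (h : ‖w‖ = ‖w'‖) : ∃ R : E d ≃ₗᵢ[ℝ] E d, R w = w' :=
  ⟨((ℝ ∙ (w - w'))ᗮ).reflection, Submodule.reflection_sub h⟩

section alg

variable (n : E d → (E d →L[ℝ] ℝ)) (hn : ∀ (R : E d ≃ₗᵢ[ℝ] E d) w y, n (R w) (R y) = n w y)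

include hn

theorem n_neg (w y : E d) : n (-w) y = -n w y := by
  have := hn (LinearIsometryEquiv.neg ℝ) w y
  simp only [LinearIsometryEquiv.coe_neg, map_neg] at this
  linarith

theorem n_orth {w y : E d} (h : ⟪w, y⟫ = 0) : n w y = 0 := by
  have h1 := hn ((ℝ ∙ y)ᗮ.reflection) w y
  rw [Submodule.reflection_orthogonalComplement_singleton_eq_neg,
    Submodule.reflection_mem_subspace_eq_self (Submodule.mem_orthogonal_singleton_iff_inner_left.2 h), map_neg] at h1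
  linarith

theorem n_eq (w y : E d) : n w y = n w w / ‖w‖ ^ 2 * ⟪w, y⟫ := by
  rcases eq_or_ne w 0 with rfl | hw
  · have := n_neg n hn 0 y
    rw [neg_zero] at this
    simp
    linarith
  · have hw2 : ‖w‖ ^ 2 ≠ 0 := by positivity
    have h1 : ⟪w, y - (⟪w, y⟫ / ‖w‖ ^ 2) • w⟫ = 0 := by
      rw [inner_sub_right, inner_smul_right, real_inner_self_eq_norm_sq]
      field_simp
      ring
    have h2 := n_orth n hn h1
    rw [map_sub, map_smul, smul_eq_mul] at h2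
    have : n w y = ⟪w, y⟫ / ‖w‖ ^ 2 * n w w := by linarith
    rw [this]
    ring

theorem n_radial {w w' : E d} (h : ‖w‖ = ‖w'‖) : n w w = n w' w' := by
  obtain ⟨R, rfl⟩ := exists_isom h
  exact (hn R w w).symm

end alg

theorem alg (a : E d → (ℝ × E d →L[ℝ] ℝ)) (n : E d → (E d →L[ℝ] ℝ)) (q : E d → ℝ) (L : ℝ × E d →L[ℝ] E d) (u : E d)
    (ha : ∀ w w', ‖w‖ = ‖w'‖ → a w = a w') (hq : ∀ w w', ‖w‖ = ‖w'‖ → q w = q w')
    (hn : ∀ (R : E d ≃ₗᵢ[ℝ] E d) w y, n (R w) (R y) = n w y)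
    (heq : ∀ w, a w (1, u + w) - n w (L (1, u + w)) = q w) :
    (∀ w, w ≠ 0 → ∀ y, a w (0, y) = n w w / ‖w‖ ^ 2 * ⟪L (1, u), y⟫) ∧
    (∀ w, a w (1, u) - n w (L (0, w)) = q w) := by
  have hodd : ∀ w, a w (0, w) = n w (L (1, u)) ∧ a w (1, u) - n w (L (0, w)) = q w := by
    intro w
    have h1 := heq w
    have h2 := heq (-w)
    rw [ha (-w) w (norm_neg w), hq (-w) w (norm_neg w), n_neg n hn] at h2
    have e1 : ((1 : ℝ), u + w) = (1, u) + (0, w) := by simp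
    have e2 : ((1 : ℝ), u + -w) = (1, u) - (0, w) := by simp [sub_eq_add_neg]
    rw [e1, map_add, map_add, map_add] at h1
    rw [e2, map_sub, map_sub, map_sub] at h2
    constructor <;> linarith
  refine ⟨fun w hw y => ?_, fun w => (hodd w).2⟩
  rcases eq_or_ne y 0 with rfl | hy
  · have h0 : ((0 : ℝ), (0 : E d)) = 0 := rfl
    rw [h0, map_zero]
    simp
  have hy' : ‖y‖ ≠ 0 := norm_ne_zero_iff.2 hy
  have hw' : ‖w‖ ≠ 0 := norm_ne_zero_iff.2 hw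
  set w' : E d := (‖w‖ / ‖y‖) • y with hw'def
  have h1 : ‖w'‖ = ‖w‖ := by
    rw [hw'def, norm_smul, norm_div, norm_norm, norm_norm]
    field_simp
  have h2 := (hodd w').1
  rw [ha w' w h1, n_eq n hn w' (L (1, u)), n_radial n hn h1, h1] at h2
  have e3 : ((0 : ℝ), w') = (‖w‖ / ‖y‖) • ((0 : ℝ), y) := by
    rw [hw'def]
    simp
  rw [e3, map_smul, hw'def, inner_smul_left, smul_eq_mul] at h2
  have h3 : (‖w‖ / ‖y‖) ≠ 0 := by positivity
  simp only [conj_trivial] at h2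
  have h4 : (‖w‖ / ‖y‖) * a w (0, y) = (‖w‖ / ‖y‖) * (n w w / ‖w‖ ^ 2 * ⟪y, L (1, u)⟫) := by rw [h2]; ring
  have h5 := mul_left_cancel₀ h3 h4
  rw [h5, real_inner_comm]

/-- the shear free form of the derivative of the velocity field -/
theorem shear_free (a : E d → (ℝ × E d →L[ℝ] ℝ)) (n : E d → (E d →L[ℝ] ℝ)) (q : E d → ℝ) (L : ℝ × E d →L[ℝ] E d) (u : E d)
    (ha : ∀ w w', ‖w‖ = ‖w'‖ → a w = a w') (hq : ∀ w w', ‖w‖ = ‖w'‖ → q w = q w')
    (hn : ∀ (R : E d ≃ₗᵢ[ℝ] E d) w y, n (R w) (R y) = n w y)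
    (heq : ∀ w, a w (1, u + w) - n w (L (1, u + w)) = q w) (w₀ : E d) (hw₀ : n w₀ ≠ 0) :
    ∃ lam : ℝ, (∀ h, ⟪h, L (0, h)⟫ = lam * ‖h‖ ^ 2) ∧ ∀ w, a w (1, u) = q w + lam * n w w := by
  have h2 := (alg a n q L u ha hq hn heq).2
  have hw : w₀ ≠ 0 := by
    rintro rfl
    apply hw₀
    ext y
    have := n_eq n hn 0 y
    simpa using this
  have hm : n w₀ w₀ / ‖w₀‖ ^ 2 ≠ 0 := by
    intro h0
    apply hw₀
    ext y
    rw [n_eq n hn w₀ y, h0]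
    simp
  have hwn : ‖w₀‖ ≠ 0 := norm_ne_zero_iff.2 hw
  set m := n w₀ w₀ / ‖w₀‖ ^ 2 with hmdef
  have key : ∀ w, ‖w‖ = ‖w₀‖ → m * ⟪w, L (0, w)⟫ = a w₀ (1, u) - q w₀ := by
    intro w hw1
    have h3 := h2 w
    rw [n_eq n hn w (L (0, w)), n_radial n hn hw1, hw1, ha w w₀ hw1, hq w w₀ hw1] at h3
    linarith
  set c := (a w₀ (1, u) - q w₀) / m with hc
  have key' : ∀ w, ‖w‖ = ‖w₀‖ → ⟪w, L (0, w)⟫ = c := by
    intro w hw1
    rw [hc, ← key w hw1]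
    field_simp
  have hall : ∀ h, ⟪h, L (0, h)⟫ = c / ‖w₀‖ ^ 2 * ‖h‖ ^ 2 := by
    intro h
    rcases eq_or_ne h 0 with rfl | hh
    · simp
    have hh' : ‖h‖ ≠ 0 := norm_ne_zero_iff.2 hh
    have h3 := key' ((‖w₀‖ / ‖h‖) • h) (by
      rw [norm_smul, norm_div, norm_norm, norm_norm]
      field_simp)
    have e : ((0 : ℝ), (‖w₀‖ / ‖h‖) • h) = (‖w₀‖ / ‖h‖) • ((0 : ℝ), h) := by simp
    rw [e, map_smul, inner_smul_left, inner_smul_right] at h3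
    simp only [conj_trivial] at h3
    rw [← h3]
    field_simp
  refine ⟨c / ‖w₀‖ ^ 2, hall, fun w => ?_⟩
  have h3 := h2 w
  rw [n_eq n hn w (L (0, w)), hall w] at h3
  rcases eq_or_ne w 0 with rfl | hw1
  · have h0 : n (0 : E d) 0 = 0 := by simp
    simp at h3
    simp [h3]
  have hw1' : ‖w‖ ≠ 0 := norm_ne_zero_iff.2 hw1
  have : n w w / ‖w‖ ^ 2 * (c / ‖w₀‖ ^ 2 * ‖w‖ ^ 2) = c / ‖w₀‖ ^ 2 * n w w := by field_simp
  linarith

end Pool.Agent.H67.Boltz
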