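import Pool.Agent.H67.Boltz.Ode

set_option autoImplicit false

/-!
# Isotropic distributions: the expansion is constant along the level surfaces of the potential
-/

open MeasureTheory Filter Topology Set
open scoped RealInnerProductSpace

namespace Pool.Agent.H67.Boltz

variable {d : ℕ}

theorem hasDerivAt_mul_of_zero {m β : ℝ → ℝ} {s₀ b : ℝ} (hm : ContinuousAt m s₀) (hβ : HasDerivAt β b s₀)
    (h0 : β s₀ = 0) : HasDerivAt (fun s => m s * β s) (m s₀ * b) s₀ := by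
  rw [hasDerivAt_iff_tendsto_slope] at hβ ⊢
  refine (hm.continuousWithinAt.tendsto.mul hβ).congr fun s => ?_
  rw [slope_def_field, slope_def_field, h0, mul_zero, sub_zero, sub_zero]
  ring

section iso

variable {B : ℝ → ℝ → ℝ} {T : ℝ} {f : ℝ → E d → E d → ℝ} {Ω : Set (ℝ × E d)} {U : ℝ × E d → E d}

variable (H : Iso B T f Ω U)

include H

theorem Iso.rel2 (hd : 0 < d) {z : ℝ × E d} (hz : z ∈ Ω) :
    (∀ w, w ≠ 0 → ∀ y, aU f U z w (0, y) = nU f U z w w / ‖w‖ ^ 2 * ⟪Acc U z, y⟫) ∧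
      ∀ w, aU f U z w (1, U z) = transport f z.1 z.2 (U z + w) + lam U z * nU f U z w w := by
  obtain ⟨h1, c, h2, h3⟩ := H.relations hd hz
  rw [← lam_eq hd h2] at h3
  exact ⟨h1, h3⟩

theorem Iso.Hw_C2 {z : ℝ × E d} (hz : z ∈ Ω) (w : E d) :
    ContDiffAt ℝ 2 (fun z : ℝ × E d => f z.1 z.2 (U z + w)) z := by
  have h1 : ContDiffAt ℝ 2 U z := H.smooth.contDiffAt (H.isOpen.mem_nhds hz)
  have h2 : ContDiffAt ℝ 2 (Fu f) ((z.1, z.2, U z + w) : ℝ × E d × E d) :=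
    H.sol.smooth.contDiffAt ((open_slab T).mem_nhds (H.time z hz))
  have h3 : ContDiffAt ℝ 2 (fun z : ℝ × E d => ((z.1, z.2, U z + w) : ℝ × E d × E d)) z :=
    contDiffAt_fst.prodMk (contDiffAt_snd.prodMk (h1.add contDiffAt_const))
  exact h2.comp z h3

theorem Iso.Acc_C1 {z : ℝ × E d} (hz : z ∈ Ω) : ContDiffAt ℝ 1 (Acc U) z := by
  have h1 : ContDiffAt ℝ 1 U z := (H.smooth.contDiffAt (H.isOpen.mem_nhds hz)).of_le (by norm_num)
  exact (H.U_C1 hz).clm_apply (contDiffAt_const.prodMk h1)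

theorem Iso.stepA (hd : 0 < d) {z : ℝ × E d} (hz : z ∈ Ω) (hA : Acc U z ≠ 0) (e₀ : E d) (h0 : ⟪Acc U z, e₀⟫ = 0) :
    fderiv ℝ (lam U) z (0, e₀) = 0 := by
  have : Nonempty (Fin d) := ⟨⟨0, hd⟩⟩
  -- the vector field
  set A : E d → E d := fun y => Acc U (z.1, y) with hAdef
  have hAC : ContDiffAt ℝ 1 A z.2 := by
    have h1 : ContDiffAt ℝ 1 (Acc U) ((fun y : E d => ((z.1, y) : ℝ × E d)) z.2) := H.Acc_C1 hz
    exact h1.comp z.2 (contDiffAt_const.prodMk contDiffAt_id)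
  set F : E d → E d := fun y => e₀ - (⟪A y, e₀⟫ / ⟪A y, A y⟫) • A y with hF
  have hAz : A z.2 ≠ 0 := hA
  have hFC : ContDiffAt ℝ 1 F z.2 := by
    have h1 : ContDiffAt ℝ 1 (fun y => ⟪A y, e₀⟫ / ⟪A y, A y⟫) z.2 :=
      ContDiffAt.div (hAC.inner ℝ contDiffAt_const) (hAC.inner ℝ hAC) (inner_self_ne_zero.2 hAz)
    exact contDiffAt_const.sub (h1.smul hAC)
  obtain ⟨γ, hγ0, ε, hε, hγ⟩ := hFC.exists_forall_mem_closedBall_exists_eq_forall_mem_Ioo_hasDerivAt₀ 0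
  have hγc : ContinuousAt γ 0 := (hγ 0 ⟨by linarith, by linarith⟩).continuousAt
  -- the interval
  have hcurve : ContinuousAt (fun r : ℝ => ((z.1, γ r) : ℝ × E d)) 0 := continuousAt_const.prodMk hγc
  have hz0 : ((z.1, γ 0) : ℝ × E d) = z := by rw [hγ0]
  have hev : ∀ᶠ r in 𝓝 (0 : ℝ), (z.1, γ r) ∈ Ω ∧ A (γ r) ≠ 0 := by
    have h2 : Ω ∈ 𝓝 ((z.1, γ 0) : ℝ × E d) := by rw [hz0]; exact H.isOpen.mem_nhds hz
    have h3 : ∀ᶠ r in 𝓝 (0 : ℝ), (z.1, γ r) ∈ Ω := hcurve.eventually h2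
    refine h3.and ?_
    have : ContinuousAt (fun r => A (γ r)) 0 := by
      have h1 : ContinuousAt A (γ 0) := by rw [hγ0]; exact hAC.continuousAt
      exact ContinuousAt.comp (f := γ) h1 hγc
    exact this.eventually_ne (by rw [hγ0]; exact hAz)
  obtain ⟨ε₁, hε₁, hball⟩ := Metric.eventually_nhds_iff.1 hev
  set ε' := min ε ε₁ with hε'
  have hε'pos : 0 < ε' := lt_min hε hε₁
  have hJ : ∀ r ∈ Ioo (-ε') ε', (z.1, γ r) ∈ Ω ∧ A (γ r) ≠ 0 ∧ HasDerivAt γ (F (γ r)) r := by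
    intro r hr
    have h1 := hball (y := r) (by
      rw [Real.dist_eq, sub_zero, abs_lt]
      have := min_le_right ε ε₁
      exact ⟨by linarith [hr.1], by linarith [hr.2]⟩)
    refine ⟨h1.1, h1.2, hγ r ?_⟩
    have := min_le_left ε ε₁
    exact ⟨by linarith [hr.1], by linarith [hr.2]⟩
  have h0J : (0 : ℝ) ∈ Ioo (-ε') ε' := ⟨by linarith, hε'pos⟩
  have horth : ∀ y, A y ≠ 0 → ⟪A y, F y⟫ = 0 := by
    intro y hy
    have : ⟪A y, A y⟫ ≠ 0 := inner_self_ne_zero.2 hy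
    rw [hF]
    simp only [inner_sub_right, inner_smul_right]
    field_simp
    ring
  have hF0 : F z.2 = e₀ := by
    have : ⟪A z.2, e₀⟫ = 0 := h0
    rw [hF]
    simp [this]
  have hcd : ∀ r ∈ Ioo (-ε') ε', HasDerivAt (fun r : ℝ => ((z.1, γ r) : ℝ × E d)) (0, F (γ r)) r := fun r hr =>
    (hasDerivAt_const r z.1).prodMk (hJ r hr).2.2
  -- (A1) the distribution is constant along the curve
  have hA1 : ∀ r ∈ Ioo (-ε') ε', ∀ w, f (z.1, γ r).1 (z.1, γ r).2 (U (z.1, γ r) + w) = f z.1 z.2 (U z + w) := by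
    have h1 : ∀ w, w ≠ 0 → ∀ r ∈ Ioo (-ε') ε', f z.1 (γ r) (U (z.1, γ r) + w) = f z.1 z.2 (U z + w) := by
      intro w hw r hr
      have h2 := const_Ioo (fun r : ℝ => f z.1 (γ r) (U (z.1, γ r) + w)) (-ε') ε' (fun s hs => by
        have h3 := H.hasFDerivAt_a (hJ s hs).1 w
        have h4 := HasFDerivAt.comp_hasDerivAt (f := fun r : ℝ => ((z.1, γ r) : ℝ × E d)) s h3 (hcd s hs)
        refine h4.congr_deriv ?_
        rw [(H.rel2 hd (hJ s hs).1).1 w hw]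
        have h5 : ⟪Acc U (z.1, γ s), F (γ s)⟫ = 0 := horth (γ s) (hJ s hs).2.1
        rw [h5, mul_zero]) hr h0J
      have h2' : f z.1 (γ r) (U (z.1, γ r) + w) = f z.1 (γ 0) (U (z.1, γ 0) + w) := h2
      rw [h2', hγ0]
    intro r hr w
    have h3 : Continuous fun w : E d => f z.1 (γ r) (U (z.1, γ r) + w) := H.continuous_f (hJ r hr).1
    have h4 : Continuous fun w : E d => f z.1 z.2 (U z + w) := H.continuous_f hz
    have h5 : Dense ({0}ᶜ : Set (E d)) := dense_compl_singleton 0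
    have h6 := Continuous.ext_on h5 h3 h4 (fun w hw => h1 w hw r hr)
    exact congrFun h6 w
  have hA2 : ∀ r ∈ Ioo (-ε') ε', ∀ w, transport f (z.1, γ r).1 (z.1, γ r).2 (U (z.1, γ r) + w) =
      transport f z.1 z.2 (U z + w) := fun r hr w => H.q_congr (hJ r hr).1 hz (hA1 r hr) w
  have hA3 : ∀ r ∈ Ioo (-ε') ε', ∀ w, nU f U (z.1, γ r) w = nU f U z w := fun r hr w =>
    (H.hasFDerivAt_n (hJ r hr).1 w).unique ((H.hasFDerivAt_n hz w).congr_of_eventuallyEq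
      (Eventually.of_forall fun w => hA1 r hr w))
  -- the scalars
  set c₁ := ⟪fderiv ℝ (Acc U) z (1, 0), e₀⟫ with hc₁
  have hAd := (H.Acc_diff hz).hasFDerivAt
  have hUd := (H.U_diff hz).hasFDerivAt
  have hLd := (H.lam_diff hz).hasFDerivAt
  have hcd0 : HasDerivAt (fun r : ℝ => ((z.1, γ r) : ℝ × E d)) (0, e₀) 0 := by
    have := hcd 0 h0J
    rwa [hγ0, hF0] at this
  have hAr : HasDerivAt (fun r : ℝ => Acc U (z.1, γ r)) (fderiv ℝ (Acc U) z (0, e₀)) 0 := by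
    rw [← hz0] at hAd
    have := HasFDerivAt.comp_hasDerivAt (f := fun r : ℝ => ((z.1, γ r) : ℝ × E d)) 0 hAd hcd0
    rwa [hz0] at this
  have hUr : HasDerivAt (fun r : ℝ => U (z.1, γ r)) (fderiv ℝ U z (0, e₀)) 0 := by
    rw [← hz0] at hUd
    have := HasFDerivAt.comp_hasDerivAt (f := fun r : ℝ => ((z.1, γ r) : ℝ × E d)) 0 hUd hcd0
    rwa [hz0] at this
  have hLr : HasDerivAt (fun r : ℝ => lam U (z.1, γ r)) (fderiv ℝ (lam U) z (0, e₀)) 0 := by
    rw [← hz0] at hLd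
    have := HasFDerivAt.comp_hasDerivAt (f := fun r : ℝ => ((z.1, γ r) : ℝ × E d)) 0 hLd hcd0
    rwa [hz0] at this
  set c₂ := ⟪Acc U z, fderiv ℝ U z (0, e₀)⟫ + ⟪fderiv ℝ (Acc U) z (0, e₀), U z⟫ with hc₂
  have hAUr : HasDerivAt (fun r : ℝ => ⟪Acc U (z.1, γ r), U (z.1, γ r)⟫) c₂ 0 := by
    have := hAr.inner ℝ hUr
    rwa [hz0] at this
  have key : ∀ w, w ≠ 0 → nU f U z w w ≠ 0 → c₁ + c₂ = ‖w‖ ^ 2 * fderiv ℝ (lam U) z (0, e₀) := by
    intro w hw hn
    have hwn : ‖w‖ ^ 2 ≠ 0 := by positivity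
    have hC2 := H.Hw_C2 hz w
    set G : ℝ × E d → ℝ := fun z => f z.1 z.2 (U z + w) with hG
    have hGd : ∀ z' ∈ Ω, fderiv ℝ G z' = aU f U z' w := fun z' hz' => (H.hasFDerivAt_a hz' w).fderiv
    have hDD : HasFDerivAt (fderiv ℝ G) (fderiv ℝ (fderiv ℝ G) z) z :=
      ((hC2.fderiv_right (m := 1) (by norm_num)).differentiableAt (by norm_num)).hasFDerivAt
    have hsymm : fderiv ℝ (fderiv ℝ G) z (0, e₀) (1, 0) = fderiv ℝ (fderiv ℝ G) z (1, 0) (0, e₀) :=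
      (hC2.isSymmSndFDerivAt (by simp)) _ _
    -- along the curve
    have k1 : HasDerivAt (fun r : ℝ => fderiv ℝ G (z.1, γ r) (1, 0)) (fderiv ℝ (fderiv ℝ G) z (0, e₀) (1, 0)) 0 := by
      have hDD' := hDD
      rw [← hz0] at hDD'
      have h1 := HasFDerivAt.comp_hasDerivAt (f := fun r : ℝ => ((z.1, γ r) : ℝ × E d)) 0 hDD' hcd0
      rw [hz0] at h1
      have h2 := h1.clm_apply (hasDerivAt_const (0 : ℝ) ((1 : ℝ), (0 : E d)))
      simpa using h2
    have k2 : HasDerivAt (fun r : ℝ => transport f z.1 z.2 (U z + w) + lam U (z.1, γ r) * nU f U z w w -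
        nU f U z w w / ‖w‖ ^ 2 * ⟪Acc U (z.1, γ r), U (z.1, γ r)⟫)
        (fderiv ℝ (lam U) z (0, e₀) * nU f U z w w - nU f U z w w / ‖w‖ ^ 2 * c₂) 0 :=
      ((hLr.mul_const _).const_add _).sub (hAUr.const_mul _)
    have k3 : fderiv ℝ (fderiv ℝ G) z (0, e₀) (1, 0) =
        fderiv ℝ (lam U) z (0, e₀) * nU f U z w w - nU f U z w w / ‖w‖ ^ 2 * c₂ := by
      refine k1.unique (k2.congr_of_eventuallyEq ?_)
      filter_upwards [isOpen_Ioo.mem_nhds h0J] with r hr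
      obtain ⟨hr1, -, -⟩ := hJ r hr
      rw [hGd _ hr1]
      have e10 : ((1 : ℝ), (0 : E d)) = (1, U (z.1, γ r)) - (0, U (z.1, γ r)) := by simp
      rw [e10, map_sub, (H.rel2 hd hr1).2 w, (H.rel2 hd hr1).1 w hw, hA2 r hr w, hA3 r hr w]
    -- along the vertical line
    have hl : HasDerivAt (fun s : ℝ => z + s • ((1 : ℝ), (0 : E d))) (1, 0) 0 := by
      simpa using ((hasDerivAt_id (0 : ℝ)).smul_const ((1 : ℝ), (0 : E d))).const_add z
    have hzz : z + (0 : ℝ) • ((1 : ℝ), (0 : E d)) = z := by simp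
    have k4 : HasDerivAt (fun s : ℝ => fderiv ℝ G (z + s • ((1 : ℝ), (0 : E d))) (0, e₀))
        (fderiv ℝ (fderiv ℝ G) z (1, 0) (0, e₀)) 0 := by
      have hDD' := hDD
      rw [← hzz] at hDD'
      have h1 := HasFDerivAt.comp_hasDerivAt (f := fun s : ℝ => z + s • ((1 : ℝ), (0 : E d))) 0 hDD' hl
      rw [hzz] at h1
      have h2 := h1.clm_apply (hasDerivAt_const (0 : ℝ) ((0 : ℝ), e₀))
      simpa using h2
    have k5 : HasDerivAt (fun s : ℝ => nU f U (z + s • ((1 : ℝ), (0 : E d))) w w / ‖w‖ ^ 2 *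
        ⟪Acc U (z + s • ((1 : ℝ), (0 : E d))), e₀⟫) (nU f U z w w / ‖w‖ ^ 2 * c₁) 0 := by
      have h1 : HasDerivAt (fun s : ℝ => ⟪Acc U (z + s • ((1 : ℝ), (0 : E d))), e₀⟫) c₁ 0 := by
        have hAd' := hAd
        rw [← hzz] at hAd'
        have h2 := HasFDerivAt.comp_hasDerivAt (f := fun s : ℝ => z + s • ((1 : ℝ), (0 : E d))) 0 hAd' hl
        rw [hzz] at h2
        have h3 := h2.inner ℝ (hasDerivAt_const (0 : ℝ) e₀)
        simpa [hc₁] using h3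
      have h4 : ContinuousAt (fun s : ℝ => nU f U (z + s • ((1 : ℝ), (0 : E d))) w w / ‖w‖ ^ 2) 0 := by
        have h5 : ContinuousAt (fun z' : ℝ × E d => fderiv ℝ (Fu f) (z'.1, z'.2, U z' + w)) z := by
          have h6 : ContinuousAt (fderiv ℝ (Fu f)) ((z.1, z.2, U z + w) : ℝ × E d × E d) :=
            H.sol.continuousOn_fderiv.continuousAt ((open_slab T).mem_nhds (H.time z hz))
          have h7 : ContinuousAt (fun z' : ℝ × E d => ((z'.1, z'.2, U z' + w) : ℝ × E d × E d)) z :=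
            continuousAt_fst.prodMk (continuousAt_snd.prodMk ((H.U_diff hz).continuousAt.add continuousAt_const))
          exact ContinuousAt.comp (f := fun z' : ℝ × E d => ((z'.1, z'.2, U z' + w) : ℝ × E d × E d)) h6 h7
        have h8 : ContinuousAt (fun z' : ℝ × E d => nU f U z' w w) z := by
          unfold nU
          exact (h5.clm_comp continuousAt_const).clm_apply continuousAt_const
        have h9 : ContinuousAt (fun s : ℝ => nU f U (z + s • ((1 : ℝ), (0 : E d))) w w) 0 := by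
          have h10 : ContinuousAt (fun z' : ℝ × E d => nU f U z' w w) (z + (0 : ℝ) • ((1 : ℝ), (0 : E d))) := by
            rw [hzz]; exact h8
          exact ContinuousAt.comp (f := fun s : ℝ => z + s • ((1 : ℝ), (0 : E d))) h10 hl.continuousAt
        exact h9.div_const _
      have h11 := hasDerivAt_mul_of_zero h4 h1 (by rw [hzz]; exact h0)
      rwa [hzz] at h11
    have k6 : fderiv ℝ (fderiv ℝ G) z (1, 0) (0, e₀) = nU f U z w w / ‖w‖ ^ 2 * c₁ := by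
      refine k4.unique (k5.congr_of_eventuallyEq ?_)
      have h2 : Ω ∈ 𝓝 (z + (0 : ℝ) • ((1 : ℝ), (0 : E d))) := by rw [hzz]; exact H.isOpen.mem_nhds hz
      have h1 : ∀ᶠ s in 𝓝 (0 : ℝ), z + s • ((1 : ℝ), (0 : E d)) ∈ Ω := hl.continuousAt.eventually h2
      filter_upwards [h1] with s hs
      rw [hGd _ hs, (H.rel2 hd hs).1 w hw]
    rw [hsymm, k6] at k3
    field_simp at k3
    linarith
  -- two norms
  obtain ⟨w₀, hw₀⟩ := H.exists_n hd hz
  have hn0 : nU f U z w₀ w₀ ≠ 0 := by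
    intro h
    apply hw₀
    ext y
    rw [n_eq (nU f U z) (H.n_equiv hz) w₀ y, h]
    simp
  have hw0 : w₀ ≠ 0 := by
    rintro rfl
    exact hn0 (by simp)
  have hcont : ContinuousAt (fun s : ℝ => nU f U z (s • w₀) (s • w₀)) 1 := by
    have h1 : Continuous fun s : ℝ => nU f U z (s • w₀) := (H.continuous_n hz).comp (by fun_prop)
    exact (h1.clm_apply (by fun_prop)).continuousAt
  have hev2 : ∀ᶠ s in 𝓝[>] (1 : ℝ), nU f U z (s • w₀) (s • w₀) ≠ 0 := by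
    refine (hcont.eventually_ne ?_).filter_mono nhdsWithin_le_nhds
    simpa using hn0
  obtain ⟨s, hs1, hs2⟩ := (hev2.and self_mem_nhdsWithin).exists
  have hs2' : 1 < s := hs2
  have e1 := key w₀ hw0 hn0
  have e2 := key (s • w₀) (smul_ne_zero (by linarith) hw0) hs1
  rw [norm_smul, Real.norm_eq_abs, abs_of_pos (by linarith), mul_pow] at e2
  have h3 : 0 < ‖w₀‖ ^ 2 := by positivity
  have h4 : (s ^ 2 - 1) * ‖w₀‖ ^ 2 * fderiv ℝ (lam U) z (0, e₀) = 0 := by linarith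
  have h5 : (s ^ 2 - 1) * ‖w₀‖ ^ 2 ≠ 0 := by
    have : 0 < s ^ 2 - 1 := by nlinarith
    positivity
  exact (mul_eq_zero.1 h4).resolve_left h5

end iso

end Pool.Agent.H67.Boltz
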