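import Pool.Agent.H67.Boltz.Conf

set_option autoImplicit false

/-!
# Isotropic distributions: the velocity field is affine
-/

open MeasureTheory Filter Topology Set
open scoped RealInnerProductSpace

namespace Pool.Agent.H67.Boltz

variable {d : ℕ}

theorem exists_orth3 (hd : 3 ≤ d) (a b : E d) : ∃ c : E d, c ≠ 0 ∧ ⟪a, c⟫ = 0 ∧ ⟪b, c⟫ = 0 := by
  classical
  set K : Submodule ℝ (E d) := Submodule.span ℝ {a, b} with hK
  have h1 : Module.finrank ℝ K ≤ 2 := by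
    have h2 := finrank_span_le_card (R := ℝ) ({a, b} : Set (E d))
    refine h2.trans ?_
    rw [Set.toFinset_insert, Set.toFinset_singleton]
    exact Finset.card_le_two
  have h2 : K ≠ ⊤ := by
    intro h
    rw [h, finrank_top, finrank_euclideanSpace_fin] at h1
    omega
  have h3 : Kᗮ ≠ ⊥ := fun h => h2 (Submodule.orthogonal_eq_bot_iff.1 h)
  obtain ⟨c, hc, hc0⟩ := Submodule.exists_mem_ne_zero_of_ne_bot h3
  rw [Submodule.mem_orthogonal] at hc
  exact ⟨c, hc0, hc a (Submodule.subset_span (by simp)), hc b (Submodule.subset_span (by simp))⟩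

theorem exists_orth2 (hd : 2 ≤ d) (a : E d) : ∃ c : E d, c ≠ 0 ∧ ⟪a, c⟫ = 0 := by
  classical
  set K : Submodule ℝ (E d) := Submodule.span ℝ {a} with hK
  have h1 : Module.finrank ℝ K ≤ 1 := by
    have h2 := finrank_span_le_card (R := ℝ) ({a} : Set (E d))
    simpa using h2
  have h2 : K ≠ ⊤ := by
    intro h
    rw [h, finrank_top, finrank_euclideanSpace_fin] at h1
    omega
  have h3 : Kᗮ ≠ ⊥ := fun h => h2 (Submodule.orthogonal_eq_bot_iff.1 h)
  obtain ⟨c, hc, hc0⟩ := Submodule.exists_mem_ne_zero_of_ne_bot h3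
  rw [Submodule.mem_orthogonal] at hc
  exact ⟨c, hc0, hc a (Submodule.subset_span (by simp))⟩

theorem line_deriv {G : Type*} [NormedAddCommGroup G] [NormedSpace ℝ G] {g : ℝ × E d → G} {z : ℝ × E d}
    (hg : DifferentiableAt ℝ g z) (v : ℝ × E d) : HasDerivAt (fun s : ℝ => g (z + s • v)) (fderiv ℝ g z v) 0 := by
  have hl : HasDerivAt (fun s : ℝ => z + s • v) v 0 := by
    simpa using ((hasDerivAt_id (0 : ℝ)).smul_const v).const_add z
  have h1 : HasFDerivAt g (fderiv ℝ g z) (z + (0 : ℝ) • v) := by simpa using hg.hasFDerivAt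
  exact HasFDerivAt.comp_hasDerivAt (f := fun s : ℝ => z + s • v) 0 h1 hl

section iso

variable {B : ℝ → ℝ → ℝ} {T : ℝ} {f : ℝ → E d → E d → ℝ} {Ω : Set (ℝ × E d)} {U : ℝ × E d → E d}

variable (H : Iso B T f Ω U)

include H

theorem Iso.ev_line {z : ℝ × E d} (hz : z ∈ Ω) (v : ℝ × E d) : ∀ᶠ s in 𝓝 (0 : ℝ), z + s • v ∈ Ω := by
  have hl : ContinuousAt (fun s : ℝ => z + s • v) 0 := by fun_prop
  have h2 : Ω ∈ 𝓝 (z + (0 : ℝ) • v) := by
    rw [zero_smul, add_zero]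
    exact H.isOpen.mem_nhds hz
  exact hl.eventually h2

theorem Iso.rigid_of_irrot (hd : 2 ≤ d)
    (hirr : ∀ z ∈ Ω, ∀ h k, ⟪fderiv ℝ U z (0, h), k⟫ = ⟪h, fderiv ℝ U z (0, k)⟫) : Rigid Ω U := by
  intro z hz h k
  have hM : ∀ z ∈ Ω, ∀ h, fderiv ℝ U z (0, h) = lam U z • h := by
    intro z hz h
    refine ext_inner_right ℝ fun k => ?_
    have h1 := H.F1 (by omega) hz h k
    have h2 := hirr z hz h k
    have c1 := real_inner_comm k (fderiv ℝ U z (0, h))
    rw [inner_smul_left]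
    simp only [conj_trivial]
    linarith
  have hD : ∀ l h, fderiv ℝ (fderiv ℝ U) z (0, l) (0, h) = fderiv ℝ (lam U) z (0, l) • h := by
    intro l h
    have h1 := (line_deriv (H.dU_diff hz) (0, l)).clm_apply (hasDerivAt_const (0 : ℝ) ((0 : ℝ), h))
    have h2 := (line_deriv (H.lam_diff hz) (0, l)).smul_const h
    simp only [map_zero, add_zero] at h1
    refine h1.unique (h2.congr_of_eventuallyEq ?_)
    filter_upwards [H.ev_line hz (0, l)] with s hs
    exact hM _ hs h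
  obtain ⟨c, hc, hc0⟩ := exists_orth2 hd h
  have h1 := H.D2_symm hz (0, h) (0, c)
  rw [hD, hD] at h1
  have h2 := congrArg (fun v => ⟪v, c⟫) h1
  simp only [inner_smul_left, conj_trivial, hc0, mul_zero, real_inner_self_eq_norm_sq] at h2
  have h3 : fderiv ℝ (lam U) z (0, h) = 0 := by
    have : ‖c‖ ^ 2 ≠ 0 := by positivity
    exact (mul_eq_zero.1 h2).resolve_right this
  rw [hD, h3, zero_smul]

/-- the second derivatives of a conformal Killing field -/
theorem Iso.second (hd : 0 < d) {z : ℝ × E d} (hz : z ∈ Ω) (h k m : E d) :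
    ⟪fderiv ℝ (fderiv ℝ U) z (0, h) (0, k), m⟫ = fderiv ℝ (lam U) z (0, h) * ⟪k, m⟫ +
      fderiv ℝ (lam U) z (0, k) * ⟪h, m⟫ - fderiv ℝ (lam U) z (0, m) * ⟪h, k⟫ := by
  have h1 := H.F1' hd hz (0, h) k m
  have h2 := H.F1' hd hz (0, k) h m
  have h3 := H.F1' hd hz (0, m) h k
  rw [H.D2_symm hz (0, k) (0, h)] at h2
  rw [H.D2_symm hz (0, m) (0, h), H.D2_symm hz (0, m) (0, k)] at h3
  rw [real_inner_comm]
  linarith

theorem Iso.hess (hd : 3 ≤ d) (hU3 : ContDiffOn ℝ 3 U Ω) {z : ℝ × E d} (hz : z ∈ Ω) (l k : E d) :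
    fderiv ℝ (fderiv ℝ (lam U)) z (0, l) (0, k) = 0 := by
  have hd0 : 0 < d := by omega
  have hU : ContDiffAt ℝ 3 U z := hU3.contDiffAt (H.isOpen.mem_nhds hz)
  have hU' : ContDiffAt ℝ 2 (fderiv ℝ U) z := hU.fderiv_right (by norm_num)
  have hU'' : ContDiffAt ℝ 1 (fderiv ℝ (fderiv ℝ U)) z := hU'.fderiv_right (by norm_num)
  have hlam : ContDiffAt ℝ 2 (lam U) z := by
    have h : ContDiffAt ℝ 2 (fun z => ∑ i, ⟪EuclideanSpace.basisFun (Fin d) ℝ i,
        fderiv ℝ U z (0, EuclideanSpace.basisFun (Fin d) ℝ i)⟫) z := by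
      refine ContDiffAt.sum fun i _ => ?_
      exact contDiffAt_const.inner ℝ (hU'.clm_apply contDiffAt_const)
    exact h.div_const _
  have hlam' : DifferentiableAt ℝ (fderiv ℝ (lam U)) z :=
    (hlam.fderiv_right (m := 1) (by norm_num)).differentiableAt (by norm_num)
  have hL2 : ∀ a b, fderiv ℝ (fderiv ℝ (lam U)) z (0, a) (0, b) = fderiv ℝ (fderiv ℝ (lam U)) z (0, b) (0, a) :=
    fun a b => (hlam.isSymmSndFDerivAt (by simp)) _ _
  have hD3 : ∀ v w, fderiv ℝ (fderiv ℝ (fderiv ℝ U)) z v w = fderiv ℝ (fderiv ℝ (fderiv ℝ U)) z w v :=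
    fun v w => (hU'.isSymmSndFDerivAt (by simp)) _ _
  have hC1 : ∀ l h k m : E d, ⟪fderiv ℝ (fderiv ℝ (fderiv ℝ U)) z (0, l) (0, h) (0, k), m⟫ =
      fderiv ℝ (fderiv ℝ (lam U)) z (0, l) (0, h) * ⟪k, m⟫ + fderiv ℝ (fderiv ℝ (lam U)) z (0, l) (0, k) * ⟪h, m⟫ -
        fderiv ℝ (fderiv ℝ (lam U)) z (0, l) (0, m) * ⟪h, k⟫ := by
    intro l h k m
    have e1 := ((line_deriv (hU''.differentiableAt (by norm_num)) (0, l)).clm_apply
      (hasDerivAt_const (0 : ℝ) ((0 : ℝ), h))).clm_apply (hasDerivAt_const (0 : ℝ) ((0 : ℝ), k))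
    simp only [map_zero, add_zero] at e1
    have e2 := e1.inner ℝ (hasDerivAt_const (0 : ℝ) m)
    simp only [inner_zero_right, zero_add] at e2
    have e3 : ∀ a : E d, HasDerivAt (fun s : ℝ => fderiv ℝ (lam U) (z + s • ((0 : ℝ), l)) (0, a))
        (fderiv ℝ (fderiv ℝ (lam U)) z (0, l) (0, a)) 0 := by
      intro a
      have := (line_deriv hlam' (0, l)).clm_apply (hasDerivAt_const (0 : ℝ) ((0 : ℝ), a))
      simpa using this
    have e4 := (((e3 h).mul_const ⟪k, m⟫).add ((e3 k).mul_const ⟪h, m⟫)).sub ((e3 m).mul_const ⟪h, k⟫)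
    refine e2.unique (e4.congr_of_eventuallyEq ?_)
    filter_upwards [H.ev_line hz (0, l)] with s hs
    exact H.second hd0 hs h k m
  have hstar : ∀ l h k m : E d, fderiv ℝ (fderiv ℝ (lam U)) z (0, l) (0, k) * ⟪h, m⟫ -
      fderiv ℝ (fderiv ℝ (lam U)) z (0, l) (0, m) * ⟪h, k⟫ = fderiv ℝ (fderiv ℝ (lam U)) z (0, h) (0, k) * ⟪l, m⟫ -
      fderiv ℝ (fderiv ℝ (lam U)) z (0, h) (0, m) * ⟪l, k⟫ := by
    intro l h k m
    have e1 := hC1 l h k m
    have e2 := hC1 h l k m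
    rw [hD3 (0, h) (0, l)] at e2
    have e3 := hL2 l h
    rw [e1] at e2
    rw [e3] at e2
    linarith
  have hdiag : ∀ l h : E d, ⟪l, h⟫ = 0 → fderiv ℝ (fderiv ℝ (lam U)) z (0, l) (0, l) * ‖h‖ ^ 2 =
      -(fderiv ℝ (fderiv ℝ (lam U)) z (0, h) (0, h) * ‖l‖ ^ 2) := by
    intro l h hlh
    have e1 := hstar l h h l
    have hhl : ⟪h, l⟫ = 0 := by rw [real_inner_comm]; exact hlh
    rw [hlh, hhl, real_inner_self_eq_norm_sq, real_inner_self_eq_norm_sq] at e1
    linarith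
  have hll : ∀ l : E d, fderiv ℝ (fderiv ℝ (lam U)) z (0, l) (0, l) = 0 := by
    intro l
    rcases eq_or_ne l 0 with rfl | hl
    · have h0 : ((0 : ℝ), (0 : E d)) = 0 := rfl
      rw [h0, map_zero]
    obtain ⟨h, hh0, hlh, -⟩ := exists_orth3 hd l l
    obtain ⟨m, hm0, hlm, hhm⟩ := exists_orth3 hd l h
    have e1 := hdiag l h hlh
    have e2 := hdiag l m hlm
    have e3 := hdiag h m hhm
    have p1 : 0 < ‖l‖ ^ 2 := by positivity
    have p2 : 0 < ‖h‖ ^ 2 := by positivity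
    have p3 : 0 < ‖m‖ ^ 2 := by positivity
    set al := fderiv ℝ (fderiv ℝ (lam U)) z (0, l) (0, l)
    set ah := fderiv ℝ (fderiv ℝ (lam U)) z (0, h) (0, h)
    set am := fderiv ℝ (fderiv ℝ (lam U)) z (0, m) (0, m)
    have e4 : al * (2 * (‖h‖ ^ 2 * ‖m‖ ^ 2)) = 0 := by
      linear_combination ‖m‖ ^ 2 * e1 + ‖h‖ ^ 2 * e2 - ‖l‖ ^ 2 * e3
    have : (2 : ℝ) * (‖h‖ ^ 2 * ‖m‖ ^ 2) ≠ 0 := by positivity
    exact (mul_eq_zero.1 e4).resolve_right this
  have e1 := hll (l + k)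
  have e2 : ((0 : ℝ), l + k) = (0, l) + (0, k) := by simp
  simp only [e2, map_add, add_apply] at e1
  rw [hll l, hll k, hL2 k l] at e1
  linarith

/-- In dimension at least three the velocity field is affine. -/
theorem Iso.rigid_of_three (hd : 3 ≤ d) (hU3 : ContDiffOn ℝ 3 U Ω) (x₀ : E d)
    (hstar : ∀ z ∈ Ω, ∀ s ∈ Icc (0 : ℝ) 1, (z.1, x₀ + s • (z.2 - x₀)) ∈ Ω) : Rigid Ω U := by
  have hd0 : 0 < d := by omega
  have hlam' : ∀ z ∈ Ω, DifferentiableAt ℝ (fderiv ℝ (lam U)) z := by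
    intro z hz
    have hU : ContDiffAt ℝ 3 U z := hU3.contDiffAt (H.isOpen.mem_nhds hz)
    have hU' : ContDiffAt ℝ 2 (fderiv ℝ U) z := hU.fderiv_right (by norm_num)
    have hlam : ContDiffAt ℝ 2 (lam U) z := by
      have h : ContDiffAt ℝ 2 (fun z => ∑ i, ⟪EuclideanSpace.basisFun (Fin d) ℝ i,
          fderiv ℝ U z (0, EuclideanSpace.basisFun (Fin d) ℝ i)⟫) z := by
        refine ContDiffAt.sum fun i _ => ?_
        exact contDiffAt_const.inner ℝ (hU'.clm_apply contDiffAt_const)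
      exact h.div_const _
    exact (hlam.fderiv_right (m := 1) (by norm_num)).differentiableAt (by norm_num)
  -- the gradient of `λ` is constant on slices
  have hconst : ∀ z ∈ Ω, ∀ a : E d, fderiv ℝ (lam U) z (0, a) = fderiv ℝ (lam U) (z.1, x₀) (0, a) := by
    intro z hz a
    have h1 := slice_affine (fun z => fderiv ℝ (lam U) z (0, a)) z.1 x₀ (z.2 - x₀) 0 (fun s hs => by
      have hz' := hstar z hz s hs
      have h2 := (hlam' _ hz').hasFDerivAt.clm_apply (hasFDerivAt_const ((0 : ℝ), a) (z.1, x₀ + s • (z.2 - x₀)))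
      refine ⟨h2.differentiableAt, ?_⟩
      rw [h2.fderiv]
      simp [H.hess hd hU3 hz'])
    simp only [add_sub_cancel, add_zero] at h1
    exact h1
  -- it suffices that it vanishes
  suffices hgrad : ∀ z ∈ Ω, ∀ a : E d, fderiv ℝ (lam U) z (0, a) = 0 by
    intro z hz h k
    refine ext_inner_right ℝ fun m => ?_
    rw [H.second hd0 hz, hgrad z hz, hgrad z hz, hgrad z hz]
    simp
  by_contra hcon
  push Not at hcon
  obtain ⟨z₀, hz₀, a₀, ha₀⟩ := hcon
  -- the gradient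
  set g : E d := (InnerProductSpace.toDual ℝ (E d)).symm
    ((fderiv ℝ (lam U) (z₀.1, x₀)).comp (ContinuousLinearMap.inr ℝ ℝ (E d))) with hg
  have hga : ∀ a : E d, ⟪g, a⟫ = fderiv ℝ (lam U) (z₀.1, x₀) (0, a) := by
    intro a
    rw [hg, InnerProductSpace.toDual_symm_apply]
    rfl
  have hgz : ∀ z ∈ Ω, z.1 = z₀.1 → ∀ a : E d, fderiv ℝ (lam U) z (0, a) = ⟪g, a⟫ := by
    intro z hz hzt a
    rw [hconst z hz a, hga, hzt]
  have hg0 : g ≠ 0 := by
    rintro h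
    apply ha₀
    rw [hgz z₀ hz₀ rfl, h, inner_zero_left]
  have hgpos : 0 < ‖g‖ ^ 2 := by positivity
  -- the acceleration is parallel to the gradient
  have hpar : ∀ z ∈ Ω, z.1 = z₀.1 → ∀ k : E d, ⟪g, k⟫ = 0 → ⟪Acc U z, k⟫ = 0 := by
    intro z hz hzt k hk
    rcases eq_or_ne (Acc U z) 0 with h0 | h0
    · rw [h0, inner_zero_left]
    set A := Acc U z with hA
    set e := ‖A‖ ^ 2 • g - ⟪A, g⟫ • A with he
    have h1 : ⟪A, e⟫ = 0 := by
      rw [he, inner_sub_right, inner_smul_right, inner_smul_right, real_inner_self_eq_norm_sq]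
      ring
    have h2 : ⟪g, e⟫ = 0 := by
      rw [← hgz z hz hzt e]
      exact H.stepA hd0 hz h0 e h1
    have h3 : ⟪e, e⟫ = 0 := by
      have : ⟪‖A‖ ^ 2 • g - ⟪A, g⟫ • A, e⟫ = 0 := by
        rw [inner_sub_left, inner_smul_left, inner_smul_left, h1, h2]
        simp
      exact this
    have h4 : e = 0 := inner_self_eq_zero.1 h3
    have h5 : ⟪A, g⟫ * ⟪A, k⟫ = 0 := by
      have h6 := congrArg (fun v => ⟪v, k⟫) h4
      simp only [he, inner_sub_left, inner_smul_left, conj_trivial, hk, mul_zero, inner_zero_left, zero_sub,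
        neg_eq_zero] at h6
      exact h6
    rcases mul_eq_zero.1 h5 with h6 | h6
    · exfalso
      rw [he, h6, zero_smul, sub_zero] at h4
      rcases smul_eq_zero.1 h4 with h7 | h7
      · exact h0 (norm_eq_zero.1 (pow_eq_zero_iff two_ne_zero |>.1 h7))
      · exact hg0 h7
    · exact h6
  have hslice : ∀ (z : ℝ × E d) (h : E d) (s : ℝ), (z + s • ((0 : ℝ), h)).1 = z.1 := fun z h s => by simp
  -- the norm of `M k`
  have hnorm : ∀ z ∈ Ω, z.1 = z₀.1 → ∀ k : E d, ⟪g, k⟫ = 0 →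
      ‖fderiv ℝ U z (0, k)‖ ^ 2 = (fderiv ℝ (lam U) z (1, U z) + 2 * lam U z ^ 2) * ‖k‖ ^ 2 := by
    intro z hz hzt k hk
    have h1 : ⟪fderiv ℝ (Acc U) z (0, k), k⟫ = 0 := by
      have e1 := (line_deriv (H.Acc_diff hz) (0, k)).inner ℝ (hasDerivAt_const (0 : ℝ) k)
      simp only [inner_zero_right, zero_add] at e1
      have e2 : HasDerivAt (fun s : ℝ => ⟪Acc U (z + s • ((0 : ℝ), k)), k⟫) 0 0 := by
        refine (hasDerivAt_const (0 : ℝ) (0 : ℝ)).congr_of_eventuallyEq ?_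
        filter_upwards [H.ev_line hz (0, k)] with s hs
        exact hpar _ hs (by rw [hslice, hzt]) k hk
      exact e1.unique e2
    rw [H.Acc_fderiv hz, inner_add_left, H.D2_symm hz (0, k) (1, U z)] at h1
    have h2 := H.F1' hd0 hz (1, U z) k k
    have h3 := H.F1 hd0 hz k k
    have h4 := H.F1 hd0 hz k (fderiv ℝ U z (0, k))
    have c1 := real_inner_comm k (fderiv ℝ (fderiv ℝ U) z (1, U z) (0, k))
    have c2 := real_inner_comm k (fderiv ℝ U z (0, fderiv ℝ U z (0, k)))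
    have c3 : ⟪k, k⟫ = ‖k‖ ^ 2 := real_inner_self_eq_norm_sq k
    have c4 : ⟪fderiv ℝ U z (0, k), fderiv ℝ U z (0, k)⟫ = ‖fderiv ℝ U z (0, k)‖ ^ 2 := real_inner_self_eq_norm_sq _
    rw [c3] at h2 h3
    rw [c4] at h4
    linear_combination (-1) * h1 + (1 / 2) * h2 + h4 + lam U z * h3 + c1 + c2
  obtain ⟨k, hk0, hgk, -⟩ := exists_orth3 hd g g
  obtain ⟨k', hk'0, hgk', hkk'⟩ := exists_orth3 hd g k
  have hkpos : 0 < ‖k‖ ^ 2 := by positivity
  have hk'pos : 0 < ‖k'‖ ^ 2 := by positivity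
  have hsec : ∀ z ∈ Ω, z.1 = z₀.1 → fderiv ℝ (fderiv ℝ U) z (0, k) (0, k) = -(‖k‖ ^ 2) • g ∧
      fderiv ℝ (fderiv ℝ U) z (0, k) (0, k') = 0 := by
    intro z hz hzt
    constructor
    · refine ext_inner_right ℝ fun m => ?_
      rw [H.second hd0 hz, hgz z hz hzt, hgz z hz hzt, hgk, inner_smul_left, real_inner_self_eq_norm_sq]
      simp only [conj_trivial]
      ring
    · refine ext_inner_right ℝ fun m => ?_
      rw [H.second hd0 hz, hgz z hz hzt, hgz z hz hzt, hgz z hz hzt, hgk, hgk', hkk', inner_zero_left]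
      ring
  have horth : ∀ z ∈ Ω, z.1 = z₀.1 → ⟪fderiv ℝ U z (0, k), g⟫ = 0 := by
    intro z hz hzt
    have e : ∀ a : E d, HasDerivAt (fun s : ℝ => fderiv ℝ U (z + s • ((0 : ℝ), k)) (0, a))
        (fderiv ℝ (fderiv ℝ U) z (0, k) (0, a)) 0 := by
      intro a
      have := (line_deriv (H.dU_diff hz) (0, k)).clm_apply (hasDerivAt_const (0 : ℝ) ((0 : ℝ), a))
      simpa using this
    have hzz : z + (0 : ℝ) • ((0 : ℝ), k) = z := by simp
    have e1 := ((e k).inner ℝ (e k)).mul_const (‖k'‖ ^ 2)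
    have e2 := ((e k').inner ℝ (e k')).mul_const (‖k‖ ^ 2)
    rw [(hsec z hz hzt).1, hzz] at e1
    rw [(hsec z hz hzt).2, hzz] at e2
    have e3 := e1.unique (e2.congr_of_eventuallyEq (by
      filter_upwards [H.ev_line hz (0, k)] with s hs
      have h1 := hnorm _ hs (by rw [hslice, hzt]) k hgk
      have h2 := hnorm _ hs (by rw [hslice, hzt]) k' hgk'
      rw [real_inner_self_eq_norm_sq, real_inner_self_eq_norm_sq, h1, h2]
      ring))
    simp only [inner_smul_left, inner_smul_right, inner_zero_left, inner_zero_right, add_zero, zero_mul,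
      conj_trivial] at e3
    have c1 := real_inner_comm g (fderiv ℝ U z (0, k))
    have e4 : (2 * (‖k‖ ^ 2 * ‖k'‖ ^ 2)) * ⟪fderiv ℝ U z (0, k), g⟫ = 0 := by
      rw [c1] at e3
      linear_combination (-1) * e3 + (2 * (‖k‖ ^ 2 * ‖k'‖ ^ 2)) * c1
    have : (2 : ℝ) * (‖k‖ ^ 2 * ‖k'‖ ^ 2) ≠ 0 := by positivity
    exact (mul_eq_zero.1 e4).resolve_left this
  -- contradiction
  have e1 := (line_deriv (H.dU_diff hz₀) (0, k)).clm_apply (hasDerivAt_const (0 : ℝ) ((0 : ℝ), k))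
  simp only [map_zero, add_zero] at e1
  have e2 := e1.inner ℝ (hasDerivAt_const (0 : ℝ) g)
  simp only [inner_zero_right, zero_add] at e2
  have e3 : HasDerivAt (fun s : ℝ => ⟪fderiv ℝ U (z₀ + s • ((0 : ℝ), k)) (0, k), g⟫) 0 0 := by
    refine (hasDerivAt_const (0 : ℝ) (0 : ℝ)).congr_of_eventuallyEq ?_
    filter_upwards [H.ev_line hz₀ (0, k)] with s hs
    exact horth _ hs (by rw [hslice])
  have e4 := e2.unique e3
  rw [(hsec z₀ hz₀ rfl).1, inner_smul_left, real_inner_self_eq_norm_sq] at e4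
  simp only [conj_trivial] at e4
  have : 0 < ‖k‖ ^ 2 * ‖g‖ ^ 2 := by positivity
  linarith

end iso

end Pool.Agent.H67.Boltz
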