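import Pool.Agent.H67.Boltz.Conf2

set_option autoImplicit false

/-!
# Isotropic distributions: the velocity field is affine, in all dimensions
-/

open MeasureTheory Filter Topology Set
open scoped RealInnerProductSpace

namespace Pool.Agent.H67.Boltz

variable {d : ℕ}

section iso

variable {B : ℝ → ℝ → ℝ} {T : ℝ} {f : ℝ → E d → E d → ℝ} {Ω : Set (ℝ × E d)} {U : ℝ × E d → E d}

variable (H : Iso B T f Ω U)

include H

theorem Iso.lam_C2 (hU3 : ContDiffOn ℝ 3 U Ω) {z : ℝ × E d} (hz : z ∈ Ω) : ContDiffAt ℝ 2 (lam U) z := by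
  have hU : ContDiffAt ℝ 3 U z := hU3.contDiffAt (H.isOpen.mem_nhds hz)
  have hU' : ContDiffAt ℝ 2 (fderiv ℝ U) z := hU.fderiv_right (by norm_num)
  have h : ContDiffAt ℝ 2 (fun z => ∑ i, ⟪EuclideanSpace.basisFun (Fin d) ℝ i,
      fderiv ℝ U z (0, EuclideanSpace.basisFun (Fin d) ℝ i)⟫) z := by
    refine ContDiffAt.sum fun i _ => ?_
    exact contDiffAt_const.inner ℝ (hU'.clm_apply contDiffAt_const)
  exact h.div_const _

/-- the derivative of `M` along the flow -/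
theorem Iso.I1 (hd : 0 < d) {z : ℝ × E d} (hz : z ∈ Ω) (k l : E d) :
    ⟪fderiv ℝ (fderiv ℝ U) z (1, U z) (0, k), l⟫ =
      (fderiv ℝ (lam U) z (1, U z) + 2 * lam U z ^ 2) * ⟪k, l⟫ - 2 * lam U z * ⟪fderiv ℝ U z (0, k), l⟫ := by
  have hF1 := H.F1 hd hz
  obtain ⟨hS, -⟩ := H.compat hd hz
  set M : E d → E d := fun k => fderiv ℝ U z (0, k) with hM
  have hMk : ∀ k, fderiv ℝ U z (0, k) = M k := fun k => rfl
  have F5 : ∀ k, fderiv ℝ (Acc U) z (0, k) = fderiv ℝ (fderiv ℝ U) z (1, U z) (0, k) + M (M k) := by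
    intro k
    rw [H.Acc_fderiv hz, H.D2_symm hz (0, k) (1, U z)]
  have h1 := hS k l
  have h2 := H.F1' hd hz (1, U z) k l
  have h5 := hF1 k (M l)
  have h6 := hF1 k l
  have h7 := hF1 l (M k)
  simp only [hMk] at h5 h6 h7 ⊢
  have c1 := real_inner_comm (M k) (M l)
  have c2 := real_inner_comm k (M (M l))
  have c3 := real_inner_comm l (M (M k))
  have c5 := real_inner_comm l (M k)
  have c7 := real_inner_comm k (fderiv ℝ (fderiv ℝ U) z (1, U z) (0, l))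
  have c8 := real_inner_comm l (fderiv ℝ (fderiv ℝ U) z (1, U z) (0, k))
  have i3 : ⟪fderiv ℝ (Acc U) z (0, k), l⟫ = ⟪fderiv ℝ (fderiv ℝ U) z (1, U z) (0, k), l⟫ + ⟪M (M k), l⟫ := by
    rw [F5 k, inner_add_left]
  have i4 : ⟪fderiv ℝ (Acc U) z (0, l), k⟫ = ⟪fderiv ℝ (fderiv ℝ U) z (1, U z) (0, l), k⟫ + ⟪M (M l), k⟫ := by
    rw [F5 l, inner_add_left]
  linear_combination (-1 / 2) * i3 + (1 / 2) * i4 + (1 / 2) * h1 + (1 / 2) * c7 + (1 / 2) * c8 + (1 / 2) * h2 +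
      (1 / 2) * c2 + (1 / 2) * h5 - (1 / 2) * h7 - (1 / 2) * c3 - (1 / 2) * c1 + lam U z * h6 + 2 * lam U z * c5

theorem Iso.third (hd : 0 < d) (hU3 : ContDiffOn ℝ 3 U Ω) {z : ℝ × E d} (hz : z ∈ Ω) (v : ℝ × E d) (h k m : E d) :
    ⟪fderiv ℝ (fderiv ℝ (fderiv ℝ U)) z v (0, h) (0, k), m⟫ =
      fderiv ℝ (fderiv ℝ (lam U)) z v (0, h) * ⟪k, m⟫ + fderiv ℝ (fderiv ℝ (lam U)) z v (0, k) * ⟪h, m⟫ -
        fderiv ℝ (fderiv ℝ (lam U)) z v (0, m) * ⟪h, k⟫ := by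
  have hU : ContDiffAt ℝ 3 U z := hU3.contDiffAt (H.isOpen.mem_nhds hz)
  have hU' : ContDiffAt ℝ 2 (fderiv ℝ U) z := hU.fderiv_right (by norm_num)
  have hU'' : ContDiffAt ℝ 1 (fderiv ℝ (fderiv ℝ U)) z := hU'.fderiv_right (by norm_num)
  have hlam' : DifferentiableAt ℝ (fderiv ℝ (lam U)) z :=
    ((H.lam_C2 hU3 hz).fderiv_right (m := 1) (by norm_num)).differentiableAt (by norm_num)
  have e1 := ((line_deriv (hU''.differentiableAt (by norm_num)) v).clm_apply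
    (hasDerivAt_const (0 : ℝ) ((0 : ℝ), h))).clm_apply (hasDerivAt_const (0 : ℝ) ((0 : ℝ), k))
  simp only [map_zero, add_zero] at e1
  have e2 := e1.inner ℝ (hasDerivAt_const (0 : ℝ) m)
  simp only [inner_zero_right, zero_add] at e2
  have e3 : ∀ a : E d, HasDerivAt (fun s : ℝ => fderiv ℝ (lam U) (z + s • v) (0, a))
      (fderiv ℝ (fderiv ℝ (lam U)) z v (0, a)) 0 := by
    intro a
    have := (line_deriv hlam' v).clm_apply (hasDerivAt_const (0 : ℝ) ((0 : ℝ), a))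
    simpa using this
  have e4 := (((e3 h).mul_const ⟪k, m⟫).add ((e3 k).mul_const ⟪h, m⟫)).sub ((e3 m).mul_const ⟪h, k⟫)
  refine e2.unique (e4.congr_of_eventuallyEq ?_)
  filter_upwards [H.ev_line hz v] with s hs
  exact H.second hd hs h k m

/-- the spatial derivative of the vorticity equation -/
theorem Iso.vorticity (hd : 0 < d) (hU3 : ContDiffOn ℝ 3 U Ω) {z : ℝ × E d} (hz : z ∈ Ω) (h k m : E d) :
    fderiv ℝ (fderiv ℝ (lam U)) z (1, U z) (0, k) * ⟪h, m⟫ - fderiv ℝ (fderiv ℝ (lam U)) z (1, U z) (0, m) * ⟪h, k⟫ +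
      fderiv ℝ (lam U) z (0, k) * ⟪fderiv ℝ U z (0, h), m⟫ - fderiv ℝ (lam U) z (0, m) * ⟪fderiv ℝ U z (0, h), k⟫ =
    2 * lam U z * fderiv ℝ (lam U) z (0, h) * ⟪k, m⟫ - 2 * fderiv ℝ (lam U) z (0, h) * ⟪fderiv ℝ U z (0, k), m⟫ -
      2 * lam U z * fderiv ℝ (lam U) z (0, k) * ⟪h, m⟫ + 2 * lam U z * fderiv ℝ (lam U) z (0, m) * ⟪h, k⟫ := by
  have hU : ContDiffAt ℝ 3 U z := hU3.contDiffAt (H.isOpen.mem_nhds hz)
  have hU' : ContDiffAt ℝ 2 (fderiv ℝ U) z := hU.fderiv_right (by norm_num)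
  have hU'' : ContDiffAt ℝ 1 (fderiv ℝ (fderiv ℝ U)) z := hU'.fderiv_right (by norm_num)
  have hlam := H.lam_C2 hU3 hz
  have hlam' : DifferentiableAt ℝ (fderiv ℝ (lam U)) z :=
    (hlam.fderiv_right (m := 1) (by norm_num)).differentiableAt (by norm_num)
  have hL2 : fderiv ℝ (fderiv ℝ (lam U)) z (0, h) (1, U z) = fderiv ℝ (fderiv ℝ (lam U)) z (1, U z) (0, h) :=
    (hlam.isSymmSndFDerivAt (by simp)) _ _
  have hD3 : fderiv ℝ (fderiv ℝ (fderiv ℝ U)) z (0, h) (1, U z) = fderiv ℝ (fderiv ℝ (fderiv ℝ U)) z (1, U z) (0, h) :=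
    (hU'.isSymmSndFDerivAt (by simp)) _ _
  have hzz : z + (0 : ℝ) • ((0 : ℝ), h) = z := by simp
  -- derivative of the left hand side
  have eU : HasDerivAt (fun s : ℝ => (((1 : ℝ), U (z + s • ((0 : ℝ), h))) : ℝ × E d)) (0, fderiv ℝ U z (0, h)) 0 :=
    (hasDerivAt_const (0 : ℝ) (1 : ℝ)).prodMk (line_deriv (H.U_diff hz) (0, h))
  have e1 := ((line_deriv (hU''.differentiableAt (by norm_num)) (0, h)).clm_apply eU).clm_apply
    (hasDerivAt_const (0 : ℝ) ((0 : ℝ), k))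
  simp only [map_zero, add_zero, hzz, add_apply] at e1
  have e2 := e1.inner ℝ (hasDerivAt_const (0 : ℝ) m)
  simp only [inner_zero_right, zero_add, hD3] at e2
  -- derivative of the right hand side
  have r1 : HasDerivAt (fun s : ℝ => fderiv ℝ (lam U) (z + s • ((0 : ℝ), h)) (1, U (z + s • ((0 : ℝ), h))))
      (fderiv ℝ (fderiv ℝ (lam U)) z (1, U z) (0, h) + fderiv ℝ (lam U) z (0, fderiv ℝ U z (0, h))) 0 := by
    have := (line_deriv hlam' (0, h)).clm_apply eU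
    simp only [hzz] at this
    rwa [hL2] at this
  have r2 := line_deriv (H.lam_diff hz) (0, h)
  have r3 : HasDerivAt (fun s : ℝ => ⟪fderiv ℝ U (z + s • ((0 : ℝ), h)) (0, k), m⟫)
      ⟪fderiv ℝ (fderiv ℝ U) z (0, h) (0, k), m⟫ 0 := by
    have h1 := (line_deriv (H.dU_diff hz) (0, h)).clm_apply (hasDerivAt_const (0 : ℝ) ((0 : ℝ), k))
    have h2 := h1.inner ℝ (hasDerivAt_const (0 : ℝ) m)
    simpa using h2
  have r4 := ((r1.add ((r2.pow 2).const_mul 2)).mul_const ⟪k, m⟫).sub ((r2.const_mul 2).mul r3)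
  simp only [hzz] at r4
  have e3 := e2.unique (r4.congr_of_eventuallyEq (by
    filter_upwards [H.ev_line hz (0, h)] with s hs
    exact H.I1 hd hs k m))
  rw [inner_add_left, H.third hd hU3 hz, H.second hd hz, H.second hd hz] at e3
  simp only [Nat.cast_ofNat, Nat.add_one_sub_one, pow_one] at e3
  linear_combination e3

/-- The velocity field is affine. -/
theorem Iso.rigid_general (hd : 2 ≤ d) (hU3 : ContDiffOn ℝ 3 U Ω) : Rigid Ω U := by
  have hd0 : 0 < d := by omega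
  -- it suffices that the gradient of `λ` vanishes
  suffices hgrad : ∀ z ∈ Ω, ∀ a : E d, fderiv ℝ (lam U) z (0, a) = 0 by
    intro z hz h k
    refine ext_inner_right ℝ fun m => ?_
    rw [H.second hd0 hz, hgrad z hz, hgrad z hz, hgrad z hz]
    simp
  by_contra hcon
  push Not at hcon
  obtain ⟨z₀, hz₀, a₀, ha₀⟩ := hcon
  have hlamc : ∀ z ∈ Ω, DifferentiableAt ℝ (fderiv ℝ (lam U)) z := fun z hz =>
    ((H.lam_C2 hU3 hz).fderiv_right (m := 1) (by norm_num)).differentiableAt (by norm_num)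
  -- a point with nonzero acceleration
  have hne : ∀ᶠ z in 𝓝 z₀, z ∈ Ω ∧ fderiv ℝ (lam U) z (0, a₀) ≠ 0 := by
    have h0 : ∀ᶠ z in 𝓝 z₀, z ∈ Ω := H.isOpen.mem_nhds hz₀
    have : ContinuousAt (fun z => fderiv ℝ (lam U) z (0, a₀)) z₀ :=
      (hlamc z₀ hz₀).continuousAt.clm_apply continuousAt_const
    exact Filter.Eventually.and h0 (this.eventually_ne ha₀)
  obtain ⟨z₁, hz₁, hg₁, hA₁⟩ : ∃ z₁ ∈ Ω, fderiv ℝ (lam U) z₁ (0, a₀) ≠ 0 ∧ Acc U z₁ ≠ 0 := by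
    by_contra hno
    push Not at hno
    have h1 : ∀ᶠ z in 𝓝 z₀, Acc U z = 0 := by
      filter_upwards [hne] with z hz
      exact hno z hz.1 hz.2
    have h2 : fderiv ℝ (Acc U) z₀ = 0 := by
      have : Acc U =ᶠ[𝓝 z₀] fun _ => 0 := h1
      rw [this.fderiv_eq]
      simp
    have h3 := (H.compat hd0 hz₀).2 a₀
    simp only [h2, h1.self_of_nhds, zero_apply, inner_zero_left, mul_zero, sub_zero, zero_add] at h3
    have h4 := H.r0_pos hz₀
    have h5 := H.r2_pos hd0 hz₀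
    have h6 : 0 < ((d : ℝ) + 2) * r2 f U z₀ / (d * r0 f U z₀) := by
      have : (0 : ℝ) < d := by exact_mod_cast hd0
      positivity
    rcases mul_eq_zero.1 h3.symm with h7 | h7
    · exact h6.ne' h7
    · exact ha₀ h7
  -- `N`: the set of such points
  set N : Set (ℝ × E d) := {z | z ∈ Ω ∧ fderiv ℝ (lam U) z (0, a₀) ≠ 0 ∧ Acc U z ≠ 0} with hN
  have hNopen : ∀ z ∈ N, ∀ᶠ z' in 𝓝 z, z' ∈ N := by
    intro z hz
    have h0 : ∀ᶠ z' in 𝓝 z, z' ∈ Ω := H.isOpen.mem_nhds hz.1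
    refine Filter.Eventually.and h0 (Filter.Eventually.and ?_ ?_)
    · have : ContinuousAt (fun z => fderiv ℝ (lam U) z (0, a₀)) z :=
        (hlamc z hz.1).continuousAt.clm_apply continuousAt_const
      exact this.eventually_ne hz.2.1
    · exact (H.Acc_diff hz.1).continuousAt.eventually_ne hz.2.2
  have hNline : ∀ z ∈ N, ∀ v, ∀ᶠ s in 𝓝 (0 : ℝ), z + s • v ∈ N := by
    intro z hz v
    have hl : ContinuousAt (fun s : ℝ => z + s • v) 0 := by fun_prop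
    have h2 : ∀ᶠ z' in 𝓝 (z + (0 : ℝ) • v), z' ∈ N := by
      rw [zero_smul, add_zero]
      exact hNopen z hz
    exact hl.eventually h2
  -- step A on `N`
  have hstepA : ∀ z ∈ N, ∀ e : E d, ‖Acc U z‖ ^ 2 * fderiv ℝ (lam U) z (0, e) =
      ⟪Acc U z, e⟫ * fderiv ℝ (lam U) z (0, Acc U z) := by
    intro z hz e
    have h1 := H.stepA hd0 hz.1 hz.2.2 (‖Acc U z‖ ^ 2 • e - ⟪Acc U z, e⟫ • Acc U z) (by
      rw [inner_sub_right, inner_smul_right, inner_smul_right, real_inner_self_eq_norm_sq]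
      ring)
    have h2 : ((0 : ℝ), ‖Acc U z‖ ^ 2 • e - ⟪Acc U z, e⟫ • Acc U z) =
        ‖Acc U z‖ ^ 2 • ((0 : ℝ), e) - ⟪Acc U z, e⟫ • ((0 : ℝ), Acc U z) := by simp
    rw [h2, map_sub, map_smul, map_smul, smul_eq_mul, smul_eq_mul] at h1
    linarith
  have hdA : ∀ z ∈ N, fderiv ℝ (lam U) z (0, Acc U z) ≠ 0 := by
    intro z hz h0
    have h1 := hstepA z hz a₀
    rw [h0, mul_zero] at h1
    have h2 : ‖Acc U z‖ ^ 2 ≠ 0 := by
      have := hz.2.2
      positivity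
    exact hz.2.1 ((mul_eq_zero.1 h1).resolve_left h2)
  have hde : ∀ z ∈ N, ∀ e : E d, ⟪Acc U z, e⟫ = 0 → fderiv ℝ (lam U) z (0, e) = 0 := fun z hz e he =>
    H.stepA hd0 hz.1 hz.2.2 e he
  -- `⟨M A, e⟩ = 0`
  have hMA : ∀ z ∈ N, ∀ e : E d, ⟪Acc U z, e⟫ = 0 → ⟪fderiv ℝ U z (0, Acc U z), e⟫ = 0 := by
    intro z hz e he
    have hv := H.vorticity hd0 hU3 hz.1 (Acc U z) (Acc U z) e
    rw [hde z hz e he, he, real_inner_self_eq_norm_sq] at hv
    -- the second relation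
    set v : ℝ × E d := (1, U z) with hvdef
    have hzz : z + (0 : ℝ) • v = z := by simp
    have a1 := line_deriv (H.Acc_diff hz.1) v
    have a2 : HasDerivAt (fun s : ℝ => fderiv ℝ (lam U) (z + s • v) (0, e)) (fderiv ℝ (fderiv ℝ (lam U)) z v (0, e)) 0 := by
      have := (line_deriv (hlamc z hz.1) v).clm_apply (hasDerivAt_const (0 : ℝ) ((0 : ℝ), e))
      simpa using this
    have a3 := (line_deriv (hlamc z hz.1) v).clm_apply ((hasDerivAt_const (0 : ℝ) (0 : ℝ)).prodMk a1)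
    have a4 := ((a1.inner ℝ a1).mul a2).sub ((a1.inner ℝ (hasDerivAt_const (0 : ℝ) e)).mul a3)
    have a5 := (hasDerivAt_const (0 : ℝ) (0 : ℝ)).unique (a4.congr_of_eventuallyEq (by
      filter_upwards [hNline z hz v] with s hs
      have h1 := hstepA _ hs e
      simp only [Pi.sub_apply, Pi.mul_apply, real_inner_self_eq_norm_sq]
      linarith))
    simp only [hzz, inner_zero_right, zero_add, he, zero_mul, hde z hz e he, mul_zero, add_zero,
      real_inner_self_eq_norm_sq] at a5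
    have hc := (H.compat hd0 hz.1).2 e
    rw [hde z hz e he, he, mul_zero, mul_zero, add_zero, zero_sub] at hc
    have hF := H.F1 hd0 hz.1 (Acc U z) e
    rw [he, mul_zero] at hF
    have c1 := real_inner_comm e (fderiv ℝ U z (0, Acc U z))
    have h1 : fderiv ℝ (lam U) z (0, Acc U z) * ⟪fderiv ℝ U z (0, Acc U z), e⟫ = 0 := by
      have h2 : ⟪fderiv ℝ (Acc U) z v, e⟫ = ⟪fderiv ℝ U z (0, Acc U z), e⟫ := by linarith
      rw [h2] at a5
      linear_combination (1 / 2 : ℝ) * hv - (1 / 2 : ℝ) * a5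
    exact (mul_eq_zero.1 h1).resolve_left (hdA z hz)
  have hMA' : ∀ z ∈ N, fderiv ℝ U z (0, Acc U z) = lam U z • Acc U z := by
    intro z hz
    have hA2 : ‖Acc U z‖ ^ 2 ≠ 0 := by
      have := hz.2.2
      positivity
    have h1 := H.F1 hd0 hz.1 (Acc U z) (Acc U z)
    rw [real_inner_self_eq_norm_sq] at h1
    have c1 := real_inner_comm (Acc U z) (fderiv ℝ U z (0, Acc U z))
    have h2 : ⟪Acc U z, fderiv ℝ U z (0, Acc U z) - lam U z • Acc U z⟫ = 0 := by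
      rw [inner_sub_right, inner_smul_right, real_inner_self_eq_norm_sq]
      linarith
    have h3 := hMA z hz _ h2
    have h4 : ⟪fderiv ℝ U z (0, Acc U z) - lam U z • Acc U z, fderiv ℝ U z (0, Acc U z) - lam U z • Acc U z⟫ = 0 := by
      rw [inner_sub_left, h3, inner_smul_left, h2]
      simp
    exact sub_eq_zero.1 (inner_self_eq_zero.1 h4)
  -- the contradiction at `z₁`
  have hz₁N : z₁ ∈ N := ⟨hz₁, hg₁, hA₁⟩
  obtain ⟨h, hh0, hAh⟩ := exists_orth2 hd (Acc U z₁)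
  have hzz : z₁ + (0 : ℝ) • ((0 : ℝ), h) = z₁ := by simp
  have a1 := line_deriv (H.Acc_diff hz₁) (0, h)
  have a2 := (line_deriv (H.dU_diff hz₁) (0, h)).clm_apply ((hasDerivAt_const (0 : ℝ) (0 : ℝ)).prodMk a1)
  have a3 := (line_deriv (H.lam_diff hz₁) (0, h)).smul a1
  have a4 := a2.unique (a3.congr_of_eventuallyEq (by
    filter_upwards [hNline z₁ hz₁N (0, h)] with s hs
    exact hMA' _ hs))
  simp only [hzz] at a4
  have a5 := congrArg (fun v => ⟪v, h⟫) a4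
  simp only [inner_add_left, inner_smul_left, conj_trivial, H.second hd0 hz₁, hde z₁ hz₁N h hAh, hAh, mul_zero, zero_mul,
    add_zero, zero_add, sub_zero, real_inner_self_eq_norm_sq] at a5
  -- the Hessian of the acceleration
  have hSh : ∀ m : E d, ⟪fderiv ℝ (Acc U) z₁ (0, h), m⟫ = (fderiv ℝ (lam U) z₁ (1, U z₁) + 2 * lam U z₁ ^ 2) * ⟪h, m⟫ -
      2 * lam U z₁ * ⟪fderiv ℝ U z₁ (0, h), m⟫ + ⟪fderiv ℝ U z₁ (0, fderiv ℝ U z₁ (0, h)), m⟫ := by
    intro m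
    rw [H.Acc_fderiv hz₁, H.D2_symm hz₁ (0, h) (1, U z₁), inner_add_left, H.I1 hd0 hz₁]
  set M : E d → E d := fun k => fderiv ℝ U z₁ (0, k) with hM
  have hMk : ∀ k, fderiv ℝ U z₁ (0, k) = M k := fun k => rfl
  have b1 := hSh h
  have b2 := hSh (M h)
  have b3 := H.F1 hd0 hz₁ h (fderiv ℝ (Acc U) z₁ (0, h))
  have b4 := H.F1 hd0 hz₁ h h
  have b5 := H.F1 hd0 hz₁ (M h) (M h)
  have b6 := H.F1 hd0 hz₁ h (M h)
  simp only [hMk] at a5 b1 b2 b3 b4 b5 b6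
  have c1 := real_inner_comm h (M (fderiv ℝ (Acc U) z₁ (0, h)))
  have c2 := real_inner_comm h (M h)
  have c3 := real_inner_comm h (M (M h))
  have c4 := real_inner_comm (M h) (M (M h))
  have c5 := real_inner_comm h (fderiv ℝ (Acc U) z₁ (0, h))
  have c6 : ⟪h, h⟫ = ‖h‖ ^ 2 := real_inner_self_eq_norm_sq h
  have hfin : fderiv ℝ (lam U) z₁ (0, Acc U z₁) * ‖h‖ ^ 2 = 0 := by
    linear_combination a5 - c1 - b3 + b2 + 2 * lam U z₁ * c5 - lam U z₁ * b1 + c4 + (1 / 2 : ℝ) * b5 -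
      lam U z₁ * c3 - lam U z₁ * b6 + 2 * lam U z₁ ^ 2 * c2 +
      ((fderiv ℝ (lam U) z₁ (1, U z₁) + 2 * lam U z₁ ^ 2) / 2) * b4
  have : ‖h‖ ^ 2 ≠ 0 := by positivity
  exact hdA z₁ hz₁N ((mul_eq_zero.1 hfin).resolve_right this)

end iso

end Pool.Agent.H67.Boltz
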