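import Mathlib

set_option autoImplicit false

/-!
# The Boltzmann equation: definitions
-/

open MeasureTheory Filter Topology Set
open scoped RealInnerProductSpace

namespace Pool.Agent.H67.Boltz

/-- The space of positions and the space of velocities. -/
abbrev E (d : ℕ) := EuclideanSpace ℝ (Fin d)

/-- The unit sphere. -/
abbrev Sph (d : ℕ) := Metric.sphere (0 : E d) 1

variable {d : ℕ}

/-- The velocity `v' = (v + v_*) / 2 + |v - v_*| σ / 2` after the collision; `v'_*` is obtained from `-σ`. -/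
noncomputable def post (v vs σ : E d) : E d := (1 / 2 : ℝ) • (v + vs) + (‖v - vs‖ / 2) • σ

/-- The integrand `(g(v'_*) g(v') - g(v_*) g(v)) B(|v - v_*|, cos θ)` of the collision term at `v`, `z = (v_*, σ)`. -/
noncomputable def gainLoss (B : ℝ → ℝ → ℝ) (g : E d → ℝ) (v : E d) (z : E d × Sph d) : ℝ :=
  (g (post v z.1 (-z.2.1)) * g (post v z.1 z.2.1) - g z.1 * g v) * B ‖v - z.1‖ (⟪z.2.1, v - z.1⟫ / ‖v - z.1‖)

/-- The pairs `(v_*, σ)` with `cos θ ≤ 1 - ε`. -/
def nongrazing (ε : ℝ) (v : E d) : Set (E d × Sph d) := {z | ⟪z.2.1, v - z.1⟫ ≤ (1 - ε) * ‖v - z.1‖}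

/-- The number `q` is the value at `v` of the collision term `Q(g, g)`: the integrals over the nongrazing collisions
`cos θ ≤ 1 - ε` converge absolutely, and they tend to `q` as `ε → 0`. -/
def IsCollision (B : ℝ → ℝ → ℝ) (g : E d → ℝ) (v : E d) (q : ℝ) : Prop :=
  (∀ ε : ℝ, 0 < ε → IntegrableOn (gainLoss B g v) (nongrazing ε v)
    ((volume : Measure (E d)).prod (volume : Measure (E d)).toSphere)) ∧
  Tendsto (fun ε : ℝ => ∫ z in nongrazing ε v, gainLoss B g v z
    ∂((volume : Measure (E d)).prod (volume : Measure (E d)).toSphere)) (𝓝[>] 0) (𝓝 q)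

/-- `∂_t f + v · ∇_x f` at `(t, x, v)`. -/
noncomputable def transport (f : ℝ → E d → E d → ℝ) (t : ℝ) (x v : E d) : ℝ :=
  deriv (fun s : ℝ => f (t + s) (x + s • v) v) 0

/-- The mass density `ρ`. -/
noncomputable def rho (g : E d → ℝ) : ℝ := ∫ v, g v

/-- The energy density `E`. -/
noncomputable def energy (g : E d → ℝ) : ℝ := ∫ v, ‖v‖ ^ 2 * g v

/-- A fundamental cube of the torus. -/
def cube (c : E d) : Set (E d) := {x | ∀ i, c i ≤ x i ∧ x i < c i + 1}

/-- Classical solutions for `0 < t < T` of the Boltzmann equation on the torus (periodic functions of `x`): `f ≥ 0` is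
twice continuously differentiable, `f` and its first derivatives decay rapidly in `v`, the equation holds, mass, momentum and
energy are locally conserved (`∂_t f + v · ∇_x f = Q(f, f)` has the integrals `0` against `1`, `v` and `|v|²`), and the total
mass and energy are bounded. -/
structure ClassicalSolution (B : ℝ → ℝ → ℝ) (T : ℝ) (f : ℝ → E d → E d → ℝ) : Prop where
  nonneg : ∀ t x v, 0 < t → t < T → 0 ≤ f t x v
  periodic : ∀ t x v, 0 < t → t < T → ∀ i, f t (x + EuclideanSpace.single i 1) v = f t x v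
  smooth : ContDiffOn ℝ 2 (fun z : ℝ × E d × E d => f z.1 z.2.1 z.2.2) {z | 0 < z.1 ∧ z.1 < T}
  decay : ∀ t₁ t₂, 0 < t₁ → t₂ < T → ∀ N : ℕ, ∃ C : ℝ, ∀ t x v, t₁ ≤ t → t ≤ t₂ →
    |f t x v| ≤ C / (1 + ‖v‖) ^ N ∧
      ‖fderiv ℝ (fun z : ℝ × E d × E d => f z.1 z.2.1 z.2.2) (t, x, v)‖ ≤ C / (1 + ‖v‖) ^ N
  equation : ∀ t x v, 0 < t → t < T → IsCollision B (f t x) v (transport f t x v)
  mass : ∀ t x, 0 < t → t < T → ∫ v, transport f t x v = 0
  momentum : ∀ t x, 0 < t → t < T → ∫ v, transport f t x v • v = 0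
  heat : ∀ t x, 0 < t → t < T → ∫ v, ‖v‖ ^ 2 * transport f t x v = 0
  total : ∃ K : ℝ, ∀ t, 0 < t → t < T → ∀ c : E d,
    ∫⁻ x in cube c, ENNReal.ofReal (rho (f t x) + energy (f t x)) ≤ ENNReal.ofReal K

/-- The core `|x - x₀| < δ (T - t) ^ κ`, `t₀ < t < T`. -/
def core (t₀ T : ℝ) (x₀ : E d) (δ κ : ℝ) : Set (ℝ × E d) :=
  {z | t₀ < z.1 ∧ z.1 < T ∧ ‖z.2 - x₀‖ < δ * (T - z.1) ^ κ}

end Pool.Agent.H67.Boltz
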