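import Pool.Agent.H67.Boltz.Low2

set_option autoImplicit false

/-!
# Isotropic distributions: the singular case is impossible
-/

open MeasureTheory Filter Topology Set
open scoped RealInnerProductSpace ENNReal

namespace Pool.Agent.H67.Boltz

variable {d : ℕ}

variable {B : ℝ → ℝ → ℝ} {T : ℝ} {f : ℝ → E d → E d → ℝ} {U : ℝ × E d → E d}

/-- half balls -/
theorem half_ball (x₁ A : E d) (ϱ : ℝ) :
    volume (Metric.ball x₁ ϱ) ≤ 2 * volume {x : E d | ‖x - x₁‖ < ϱ ∧ ⟪A, x - x₁⟫ ≤ 0} := by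
  set S : Set (E d) := {x : E d | ‖x - x₁‖ < ϱ ∧ ⟪A, x - x₁⟫ ≤ 0} with hS
  have hmeas : MeasurableSet S := by
    have h1 : IsOpen {x : E d | ‖x - x₁‖ < ϱ} := isOpen_lt (by fun_prop) continuous_const
    have h2 : IsClosed {x : E d | ⟪A, x - x₁⟫ ≤ 0} := isClosed_le (by fun_prop) continuous_const
    exact h1.measurableSet.inter h2.measurableSet
  have hmp : MeasurePreserving (fun x : E d => (x₁ + x₁) - x) volume volume := Measure.measurePreserving_sub_left volume _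
  have h1 : volume ((fun x : E d => (x₁ + x₁) - x) ⁻¹' S) = volume S := hmp.measure_preimage hmeas.nullMeasurableSet
  have h2 : Metric.ball x₁ ϱ ⊆ S ∪ (fun x : E d => (x₁ + x₁) - x) ⁻¹' S := by
    intro x hx
    rw [Metric.mem_ball, dist_eq_norm] at hx
    rcases le_total ⟪A, x - x₁⟫ 0 with h | h
    · exact Or.inl ⟨hx, h⟩
    · refine Or.inr ?_
      have e : (x₁ + x₁) - x - x₁ = -(x - x₁) := by abel
      refine ⟨?_, ?_⟩
      · rw [e, norm_neg]
        exact hx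
      · rw [e, inner_neg_right]
        linarith
  calc volume (Metric.ball x₁ ϱ) ≤ volume (S ∪ (fun x : E d => (x₁ + x₁) - x) ⁻¹' S) := measure_mono h2
    _ ≤ volume S + volume ((fun x : E d => (x₁ + x₁) - x) ⁻¹' S) := measure_union_le _ _
    _ = 2 * volume S := by rw [h1, two_mul]

section main

variable {x₀ : E d} {Y0 Y1 Y2 : ℝ} {W0 W1 : E d} {Λ : E d →L[ℝ] E d} {t₀ δ κ : ℝ}
  (H : Iso B T f (core t₀ T x₀ δ κ) U) (X : Explicit T (core t₀ T x₀ δ κ) U x₀ Y0 Y1 Y2 W0 W1 Λ)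

include H X

theorem no_singularity (hd : 0 < d) (ht₀ : t₀ < T) (hδ : 0 < δ) (hκ0 : 0 ≤ κ) (hκ1 : κ < 1)
    (hκ : κ < 1 / 2 + 1 / d) (hY0 : Y0 = 0) : False := by
  obtain ⟨t₃, c, x₁, ht₀₃, ht₃, hc, hx₁⟩ := base_points H X hd ht₀ hδ hκ1 hY0
  obtain ⟨K, hK⟩ := H.sol.total
  set Ω := core t₀ T x₀ δ κ with hΩ
  set p : ℝ := ((d : ℝ) + 2) / 2 with hp
  have hppos : 0 < p := by positivity
  set δ₁ := min δ 1 with hδ₁
  have hδ₁pos : 0 < δ₁ := lt_min hδ one_pos
  have hδ₁le : δ₁ ≤ δ := min_le_left _ _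
  have hδ₁le1 : δ₁ ≤ 1 := min_le_right _ _
  set C₁ := |Y1| + |Y2| * (T - t₀) + 1 with hC₁
  have hC₁pos : 0 < C₁ := by
    have : 0 ≤ |Y2| * (T - t₀) := mul_nonneg (abs_nonneg _) (by linarith)
    have := abs_nonneg Y1
    linarith
  set ω := volume (Metric.ball (0 : E d) 1) with hω
  have hω0 : 0 < ω := Metric.measure_ball_pos volume _ one_pos
  have hωt : ω ≠ ∞ := measure_ball_lt_top.ne
  have hω' : 0 < ω.toReal := ENNReal.toReal_pos hω0.ne' hωt
  have main : ∀ τ : ℝ, 0 < τ → τ < T - t₃ → τ ≤ 1 →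
      c * (δ₁ / 2) ^ d * ω.toReal / C₁ ^ p * τ ^ (κ * d - p) ≤ 2 * max K 0 := by
    intro τ hτ0 hτ3 hτ1
    set t := T - τ with ht
    have hTt : T - t = τ := by rw [ht]; ring
    have ht3 : t₃ < t := by rw [ht]; linarith
    have htT : t < T := by rw [ht]; linarith
    obtain ⟨hx1, hc1⟩ := hx₁ t ht3 htT
    rw [hTt] at hx1
    have hτκ : 0 < τ ^ κ := Real.rpow_pos_of_pos hτ0 κ
    have hτκ1 : τ ^ κ ≤ 1 := Real.rpow_le_one hτ0.le hτ1 hκ0
    set ϱ := δ₁ / 2 * τ ^ κ with hϱ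
    have hϱpos : 0 < ϱ := by positivity
    have hϱhalf : ϱ ≤ 1 / 2 := by
      rw [hϱ]
      nlinarith
    have hin : ∀ x, ‖x - x₁ t‖ < ϱ → (t, x) ∈ Ω := by
      intro x hx
      refine ⟨by show t₀ < t; linarith, htT, ?_⟩
      show ‖x - x₀‖ < δ * (T - t) ^ κ
      rw [hTt]
      have h1 : ‖x - x₀‖ ≤ ‖x - x₁ t‖ + ‖x₁ t - x₀‖ := by
        have : x - x₀ = (x - x₁ t) + (x₁ t - x₀) := by abel
        rw [this]
        exact norm_add_le _ _
      have h2 : ϱ ≤ δ / 2 * τ ^ κ := mul_le_mul_of_nonneg_right (by linarith) hτκ.le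
      linarith
    have hx1Ω : (t, x₁ t) ∈ Ω := hin _ (by simpa using hϱpos)
    set S : Set (E d) := {x : E d | ‖x - x₁ t‖ < ϱ ∧ ⟪Acc U (t, x₁ t), x - x₁ t⟫ ≤ 0} with hS
    have hY : 0 < Yp Y0 Y1 Y2 T t := X.pos _ hx1Ω
    have hYle : Yp Y0 Y1 Y2 T t ≤ τ * C₁ := by
      rw [hY0]
      unfold Yp
      rw [hTt]
      have h1 : Y1 ≤ |Y1| := le_abs_self _
      have h2 : Y2 * τ ≤ |Y2| * (T - t₀) := by
        have h3 : Y2 * τ ≤ |Y2| * τ := mul_le_mul_of_nonneg_right (le_abs_self _) hτ0.le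
        have h4 : |Y2| * τ ≤ |Y2| * (T - t₀) := mul_le_mul_of_nonneg_left (by linarith) (abs_nonneg _)
        linarith
      have h3 : 0 + Y1 * τ + Y2 * τ ^ 2 = τ * (Y1 + Y2 * τ) := by ring
      rw [h3]
      exact mul_le_mul_of_nonneg_left (by linarith) hτ0.le
    have hen : ∀ x ∈ S, c / (τ * C₁) ^ p ≤ rho (f t x) + energy (f t x) := by
      intro x hx
      have hxΩ := hin x hx.1
      have hxs : ∀ s ∈ Icc (0 : ℝ) 1, (t, x₁ t + s • (x - x₁ t)) ∈ Ω := by
        intro s hs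
        refine hin _ ?_
        have e : x₁ t + s • (x - x₁ t) - x₁ t = s • (x - x₁ t) := by abel
        rw [e, norm_smul, Real.norm_eq_abs, abs_of_nonneg hs.1]
        have h1 := hx.1
        have h2 := norm_nonneg (x - x₁ t)
        nlinarith [hs.2]
      have h1 := G2_halfball H X hd hY0 hxs hx.2
      rw [add_sub_cancel] at h1
      have h2 : c ≤ Yp Y0 Y1 Y2 T t ^ p * r2 f U (t, x) := hc1.trans h1
      have h3 := H.energy_eq hxΩ
      have h4 := (H.r0_pos hxΩ).le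
      have h5 := rho_eq f U (t, x)
      have h6 := (H.r2_pos hd hxΩ).le
      simp only at h3 h5
      have h7 : 0 ≤ ‖U (t, x)‖ ^ 2 * r0 f U (t, x) := by positivity
      have h8 : c / (τ * C₁) ^ p ≤ r2 f U (t, x) := by
        rw [div_le_iff₀ (Real.rpow_pos_of_pos (by positivity) _)]
        have h9 : Yp Y0 Y1 Y2 T t ^ p ≤ (τ * C₁) ^ p := Real.rpow_le_rpow hY.le hYle hppos.le
        calc c ≤ Yp Y0 Y1 Y2 T t ^ p * r2 f U (t, x) := h2
          _ ≤ (τ * C₁) ^ p * r2 f U (t, x) := mul_le_mul_of_nonneg_right h9 h6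
          _ = r2 f U (t, x) * (τ * C₁) ^ p := mul_comm _ _
      rw [h5, h3]
      linarith
    -- the cube
    set c₀ : E d := x₁ t - WithLp.toLp 2 (fun _ : Fin d => (1 / 2 : ℝ)) with hc₀
    have hScube : S ⊆ cube c₀ := by
      intro x hx i
      have h1 : ‖(x - x₁ t) i‖ ≤ ‖x - x₁ t‖ := PiLp.norm_apply_le _ _
      have h2 := hx.1
      rw [PiLp.sub_apply, Real.norm_eq_abs] at h1
      have h3 := abs_le.1 h1
      have h4 : c₀ i = x₁ t i - 1 / 2 := by simp [hc₀]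
      rw [h4]
      constructor
      · linarith [h3.1]
      · linarith [h3.2]
    have ht0 : 0 < t := (H.time _ hx1Ω).1
    have h1 : ENNReal.ofReal (c / (τ * C₁) ^ p) * volume S ≤ ENNReal.ofReal K := by
      have hmeas : MeasurableSet S := by
        have h1 : IsOpen {x : E d | ‖x - x₁ t‖ < ϱ} := isOpen_lt (by fun_prop) continuous_const
        have h2 : IsClosed {x : E d | ⟪Acc U (t, x₁ t), x - x₁ t⟫ ≤ 0} := isClosed_le (by fun_prop) continuous_const
        exact h1.measurableSet.inter h2.measurableSet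
      calc ENNReal.ofReal (c / (τ * C₁) ^ p) * volume S = ∫⁻ _ in S, ENNReal.ofReal (c / (τ * C₁) ^ p) := by
            rw [setLIntegral_const]
        _ ≤ ∫⁻ x in S, ENNReal.ofReal (rho (f t x) + energy (f t x)) :=
            setLIntegral_mono' hmeas fun x hx => ENNReal.ofReal_le_ofReal (hen x hx)
        _ ≤ ∫⁻ x in cube c₀, ENNReal.ofReal (rho (f t x) + energy (f t x)) := lintegral_mono_set hScube
        _ ≤ ENNReal.ofReal K := hK t ht0 htT c₀
    have h2 := half_ball (x₁ t) (Acc U (t, x₁ t)) ϱ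
    rw [Measure.addHaar_ball_of_pos volume _ hϱpos, finrank_euclideanSpace_fin] at h2
    have h3 : ENNReal.ofReal (c / (τ * C₁) ^ p) * (ENNReal.ofReal (ϱ ^ d) * ω) ≤ 2 * ENNReal.ofReal K := by
      calc ENNReal.ofReal (c / (τ * C₁) ^ p) * (ENNReal.ofReal (ϱ ^ d) * ω)
          ≤ ENNReal.ofReal (c / (τ * C₁) ^ p) * (2 * volume S) := mul_le_mul_right h2 _
        _ = 2 * (ENNReal.ofReal (c / (τ * C₁) ^ p) * volume S) := by ring
        _ ≤ 2 * ENNReal.ofReal K := mul_le_mul_right h1 _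
    have hpos1 : 0 < c / (τ * C₁) ^ p := by positivity
    have h4 : c / (τ * C₁) ^ p * (ϱ ^ d * ω.toReal) ≤ 2 * max K 0 := by
      have h5 := ENNReal.toReal_mono (by finiteness) h3
      rw [ENNReal.toReal_mul, ENNReal.toReal_mul, ENNReal.toReal_mul, ENNReal.toReal_ofReal hpos1.le,
        ENNReal.toReal_ofReal (by positivity), ENNReal.toReal_ofReal'] at h5
      simpa using h5
    refine le_trans (le_of_eq ?_) h4
    rw [Real.mul_rpow hτ0.le hC₁pos.le, Real.rpow_sub hτ0, Real.rpow_mul hτ0.le, Real.rpow_natCast, hϱ, mul_pow]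
    field_simp
  have hexp : κ * d - p < 0 := by
    have hd' : (0 : ℝ) < d := by exact_mod_cast hd
    have : κ * d < (1 / 2 + 1 / d) * d := mul_lt_mul_of_pos_right hκ hd'
    have h2 : (1 / 2 + 1 / (d : ℝ)) * d = p := by
      rw [hp]
      field_simp
    linarith
  set M := c * (δ₁ / 2) ^ d * ω.toReal / C₁ ^ p with hM
  have hMpos : 0 < M := by positivity
  have h1 := (tendsto_rpow_neg_nhdsGT_zero hexp).eventually (eventually_gt_atTop (2 * max K 0 / M))
  have h2 : ∀ᶠ τ in 𝓝[>] (0 : ℝ), τ ∈ Ioo 0 (min (T - t₃) 1) := Ioo_mem_nhdsGT (lt_min (by linarith) one_pos)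
  obtain ⟨τ, hτ1, hτ2⟩ := (h1.and h2).exists
  have h3 := main τ hτ2.1 (hτ2.2.trans_le (min_le_left _ _)) (hτ2.2.le.trans (min_le_right _ _))
  rw [div_lt_iff₀ hMpos] at hτ1
  linarith

end main

end Pool.Agent.H67.Boltz
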