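import Pool.Agent.H67.Boltz.Conf2
import Pool.Agent.H67.Boltz.Low3

set_option autoImplicit false

/-!
# Isotropic cores: assembly
-/

open MeasureTheory Filter Topology Set
open scoped RealInnerProductSpace

namespace Pool.Agent.H67.Boltz

variable {d : ℕ}

theorem isOpen_core (t₀ T : ℝ) (x₀ : E d) (δ κ : ℝ) (hκ : 0 ≤ κ) : IsOpen (core t₀ T x₀ δ κ) := by
  have h1 : IsOpen {z : ℝ × E d | t₀ < z.1} := isOpen_lt continuous_const continuous_fst
  have h2 : IsOpen {z : ℝ × E d | z.1 < T} := isOpen_lt continuous_fst continuous_const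
  have h4 : Continuous fun z : ℝ × E d => δ * (T - z.1) ^ κ :=
    continuous_const.mul ((continuous_const.sub continuous_fst).rpow_const fun _ => Or.inr hκ)
  have h3 : IsOpen {z : ℝ × E d | ‖z.2 - x₀‖ < δ * (T - z.1) ^ κ} := isOpen_lt (by fun_prop) h4
  exact h1.inter (h2.inter h3)

theorem core_center {t₀ T : ℝ} {x₀ : E d} {δ κ : ℝ} (hδ : 0 < δ) (t : ℝ) (ht : t ∈ Ioo t₀ T) :
    (t, x₀) ∈ core t₀ T x₀ δ κ := by
  refine ⟨ht.1, ht.2, ?_⟩
  rw [sub_self, norm_zero]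
  exact mul_pos hδ (Real.rpow_pos_of_pos (sub_pos.2 ht.2) _)

theorem core_star {t₀ T : ℝ} {x₀ : E d} {δ κ : ℝ} (z : ℝ × E d) (hz : z ∈ core t₀ T x₀ δ κ) :
    z.1 ∈ Ioo t₀ T ∧ ∀ s ∈ Icc (0 : ℝ) 1, (z.1, x₀ + s • (z.2 - x₀)) ∈ core t₀ T x₀ δ κ := by
  refine ⟨⟨hz.1, hz.2.1⟩, fun s hs => ⟨hz.1, hz.2.1, ?_⟩⟩
  show ‖x₀ + s • (z.2 - x₀) - x₀‖ < δ * (T - z.1) ^ κ
  rw [add_sub_cancel_left, norm_smul, Real.norm_eq_abs, abs_of_nonneg hs.1]
  have h1 := hz.2.2
  have h2 := norm_nonneg (z.2 - x₀)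
  nlinarith [hs.2]

theorem core_mono {t₀ t₁ T : ℝ} {x₀ : E d} {δ δ' κ : ℝ} (h : t₁ ≤ t₀) (hδ : δ ≤ δ') :
    core t₀ T x₀ δ κ ⊆ core t₁ T x₀ δ' κ := by
  rintro z ⟨h1, h2, h3⟩
  refine ⟨h.trans_lt h1, h2, h3.trans_le (mul_le_mul_of_nonneg_right hδ (Real.rpow_nonneg (by linarith) _))⟩

/-- isotropic cores are bounded -/
theorem Iso.bounded (hd : 2 ≤ d) {B : ℝ → ℝ → ℝ} {T : ℝ} {f : ℝ → E d → E d → ℝ} {t₀ : ℝ} {x₀ : E d} {δ κ : ℝ}
    {U : ℝ × E d → E d} (H : Iso B T f (core t₀ T x₀ δ κ) U) (hR : Rigid (core t₀ T x₀ δ κ) U) (ht₀ : t₀ < T)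
    (hδ : 0 < δ) (hκ0 : 0 ≤ κ) (hκ : κ < 1 / 2 + 1 / d) (δ' : ℝ) (hδ' : δ' < δ) :
    ∃ t₁, t₀ ≤ t₁ ∧ t₁ < T ∧ ∃ C : ℝ, ∀ z ∈ core t₁ T x₀ δ' κ, rho (f z.1 z.2) ≤ C ∧ energy (f z.1 z.2) ≤ C := by
  have hd0 : 0 < d := by omega
  have hκ1 : κ < 1 := by
    refine hκ.trans_le ?_
    have h1 : (1 : ℝ) / d ≤ 1 / 2 := by
      apply one_div_le_one_div_of_le (by norm_num)
      exact_mod_cast hd
    linarith
  obtain ⟨Y0, Y1, Y2, W0, W1, Λ, hΛ, hz⟩ := H.affine_core hd0 hR t₀ x₀ ht₀ (core_center hδ) core_star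
  have X : Explicit T (core t₀ T x₀ δ κ) U x₀ Y0 Y1 Y2 W0 W1 Λ := by
    refine ⟨hΛ, fun z h => (hz z h).1, fun z h => (hz z h).2.1, fun z h => (hz z h).2.2.1, fun z h => (hz z h).2.2.2.1,
      fun z h => (hz z h).2.2.2.2⟩
  have hY0 : 0 ≤ Y0 := by
    have h1 : Tendsto (fun t : ℝ => Yp Y0 Y1 Y2 T t) (𝓝[<] T) (𝓝 Y0) := by
      have : Continuous fun t : ℝ => Y0 + Y1 * (T - t) + Y2 * (T - t) ^ 2 := by fun_prop
      have := this.tendsto T
      simp only [sub_self, mul_zero, add_zero, ne_eq, OfNat.ofNat_ne_zero, not_false_eq_true, zero_pow] at this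
      exact this.mono_left nhdsWithin_le_nhds
    refine ge_of_tendsto h1 ?_
    filter_upwards [Ioo_mem_nhdsLT ht₀] with t ht
    exact (X.pos _ (core_center hδ t ht)).le
  rcases hY0.lt_or_eq with h | h
  · obtain ⟨t₂, h1, h2, C, hC⟩ := H.upper hd0 ht₀ hδ hκ0 hκ1 h (fun z hz' => ⟨X.pos z hz', X.elam z hz', X.eU z hz'⟩)
      (le_max_right δ' 0) (max_lt hδ' hδ)
    exact ⟨t₂, h1, h2, C, fun z hz' => hC z (core_mono le_rfl (le_max_left _ _) hz')⟩
  · exact (no_singularity H X hd0 ht₀ hδ hκ0 hκ1 hκ h.symm).elim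

/-- periodicity -/
theorem ClassicalSolution.periodic' {B : ℝ → ℝ → ℝ} {T : ℝ} {f : ℝ → E d → E d → ℝ} (hf : ClassicalSolution B T f)
    {t : ℝ} (h0 : 0 < t) (hT : t < T) (n : Fin d → ℤ) (x v : E d) :
    f t (x + WithLp.toLp 2 (fun i => (n i : ℝ))) v = f t x v := by
  have h1 : ∀ (i : Fin d) (m : ℤ) (x : E d), f t (x + EuclideanSpace.single i (m : ℝ)) v = f t x v := by
    intro i m
    have hper : Function.Periodic (fun s : ℝ => f t (x + EuclideanSpace.single i s) v) 1 := by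
      intro s
      have := hf.periodic t (x + EuclideanSpace.single i s) v h0 hT i
      simp only
      rw [← this]
      congr 1
      rw [add_assoc]
      congr 1
      ext j
      simp only [PiLp.add_apply, PiLp.single_apply]
      split_ifs <;> simp
    clear hper
    intro x
    have hper : Function.Periodic (fun s : ℝ => f t (x + EuclideanSpace.single i s) v) 1 := by
      intro s
      have := hf.periodic t (x + EuclideanSpace.single i s) v h0 hT i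
      simp only
      rw [← this]
      congr 1
      rw [add_assoc]
      congr 1
      ext j
      simp only [PiLp.add_apply, PiLp.single_apply]
      split_ifs <;> simp
    have h2 := hper.int_mul m 0
    simp only [mul_one, zero_add] at h2
    rw [h2]
    congr 1
    ext j
    simp
  have h2 : ∀ (S : Finset (Fin d)) (x : E d),
      f t (x + ∑ i ∈ S, EuclideanSpace.single i (n i : ℝ)) v = f t x v := by
    classical
    intro S
    induction S using Finset.induction_on with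
    | empty => intro x; simp
    | insert a S ha ih =>
      intro x
      rw [Finset.sum_insert ha, ← add_assoc, ih, h1]
  have h3 : WithLp.toLp 2 (fun i => (n i : ℝ)) = ∑ i : Fin d, EuclideanSpace.single i (n i : ℝ) := by
    classical
    ext j
    rw [WithLp.ofLp_sum]
    simp [Finset.sum_apply, Pi.single_apply]
  rw [h3]
  exact h2 _ x

/-- The densities `ρ` and `E` are unbounded as `t → T`, and they stay bounded outside of every neighbourhood of the point `x₀`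
of the torus. -/
def Implosion (T : ℝ) (f : ℝ → E d → E d → ℝ) (x₀ : E d) : Prop :=
  (∀ C t₁ : ℝ, t₁ < T → ∃ t x, t₁ < t ∧ t < T ∧ C < rho (f t x)) ∧
  (∀ C t₁ : ℝ, t₁ < T → ∃ t x, t₁ < t ∧ t < T ∧ C < energy (f t x)) ∧
  ∀ r : ℝ, 0 < r → ∃ C : ℝ, ∀ t x, 0 < t → t < T → (∀ n : Fin d → ℤ, r ≤ ‖x - x₀ - WithLp.toLp 2 (fun i => (n i : ℝ))‖) →
    rho (f t x) ≤ C ∧ energy (f t x) ≤ C

theorem no_implosion {B : ℝ → ℝ → ℝ} {T : ℝ} {f : ℝ → E d → E d → ℝ} (hf : ClassicalSolution B T f) {x₀ : E d}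
    {t₁ r C : ℝ} (ht₁0 : 0 ≤ t₁) (ht₁ : t₁ < T) (hr : 0 < r)
    (h : ∀ t x, t₁ < t → t < T → ‖x - x₀‖ < r → rho (f t x) ≤ C) : ¬ Implosion T f x₀ := by
  rintro ⟨h1, -, h3⟩
  obtain ⟨C', hC'⟩ := h3 r hr
  obtain ⟨t, x, ht, htT, hx⟩ := h1 (max C C') t₁ ht₁
  have ht0 : 0 < t := ht₁0.trans_lt ht
  by_cases hn : ∀ n : Fin d → ℤ, r ≤ ‖x - x₀ - WithLp.toLp 2 (fun i => (n i : ℝ))‖
  · have := (hC' t x ht0 htT hn).1
    have := le_max_right C C'
    linarith
  · push Not at hn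
    obtain ⟨n, hn⟩ := hn
    have h4 := h t (x - WithLp.toLp 2 (fun i => (n i : ℝ))) ht htT (by
      have : x - WithLp.toLp 2 (fun i => (n i : ℝ)) - x₀ = x - x₀ - WithLp.toLp 2 (fun i => (n i : ℝ)) := by abel
      rw [this]
      exact hn)
    have h5 : rho (f t (x - WithLp.toLp 2 (fun i => (n i : ℝ)))) = rho (f t x) := by
      unfold rho
      congr 1
      funext v
      have := hf.periodic' ht0 htT n (x - WithLp.toLp 2 (fun i => (n i : ℝ))) v
      rw [sub_add_cancel] at this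
      exact this.symm
    rw [h5] at h4
    have := le_max_left C C'
    linarith

end Pool.Agent.H67.Boltz
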