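import Pool.Agent.H67.Boltz.Defs

set_option autoImplicit false

/-!
# Integrals of rapidly decaying functions
-/

open MeasureTheory Filter Topology Set
open scoped RealInnerProductSpace

namespace Pool.Agent.H67.Boltz

variable {d : ℕ}

theorem integrable_weight (C : ℝ) : Integrable (fun v : E d => C / (1 + ‖v‖) ^ (d + 1)) := by
  have h1 : Integrable (fun v : E d => (1 + ‖v‖) ^ (-((d : ℝ) + 1))) :=
    integrable_one_add_norm (by simp)
  refine (h1.const_mul C).congr (Eventually.of_forall fun v => ?_)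
  have h2 : (0 : ℝ) < 1 + ‖v‖ := by positivity
  simp only
  rw [Real.rpow_neg h2.le, div_eq_mul_inv]
  congr 2
  exact_mod_cast Real.rpow_natCast (1 + ‖v‖) (d + 1)

theorem integrable_of_decay {G : Type*} [NormedAddCommGroup G] (g : E d → G)
    (hg : AEStronglyMeasurable g) (C : ℝ) (h : ∀ v, ‖g v‖ ≤ C / (1 + ‖v‖) ^ (d + 1)) : Integrable g :=
  (integrable_weight C).mono' hg (Eventually.of_forall h)

theorem weight_mul {C : ℝ} {k m : ℕ} {r s a : ℝ} (hr : 1 ≤ r) (_hs : 0 ≤ s) (h1 : s ≤ r ^ k) (ha : 0 ≤ a)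
    (h : a ≤ C / r ^ (m + k)) : s * a ≤ C / r ^ m := by
  have hr0 : (0 : ℝ) < r := by linarith
  have hC : 0 ≤ C := by
    by_contra hC
    have : C / r ^ (m + k) < 0 := div_neg_of_neg_of_pos (not_le.1 hC) (by positivity)
    linarith
  calc s * a ≤ r ^ k * (C / r ^ (m + k)) := mul_le_mul h1 h ha (by positivity)
    _ = C / r ^ m := by
      rw [pow_add]
      field_simp

/-- integration by parts against a radial field -/
theorem ibp (φ : E d → ℝ) (hφ : ContDiff ℝ 1 φ) (C : ℝ) (h0 : ∀ w, |φ w| ≤ C / (1 + ‖w‖) ^ (d + 1 + 3))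
    (h1 : ∀ w, ‖fderiv ℝ φ w‖ ≤ C / (1 + ‖w‖) ^ (d + 1 + 3)) (χ : E d → ℝ) (hχ : ContDiff ℝ 1 χ)
    (hχ0 : ∀ w, |χ w| ≤ (1 + ‖w‖) ^ 2) (hχ1 : ∀ w, ‖fderiv ℝ χ w‖ ≤ 2 * (1 + ‖w‖)) :
    ∫ w, χ w * fderiv ℝ φ w w = -∫ w, ((d : ℝ) * χ w + fderiv ℝ χ w w) * φ w := by
  classical
  set b := EuclideanSpace.basisFun (Fin d) ℝ with hb
  have hφc : Continuous φ := hφ.continuous
  have hφd : Differentiable ℝ φ := hφ.differentiable (by norm_num)
  have hφ' : Continuous (fderiv ℝ φ) := hφ.continuous_fderiv (by norm_num)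
  have hχc : Continuous χ := hχ.continuous
  have hχd : Differentiable ℝ χ := hχ.differentiable (by norm_num)
  have hχ' : Continuous (fderiv ℝ χ) := hχ.continuous_fderiv (by norm_num)
  have hr : ∀ w : E d, (1 : ℝ) ≤ 1 + ‖w‖ := fun w => by have := norm_nonneg w; linarith
  have hbn : ∀ i, ‖b i‖ = 1 := fun i => b.orthonormal.1 i
  have hbi : ∀ i (w : E d), |⟪b i, w⟫| ≤ 1 + ‖w‖ := fun i w => by
    have := abs_real_inner_le_norm (b i) w
    rw [hbn, one_mul] at this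
    linarith
  have hψ : ∀ i w, HasFDerivAt (fun w : E d => χ w * ⟪b i, w⟫)
      (χ w • innerSL ℝ (b i) + ⟪b i, w⟫ • fderiv ℝ χ w) w := by
    intro i w
    have e1 : HasFDerivAt (fun w : E d => ⟪b i, w⟫) (innerSL ℝ (b i)) w := (innerSL ℝ (b i)).hasFDerivAt
    exact (hχd w).hasFDerivAt.mul e1
  have hψ' : ∀ i w, fderiv ℝ (fun w : E d => χ w * ⟪b i, w⟫) w (b i) = χ w + ⟪b i, w⟫ * fderiv ℝ χ w (b i) := by
    intro i w
    rw [(hψ i w).fderiv]
    simp [hbn]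
  have hmeasψ : ∀ i, Continuous fun w : E d => χ w * ⟪b i, w⟫ := fun i => by fun_prop
  have hI1 : ∀ i, Integrable fun w : E d => fderiv ℝ (fun w : E d => χ w * ⟪b i, w⟫) w (b i) * φ w := by
    intro i
    simp_rw [hψ' i]
    refine integrable_of_decay _ (by fun_prop) (3 * C) fun w => ?_
    rw [norm_mul, Real.norm_eq_abs, Real.norm_eq_abs]
    have e1 : |χ w + ⟪b i, w⟫ * fderiv ℝ χ w (b i)| ≤ 3 * (1 + ‖w‖) ^ 2 := by
      have e2 : |fderiv ℝ χ w (b i)| ≤ 2 * (1 + ‖w‖) := by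
        have := (fderiv ℝ χ w).le_opNorm (b i)
        rw [hbn, mul_one] at this
        exact this.trans (hχ1 w)
      calc |χ w + ⟪b i, w⟫ * fderiv ℝ χ w (b i)| ≤ |χ w| + |⟪b i, w⟫| * |fderiv ℝ χ w (b i)| := by
            rw [← abs_mul]; exact abs_add_le _ _
        _ ≤ (1 + ‖w‖) ^ 2 + (1 + ‖w‖) * (2 * (1 + ‖w‖)) :=
            add_le_add (hχ0 w) (mul_le_mul (hbi i w) e2 (abs_nonneg _) (by linarith [hr w]))
        _ = 3 * (1 + ‖w‖) ^ 2 := by ring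
    have e3 : (1 / 3 * |χ w + ⟪b i, w⟫ * fderiv ℝ χ w (b i)|) * |φ w| ≤ C / (1 + ‖w‖) ^ (d + 1) := by
      refine weight_mul (k := 3) (hr w) (by positivity) ?_ (abs_nonneg _) (h0 w)
      calc 1 / 3 * |χ w + ⟪b i, w⟫ * fderiv ℝ χ w (b i)| ≤ (1 + ‖w‖) ^ 2 := by linarith
        _ ≤ (1 + ‖w‖) ^ 3 := pow_le_pow_right₀ (hr w) (by norm_num)
    calc |χ w + ⟪b i, w⟫ * fderiv ℝ χ w (b i)| * |φ w| = 3 * ((1 / 3 * |χ w + ⟪b i, w⟫ * fderiv ℝ χ w (b i)|) * |φ w|) := by ring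
      _ ≤ 3 * (C / (1 + ‖w‖) ^ (d + 1)) := by linarith
      _ = 3 * C / (1 + ‖w‖) ^ (d + 1) := by ring
  have hψb : ∀ i (w : E d), |χ w * ⟪b i, w⟫| ≤ (1 + ‖w‖) ^ 3 := fun i w => by
    rw [abs_mul]
    calc |χ w| * |⟪b i, w⟫| ≤ (1 + ‖w‖) ^ 2 * (1 + ‖w‖) := mul_le_mul (hχ0 w) (hbi i w) (abs_nonneg _) (by positivity)
      _ = (1 + ‖w‖) ^ 3 := by ring
  have hI2 : ∀ i, Integrable fun w : E d => (χ w * ⟪b i, w⟫) * fderiv ℝ φ w (b i) := by
    intro i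
    refine integrable_of_decay _ (by fun_prop) C fun w => ?_
    rw [norm_mul, Real.norm_eq_abs, Real.norm_eq_abs]
    refine weight_mul (k := 3) (hr w) (abs_nonneg _) (hψb i w) (abs_nonneg _) ?_
    have := (fderiv ℝ φ w).le_opNorm (b i)
    rw [hbn, mul_one] at this
    exact this.trans (h1 w)
  have hI3 : ∀ i, Integrable fun w : E d => (χ w * ⟪b i, w⟫) * φ w := by
    intro i
    refine integrable_of_decay _ (by fun_prop) C fun w => ?_
    rw [norm_mul, Real.norm_eq_abs, Real.norm_eq_abs]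
    exact weight_mul (k := 3) (hr w) (abs_nonneg _) (hψb i w) (abs_nonneg _) (h0 w)
  have hibp : ∀ i, ∫ w, (χ w * ⟪b i, w⟫) * fderiv ℝ φ w (b i) =
      -∫ w, fderiv ℝ (fun w : E d => χ w * ⟪b i, w⟫) w (b i) * φ w := fun i =>
    integral_mul_fderiv_eq_neg_fderiv_mul_of_integrable (hI1 i) (hI2 i) (hI3 i)
      (fun w _ => (hψ i w).differentiableAt) (fun w _ => hφd w)
  have hsum : ∀ w : E d, ∑ i, ⟪b i, w⟫ • b i = w := fun w => b.sum_repr' w
  have hlin : ∀ (l : E d →L[ℝ] ℝ) (w : E d), ∑ i, ⟪b i, w⟫ * l (b i) = l w := by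
    intro l w
    calc ∑ i, ⟪b i, w⟫ * l (b i) = l (∑ i, ⟪b i, w⟫ • b i) := by
          rw [map_sum]
          exact Finset.sum_congr rfl fun i _ => by rw [map_smul, smul_eq_mul]
      _ = l w := by rw [hsum w]
  have e1 : ∀ w, χ w * fderiv ℝ φ w w = ∑ i, (χ w * ⟪b i, w⟫) * fderiv ℝ φ w (b i) := by
    intro w
    rw [← hlin (fderiv ℝ φ w) w, Finset.mul_sum]
    exact Finset.sum_congr rfl fun i _ => by ring
  have e2 : ∀ w, ((d : ℝ) * χ w + fderiv ℝ χ w w) * φ w =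
      ∑ i, fderiv ℝ (fun w : E d => χ w * ⟪b i, w⟫) w (b i) * φ w := by
    intro w
    rw [← Finset.sum_mul]
    congr 1
    rw [← hlin (fderiv ℝ χ w) w]
    rw [Finset.sum_congr rfl fun i _ => hψ' i w, Finset.sum_add_distrib]
    simp
  simp_rw [e1, e2]
  rw [integral_finsetSum _ fun i _ => hI2 i, integral_finsetSum _ fun i _ => hI1 i, ← Finset.sum_neg_distrib]
  exact Finset.sum_congr rfl fun i _ => hibp i

theorem ibp0 (φ : E d → ℝ) (hφ : ContDiff ℝ 1 φ) (C : ℝ) (h0 : ∀ w, |φ w| ≤ C / (1 + ‖w‖) ^ (d + 1 + 3))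
    (h1 : ∀ w, ‖fderiv ℝ φ w‖ ≤ C / (1 + ‖w‖) ^ (d + 1 + 3)) :
    ∫ w, fderiv ℝ φ w w = -(d : ℝ) * ∫ w, φ w := by
  have h := ibp φ hφ C h0 h1 (fun _ => 1) contDiff_const
    (fun w => by
      have := norm_nonneg w
      rw [abs_one]
      nlinarith)
    (fun w => by
      have : fderiv ℝ (fun _ : E d => (1 : ℝ)) w = 0 := by simp
      rw [this, norm_zero]
      positivity)
  have e : ∀ w : E d, fderiv ℝ (fun _ : E d => (1 : ℝ)) w = 0 := fun w => by simp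
  simp only [e, one_mul, mul_one, zero_apply, add_zero] at h
  rw [h, integral_const_mul]
  ring

theorem ibp2 (φ : E d → ℝ) (hφ : ContDiff ℝ 1 φ) (C : ℝ) (h0 : ∀ w, |φ w| ≤ C / (1 + ‖w‖) ^ (d + 1 + 3))
    (h1 : ∀ w, ‖fderiv ℝ φ w‖ ≤ C / (1 + ‖w‖) ^ (d + 1 + 3)) :
    ∫ w, ‖w‖ ^ 2 * fderiv ℝ φ w w = -((d : ℝ) + 2) * ∫ w, ‖w‖ ^ 2 * φ w := by
  have e : ∀ w : E d, fderiv ℝ (fun w : E d => ‖w‖ ^ 2) w = (2 : ℝ) • innerSL ℝ w := fun w => by
    have := (hasStrictFDerivAt_norm_sq w).hasFDerivAt.fderiv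
    rw [this]
    ext y
    simp
  have h := ibp φ hφ C h0 h1 (fun w => ‖w‖ ^ 2) (contDiff_norm_sq ℝ)
    (fun w => by
      have := norm_nonneg w
      rw [abs_of_nonneg (by positivity)]
      nlinarith)
    (fun w => by
      rw [e, norm_smul, innerSL_apply_norm]
      simp)
  rw [h, ← integral_const_mul, ← integral_neg]
  congr 1
  funext w
  rw [e]
  simp only [smul_apply, innerSL_apply_apply, real_inner_self_eq_norm_sq, smul_eq_mul]
  ring

end Pool.Agent.H67.Boltz
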