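import Pool.Agent.H67.Boltz.Defs

set_option autoImplicit false

open MeasureTheory Filter Topology Set
open scoped RealInnerProductSpace Pointwise

namespace Pool.Agent.H67.Boltz

variable {d : ℕ}

/-- the action of a linear isometry on the sphere -/
noncomputable def sphMap (R : E d ≃ₗᵢ[ℝ] E d) (σ : Sph d) : Sph d := ⟨R σ.1, by simp⟩

theorem sphMap_measurable (R : E d ≃ₗᵢ[ℝ] E d) : Measurable (sphMap R) := by
  have : Continuous (sphMap R) := by
    unfold sphMap
    exact Continuous.subtype_mk (R.continuous.comp continuous_subtype_val) _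
  exact this.measurable

theorem sphMap_mp (R : E d ≃ₗᵢ[ℝ] E d) :
    MeasurePreserving (sphMap R) (volume : Measure (E d)).toSphere (volume : Measure (E d)).toSphere := by
  refine ⟨sphMap_measurable R, ?_⟩
  ext s hs
  rw [Measure.map_apply (sphMap_measurable R) hs, Measure.toSphere_apply' _ hs,
    Measure.toSphere_apply' _ (sphMap_measurable R hs)]
  congr 1
  have h1 : Ioo (0 : ℝ) 1 • ((fun σ : Sph d => σ.1) '' (sphMap R ⁻¹' s)) = R ⁻¹' (Ioo (0 : ℝ) 1 • ((fun σ : Sph d => σ.1) '' s)) := by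
    ext x
    constructor
    · rintro ⟨c, hc, y, ⟨σ, hσ, rfl⟩, rfl⟩
      refine ⟨c, hc, R σ.1, ⟨sphMap R σ, hσ, rfl⟩, ?_⟩
      simp
    · rintro ⟨c, hc, y, ⟨σ, hσ, rfl⟩, hy⟩
      refine ⟨c, hc, R.symm σ.1, ⟨⟨R.symm σ.1, by simp⟩, ?_, rfl⟩, ?_⟩
      · show sphMap R _ ∈ s
        have : sphMap R ⟨R.symm σ.1, by simp⟩ = σ := by
          apply Subtype.ext
          simp [sphMap]
        rw [this]
        exact hσ
      · have : R x = c • σ.1 := hy.symm
        show c • R.symm σ.1 = x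
        rw [← map_smul, ← this]
        simp
  exact (congrArg _ h1).trans (by
    have h3 : MeasurePreserving (R.toHomeomorph.toMeasurableEquiv) (volume : Measure (E d)) volume := R.measurePreserving
    exact h3.measure_preimage_equiv _)

/-- the motion of the velocity space -/
noncomputable def velMap (u₁ u₂ : E d) (R : E d ≃ₗᵢ[ℝ] E d) (v : E d) : E d := u₂ + R (v - u₁)

theorem velMap_mp (u₁ u₂ : E d) (R : E d ≃ₗᵢ[ℝ] E d) :
    MeasurePreserving (velMap u₁ u₂ R) (volume : Measure (E d)) volume := by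
  have h1 : MeasurePreserving (fun v : E d => v - u₁) volume volume := measurePreserving_sub_right _ u₁
  have h2 : MeasurePreserving (fun v : E d => u₂ + v) volume volume := measurePreserving_add_left _ u₂
  exact h2.comp (R.measurePreserving.comp h1)

/-- the motion as a measurable equivalence -/
noncomputable def pairMap (u₁ u₂ : E d) (R : E d ≃ₗᵢ[ℝ] E d) (z : E d × Sph d) : E d × Sph d :=
  (velMap u₁ u₂ R z.1, sphMap R z.2)

theorem pairMap_left (u₁ u₂ : E d) (R : E d ≃ₗᵢ[ℝ] E d) (z : E d × Sph d) :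
    pairMap u₂ u₁ R.symm (pairMap u₁ u₂ R z) = z := by
  unfold pairMap velMap sphMap
  ext <;> simp

theorem pairMap_mp (u₁ u₂ : E d) (R : E d ≃ₗᵢ[ℝ] E d) :
    MeasurePreserving (pairMap u₁ u₂ R) ((volume : Measure (E d)).prod (volume : Measure (E d)).toSphere)
      ((volume : Measure (E d)).prod (volume : Measure (E d)).toSphere) :=
  (velMap_mp u₁ u₂ R).prod (sphMap_mp R)

noncomputable def pairEquiv (u₁ u₂ : E d) (R : E d ≃ₗᵢ[ℝ] E d) : E d × Sph d ≃ᵐ E d × Sph d where
  toFun := pairMap u₁ u₂ R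
  invFun := pairMap u₂ u₁ R.symm
  left_inv := pairMap_left u₁ u₂ R
  right_inv := fun z => by
    have := pairMap_left u₂ u₁ R.symm z
    rwa [LinearIsometryEquiv.symm_symm] at this
  measurable_toFun := (pairMap_mp u₁ u₂ R).measurable
  measurable_invFun := (pairMap_mp u₂ u₁ R.symm).measurable

theorem post_velMap (u₁ u₂ : E d) (R : E d ≃ₗᵢ[ℝ] E d) (v vs σ : E d) :
    post (velMap u₁ u₂ R v) (velMap u₁ u₂ R vs) (R σ) = velMap u₁ u₂ R (post v vs σ) := by
  unfold post velMap
  have h1 : u₂ + R (v - u₁) - (u₂ + R (vs - u₁)) = R (v - vs) := by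
    rw [map_sub, map_sub, map_sub]
    abel
  rw [h1, LinearIsometryEquiv.norm_map]
  simp only [map_sub, map_add, map_smul]
  have : (2 : ℝ)⁻¹ + 2⁻¹ = 1 := by norm_num
  module

theorem gainLoss_map (B : ℝ → ℝ → ℝ) (g₁ g₂ : E d → ℝ) (u₁ u₂ : E d) (R : E d ≃ₗᵢ[ℝ] E d)
    (h : ∀ v, g₂ (velMap u₁ u₂ R v) = g₁ v) (v : E d) (z : E d × Sph d) :
    gainLoss B g₂ (velMap u₁ u₂ R v) (pairMap u₁ u₂ R z) = gainLoss B g₁ v z := by
  unfold gainLoss pairMap sphMap
  have h1 : velMap u₁ u₂ R v - velMap u₁ u₂ R z.1 = R (v - z.1) := by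
    unfold velMap
    rw [map_sub, map_sub, map_sub]
    abel
  simp only [h1]
  have h2 : -R z.2.1 = R (-z.2.1) := by rw [map_neg]
  rw [h2, post_velMap, post_velMap, h, h, h, h, LinearIsometryEquiv.norm_map, LinearIsometryEquiv.inner_map_map]

theorem nongrazing_map (ε : ℝ) (u₁ u₂ : E d) (R : E d ≃ₗᵢ[ℝ] E d) (v : E d) :
    pairMap u₁ u₂ R ⁻¹' nongrazing ε (velMap u₁ u₂ R v) = nongrazing ε v := by
  ext z
  unfold nongrazing pairMap sphMap
  have h1 : velMap u₁ u₂ R v - velMap u₁ u₂ R z.1 = R (v - z.1) := by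
    unfold velMap
    rw [map_sub, map_sub, map_sub]
    abel
  simp only [Set.mem_preimage, Set.mem_ofPred_eq, h1, LinearIsometryEquiv.norm_map, LinearIsometryEquiv.inner_map_map]

theorem measurable_nongrazing (ε : ℝ) (v : E d) : MeasurableSet (nongrazing ε v) := by
  unfold nongrazing
  have : IsClosed {z : E d × Sph d | ⟪z.2.1, v - z.1⟫ ≤ (1 - ε) * ‖v - z.1‖} :=
    isClosed_le (by fun_prop) (by fun_prop)
  exact this.measurableSet

/-- The collision term is invariant under the motions of the velocity space. -/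
theorem collision_map (B : ℝ → ℝ → ℝ) (g₁ g₂ : E d → ℝ) (u₁ u₂ : E d) (R : E d ≃ₗᵢ[ℝ] E d)
    (h : ∀ v, g₂ (velMap u₁ u₂ R v) = g₁ v) (v : E d) (q : ℝ) (hq : IsCollision B g₁ v q) :
    IsCollision B g₂ (velMap u₁ u₂ R v) q := by
  have hmp : MeasurePreserving (pairEquiv u₁ u₂ R)
      ((volume : Measure (E d)).prod (volume : Measure (E d)).toSphere)
      ((volume : Measure (E d)).prod (volume : Measure (E d)).toSphere) := pairMap_mp u₁ u₂ R
  have hcomp : gainLoss B g₂ (velMap u₁ u₂ R v) ∘ pairEquiv u₁ u₂ R = gainLoss B g₁ v := by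
    funext z
    exact gainLoss_map B g₁ g₂ u₁ u₂ R h v z
  have hset : ∀ ε, pairEquiv u₁ u₂ R ⁻¹' nongrazing ε (velMap u₁ u₂ R v) = nongrazing ε v := fun ε =>
    nongrazing_map ε u₁ u₂ R v
  refine ⟨fun ε hε => ?_, ?_⟩
  · have := hq.1 ε hε
    rw [← hset ε, ← hcomp] at this
    exact (hmp.integrableOn_comp_preimage (pairEquiv u₁ u₂ R).measurableEmbedding).1 this
  · refine hq.2.congr fun ε => ?_
    rw [← hset ε, ← hcomp]
    exact hmp.setIntegral_preimage_emb (pairEquiv u₁ u₂ R).measurableEmbedding _ _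

theorem IsCollision.unique {B : ℝ → ℝ → ℝ} {g : E d → ℝ} {v : E d} {q q' : ℝ} (h : IsCollision B g v q)
    (h' : IsCollision B g v q') : q = q' := tendsto_nhds_unique h.2 h'.2

end Pool.Agent.H67.Boltz
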