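import Pool.Agent.H67.Boltz.Inv
import Pool.Agent.H67.Boltz.Alg
import Pool.Agent.H67.Boltz.Int

set_option autoImplicit false

/-!
# Isotropic distributions: the kinetic equation at a point
-/

open MeasureTheory Filter Topology Set
open scoped RealInnerProductSpace

namespace Pool.Agent.H67.Boltz

variable {d : ℕ}

/-- the uncurried distribution -/
def Fu (f : ℝ → E d → E d → ℝ) (z : ℝ × E d × E d) : ℝ := f z.1 z.2.1 z.2.2

/-- the situation of the theorem: `f` is isotropic about `U` in `Ω` -/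
structure Iso (B : ℝ → ℝ → ℝ) (T : ℝ) (f : ℝ → E d → E d → ℝ) (Ω : Set (ℝ × E d)) (U : ℝ × E d → E d) : Prop where
  sol : ClassicalSolution B T f
  isOpen : IsOpen Ω
  time : ∀ z ∈ Ω, 0 < z.1 ∧ z.1 < T
  smooth : ContDiffOn ℝ 2 U Ω
  iso : ∀ z ∈ Ω, ∀ w w', ‖w‖ = ‖w'‖ → f z.1 z.2 (U z + w) = f z.1 z.2 (U z + w')
  vac : ∀ z ∈ Ω, ∃ v, f z.1 z.2 v ≠ 0

section sol

variable {B : ℝ → ℝ → ℝ} {T : ℝ} {f : ℝ → E d → E d → ℝ} (hf : ClassicalSolution B T f)

include hf

omit hf in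
theorem open_slab (T : ℝ) : IsOpen {z : ℝ × E d × E d | 0 < z.1 ∧ z.1 < T} := by
  have h1 : IsOpen {z : ℝ × E d × E d | 0 < z.1} := isOpen_lt continuous_const continuous_fst
  have h2 : IsOpen {z : ℝ × E d × E d | z.1 < T} := isOpen_lt continuous_fst continuous_const
  exact h1.inter h2

theorem ClassicalSolution.contDiffAt {z : ℝ × E d × E d} (h0 : 0 < z.1) (hT : z.1 < T) : ContDiffAt ℝ 1 (Fu f) z :=
  (hf.smooth.contDiffAt ((open_slab T).mem_nhds ⟨h0, hT⟩)).of_le (by norm_num)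

theorem ClassicalSolution.hasFDerivAt {z : ℝ × E d × E d} (h0 : 0 < z.1) (hT : z.1 < T) :
    HasFDerivAt (Fu f) (fderiv ℝ (Fu f) z) z :=
  ((hf.contDiffAt h0 hT).differentiableAt (by norm_num)).hasFDerivAt

theorem ClassicalSolution.continuousOn_fderiv :
    ContinuousOn (fderiv ℝ (Fu f)) {z : ℝ × E d × E d | 0 < z.1 ∧ z.1 < T} :=
  hf.smooth.continuousOn_fderiv_of_isOpen (open_slab T) (by norm_num)

theorem ClassicalSolution.transport_eq {t : ℝ} (x v : E d) (h0 : 0 < t) (hT : t < T) :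
    transport f t x v = fderiv ℝ (Fu f) (t, x, v) (1, v, 0) := by
  have h1 : HasDerivAt (fun s : ℝ => ((t + s, x + s • v, v) : ℝ × E d × E d)) (1, v, 0) 0 := by
    refine HasDerivAt.prodMk ?_ (HasDerivAt.prodMk ?_ (hasDerivAt_const _ _))
    · simpa using (hasDerivAt_id (0 : ℝ)).const_add t
    · simpa using ((hasDerivAt_id (0 : ℝ)).smul_const v).const_add x
  have h2 : HasFDerivAt (Fu f) (fderiv ℝ (Fu f) (t, x, v)) ((t + (0 : ℝ), x + (0 : ℝ) • v, v) : ℝ × E d × E d) := by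
    have := hf.hasFDerivAt (z := (t, x, v)) h0 hT
    simpa using this
  exact (h2.comp_hasDerivAt (0 : ℝ) h1).deriv

end sol

section iso

variable {B : ℝ → ℝ → ℝ} {T : ℝ} {f : ℝ → E d → E d → ℝ} {Ω : Set (ℝ × E d)} {U : ℝ × E d → E d}

/-- the derivative in space and time for fixed peculiar velocity -/
noncomputable def aU (f : ℝ → E d → E d → ℝ) (U : ℝ × E d → E d) (z : ℝ × E d) (w : E d) : ℝ × E d →L[ℝ] ℝ :=
  (fderiv ℝ (Fu f) (z.1, z.2, U z + w)).comp
    ((ContinuousLinearMap.fst ℝ ℝ (E d)).prod ((ContinuousLinearMap.snd ℝ ℝ (E d)).prod (fderiv ℝ U z)))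

/-- the derivative in the velocity -/
noncomputable def nU (f : ℝ → E d → E d → ℝ) (U : ℝ × E d → E d) (z : ℝ × E d) (w : E d) : E d →L[ℝ] ℝ :=
  (fderiv ℝ (Fu f) (z.1, z.2, U z + w)).comp
    ((ContinuousLinearMap.inr ℝ ℝ (E d × E d)).comp (ContinuousLinearMap.inr ℝ (E d) (E d)))

variable (H : Iso B T f Ω U)

include H

theorem Iso.hasFDerivAt_U {z : ℝ × E d} (hz : z ∈ Ω) : HasFDerivAt U (fderiv ℝ U z) z :=
  ((H.smooth.contDiffAt (H.isOpen.mem_nhds hz)).differentiableAt (by norm_num)).hasFDerivAt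

theorem Iso.hasFDerivAt_a {z : ℝ × E d} (hz : z ∈ Ω) (w : E d) :
    HasFDerivAt (fun z : ℝ × E d => f z.1 z.2 (U z + w)) (aU f U z w) z := by
  have h1 : HasFDerivAt (fun z : ℝ × E d => ((z.1, z.2, U z + w) : ℝ × E d × E d))
      ((ContinuousLinearMap.fst ℝ ℝ (E d)).prod ((ContinuousLinearMap.snd ℝ ℝ (E d)).prod (fderiv ℝ U z))) z :=
    hasFDerivAt_fst.prodMk (hasFDerivAt_snd.prodMk ((H.hasFDerivAt_U hz).add_const w))
  have h2 := H.sol.hasFDerivAt (z := (z.1, z.2, U z + w)) (H.time z hz).1 (H.time z hz).2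
  exact h2.comp z h1

theorem Iso.hasFDerivAt_n {z : ℝ × E d} (hz : z ∈ Ω) (w : E d) :
    HasFDerivAt (fun w : E d => f z.1 z.2 (U z + w)) (nU f U z w) w := by
  have h1 : HasFDerivAt (fun w : E d => ((z.1, z.2, U z + w) : ℝ × E d × E d))
      ((ContinuousLinearMap.inr ℝ ℝ (E d × E d)).comp (ContinuousLinearMap.inr ℝ (E d) (E d))) w := by
    have h2 : HasFDerivAt (fun w : E d => U z + w) (ContinuousLinearMap.id ℝ (E d)) w :=
      (hasFDerivAt_id w).const_add (U z)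
    have h3 := (hasFDerivAt_const z.1 w).prodMk ((hasFDerivAt_const z.2 w).prodMk h2)
    refine h3.congr_fderiv ?_
    ext y <;> simp
  have h2 := H.sol.hasFDerivAt (z := (z.1, z.2, U z + w)) (H.time z hz).1 (H.time z hz).2
  exact h2.comp w h1

theorem Iso.a_radial {z : ℝ × E d} (hz : z ∈ Ω) (w w' : E d) (hw : ‖w‖ = ‖w'‖) : aU f U z w = aU f U z w' := by
  have h1 := H.hasFDerivAt_a hz w
  have h2 := H.hasFDerivAt_a hz w'
  refine h1.unique (h2.congr_of_eventuallyEq ?_)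
  filter_upwards [H.isOpen.mem_nhds hz] with z' hz'
  exact H.iso z' hz' w w' hw

theorem Iso.n_equiv {z : ℝ × E d} (hz : z ∈ Ω) (R : E d ≃ₗᵢ[ℝ] E d) (w y : E d) :
    nU f U z (R w) (R y) = nU f U z w y := by
  have h1 := H.hasFDerivAt_n hz w
  have h2 : HasFDerivAt (fun w : E d => f z.1 z.2 (U z + R w)) ((nU f U z (R w)).comp
      (R.toContinuousLinearEquiv : E d →L[ℝ] E d)) w :=
    (H.hasFDerivAt_n hz (R w)).comp w R.toContinuousLinearEquiv.hasFDerivAt
  have h3 := h1.unique (h2.congr_of_eventuallyEq (Eventually.of_forall fun w =>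
    H.iso z hz w (R w) (R.norm_map w).symm))
  rw [h3]
  rfl

theorem Iso.q_radial {z : ℝ × E d} (hz : z ∈ Ω) (w w' : E d) (hw : ‖w‖ = ‖w'‖) :
    transport f z.1 z.2 (U z + w) = transport f z.1 z.2 (U z + w') := by
  obtain ⟨R, rfl⟩ := exists_isom hw
  obtain ⟨h0, hT⟩ := H.time z hz
  have h1 := H.sol.equation z.1 z.2 (U z + w) h0 hT
  have h2 := H.sol.equation z.1 z.2 (U z + R w) h0 hT
  have h3 := collision_map B (f z.1 z.2) (f z.1 z.2) (U z) (U z) R (fun v => by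
    have := H.iso z hz (v - U z) (R (v - U z)) (R.norm_map _).symm
    rw [add_sub_cancel] at this
    exact this.symm) _ _ h1
  have h4 : velMap (U z) (U z) R (U z + w) = U z + R w := by
    unfold velMap
    rw [add_sub_cancel_left]
  rw [h4] at h3
  exact h3.unique h2

/-- distributions which are equal up to translation have the same collision term -/
theorem Iso.q_congr {z z' : ℝ × E d} (hz : z ∈ Ω) (hz' : z' ∈ Ω)
    (h : ∀ w, f z.1 z.2 (U z + w) = f z'.1 z'.2 (U z' + w)) (w : E d) :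
    transport f z.1 z.2 (U z + w) = transport f z'.1 z'.2 (U z' + w) := by
  have h1 := H.sol.equation z.1 z.2 (U z + w) (H.time z hz).1 (H.time z hz).2
  have h2 := H.sol.equation z'.1 z'.2 (U z' + w) (H.time z' hz').1 (H.time z' hz').2
  have h3 := collision_map B (f z.1 z.2) (f z'.1 z'.2) (U z) (U z') (LinearIsometryEquiv.refl ℝ (E d)) (fun v => by
    have := h (v - U z)
    rw [add_sub_cancel] at this
    exact this.symm) _ _ h1
  have h4 : velMap (U z) (U z') (LinearIsometryEquiv.refl ℝ (E d)) (U z + w) = U z' + w := by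
    unfold velMap
    rw [add_sub_cancel_left]
    rfl
  rw [h4] at h3
  exact h3.unique h2

theorem Iso.pde {z : ℝ × E d} (hz : z ∈ Ω) (w : E d) :
    aU f U z w (1, U z + w) - nU f U z w (fderiv ℝ U z (1, U z + w)) = transport f z.1 z.2 (U z + w) := by
  rw [H.sol.transport_eq _ _ (H.time z hz).1 (H.time z hz).2]
  unfold aU nU
  rw [ContinuousLinearMap.comp_apply, ContinuousLinearMap.comp_apply, ← map_sub]
  congr 1
  simp

/-- the distribution is not constant -/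
theorem Iso.exists_n (hd : 0 < d) {z : ℝ × E d} (hz : z ∈ Ω) : ∃ w₀, nU f U z w₀ ≠ 0 := by
  by_contra h0
  push Not at h0
  -- the distribution is constant
  have hconst : ∀ w, f z.1 z.2 (U z + w) = f z.1 z.2 (U z + 0) := by
    intro w
    have hd : Differentiable ℝ (fun w : E d => f z.1 z.2 (U z + w)) := fun w => (H.hasFDerivAt_n hz w).differentiableAt
    exact is_const_of_fderiv_eq_zero hd (fun w => by rw [(H.hasFDerivAt_n hz w).fderiv, h0 w]) w 0
  obtain ⟨v₀, hv₀⟩ := H.vac z hz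
  obtain ⟨h00, hT⟩ := H.time z hz
  obtain ⟨C, hC⟩ := H.sol.decay z.1 z.1 h00 hT 1
  have hc : ∀ v, f z.1 z.2 v = f z.1 z.2 v₀ := by
    intro v
    have e1 := hconst (v - U z)
    have e2 := hconst (v₀ - U z)
    rw [add_sub_cancel] at e1 e2
    rw [e1, e2]
  set c := f z.1 z.2 v₀ with hcdef
  have hcpos : 0 < |c| := abs_pos.2 hv₀
  have hbound : ∀ s : ℝ, 0 ≤ s → |c| * (1 + s) ≤ C := by
    intro s hs
    have h3 := (hC z.1 z.2 (s • EuclideanSpace.single (⟨0, hd⟩ : Fin d) (1 : ℝ)) le_rfl le_rfl).1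
    rw [hc, norm_smul, PiLp.norm_single, norm_one, mul_one, Real.norm_eq_abs, abs_of_nonneg hs, pow_one,
      le_div_iff₀ (by linarith)] at h3
    exact h3
  have h4 := hbound (|C| / |c|) (by positivity)
  have h5 : |c| * (1 + |C| / |c|) = |c| + |C| := by field_simp
  rw [h5] at h4
  have := le_abs_self C
  linarith

/-- the relations at a point -/
theorem Iso.relations (hd : 0 < d) {z : ℝ × E d} (hz : z ∈ Ω) :
    (∀ w, w ≠ 0 → ∀ y, aU f U z w (0, y) = nU f U z w w / ‖w‖ ^ 2 * ⟪fderiv ℝ U z (1, U z), y⟫) ∧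
    ∃ lam : ℝ, (∀ h, ⟪h, fderiv ℝ U z (0, h)⟫ = lam * ‖h‖ ^ 2) ∧
      ∀ w, aU f U z w (1, U z) = transport f z.1 z.2 (U z + w) + lam * nU f U z w w := by
  have h1 := alg (aU f U z) (nU f U z) (fun w => transport f z.1 z.2 (U z + w)) (fderiv ℝ U z) (U z)
    (H.a_radial hz) (H.q_radial hz) (H.n_equiv hz) (H.pde hz)
  refine ⟨h1.1, ?_⟩
  obtain ⟨w₀, hw₀⟩ := H.exists_n hd hz
  exact shear_free (aU f U z) (nU f U z) (fun w => transport f z.1 z.2 (U z + w)) (fderiv ℝ U z) (U z)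
    (H.a_radial hz) (H.q_radial hz) (H.n_equiv hz) (H.pde hz) w₀ hw₀

end iso

end Pool.Agent.H67.Boltz
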