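import Pool.Agent.H67.Boltz.Up2

set_option autoImplicit false

/-!
# Isotropic distributions: the singular case
-/

open MeasureTheory Filter Topology Set
open scoped RealInnerProductSpace

namespace Pool.Agent.H67.Boltz

variable {d : ℕ}

variable {B : ℝ → ℝ → ℝ} {T : ℝ} {f : ℝ → E d → E d → ℝ} {U : ℝ × E d → E d}

/-- the explicit form of the velocity field in `Ω` -/
structure Explicit (T : ℝ) (Ω : Set (ℝ × E d)) (U : ℝ × E d → E d) (x₀ : E d) (Y0 Y1 Y2 : ℝ) (W0 W1 : E d)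
    (Λ : E d →L[ℝ] E d) : Prop where
  anti : ∀ k, ⟪Λ k, k⟫ = 0
  pos : ∀ z ∈ Ω, 0 < Yp Y0 Y1 Y2 T z.1
  elam : ∀ z ∈ Ω, Yp Y0 Y1 Y2 T z.1 * lam U z = mup Y1 Y2 T z.1
  eU : ∀ z ∈ Ω, Yp Y0 Y1 Y2 T z.1 • U z = W0 + (T - z.1) • W1 + mup Y1 Y2 T z.1 • (z.2 - x₀) + Λ (z.2 - x₀)
  eM : ∀ z ∈ Ω, ∀ k, Yp Y0 Y1 Y2 T z.1 • fderiv ℝ U z (0, k) = mup Y1 Y2 T z.1 • k + Λ k
  eV : ∀ z ∈ Ω, Yp Y0 Y1 Y2 T z.1 • Vv U z = -W1 + Y2 • (z.2 - x₀)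

section expl

variable {Ω : Set (ℝ × E d)} {x₀ : E d} {Y0 Y1 Y2 : ℝ} {W0 W1 : E d} {Λ : E d →L[ℝ] E d}
  (X : Explicit T Ω U x₀ Y0 Y1 Y2 W0 W1 Λ)

include X

theorem Explicit.anti' (a b : E d) : ⟪Λ a, b⟫ = -⟪Λ b, a⟫ := by
  have h1 := X.anti (a + b)
  have h2 := X.anti a
  have h3 := X.anti b
  rw [map_add, inner_add_left, inner_add_right, inner_add_right] at h1
  linarith

theorem Explicit.acc {z : ℝ × E d} (hz : z ∈ Ω) :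
    Yp Y0 Y1 Y2 T z.1 • Acc U z = -W1 + Y2 • (z.2 - x₀) - mup Y1 Y2 T z.1 • U z + Λ (U z) := by
  have h1 := X.eV z hz
  have h2 := X.eM z hz (U z)
  have h3 := X.elam z hz
  have h4 : Acc U z = Vv U z - (2 * lam U z) • U z + fderiv ℝ U z (0, U z) := by
    unfold Vv
    abel
  rw [h4, smul_add, smul_sub, h1, h2, smul_smul]
  have h5 : Yp Y0 Y1 Y2 T z.1 * (2 * lam U z) = 2 * mup Y1 Y2 T z.1 := by
    rw [← h3]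
    ring
  rw [h5]
  module

theorem Explicit.acc2 {z : ℝ × E d} (hz : z ∈ Ω) :
    Yp Y0 Y1 Y2 T z.1 ^ 2 • Acc U z = Yp Y0 Y1 Y2 T z.1 • (-W1 + Y2 • (z.2 - x₀)) -
      mup Y1 Y2 T z.1 • (W0 + (T - z.1) • W1 + mup Y1 Y2 T z.1 • (z.2 - x₀) + Λ (z.2 - x₀)) +
      Λ (W0 + (T - z.1) • W1 + mup Y1 Y2 T z.1 • (z.2 - x₀) + Λ (z.2 - x₀)) := by
  rw [pow_two, mul_smul, X.acc hz, ← X.eU z hz, smul_add, smul_sub, map_smul, smul_comm (Yp Y0 Y1 Y2 T z.1) (mup Y1 Y2 T z.1)]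

/-- the acceleration is monotone decreasing in space -/
theorem Explicit.acc_mono (hY0 : Y0 = 0) {t : ℝ} {x₁ h : E d} {s : ℝ} (hs : 0 ≤ s) (hz : (t, x₁) ∈ Ω)
    (hz' : (t, x₁ + s • h) ∈ Ω) (hA : ⟪Acc U (t, x₁), h⟫ ≤ 0) : ⟪Acc U (t, x₁ + s • h), h⟫ ≤ 0 := by
  have h1 := X.acc2 hz
  have h2 := X.acc2 hz'
  have hp := X.pos _ hz
  simp only at h1 h2 hp
  have h3 : Yp Y0 Y1 Y2 T t ^ 2 • Acc U (t, x₁ + s • h) = Yp Y0 Y1 Y2 T t ^ 2 • Acc U (t, x₁) +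
      s • ((Yp Y0 Y1 Y2 T t * Y2 - mup Y1 Y2 T t ^ 2) • h + Λ (Λ h)) := by
    rw [h1, h2]
    have e : x₁ + s • h - x₀ = (x₁ - x₀) + s • h := by abel
    rw [e]
    simp only [map_add, map_smul]
    module
  have h4 : ⟪Λ (Λ h), h⟫ = -‖Λ h‖ ^ 2 := by
    rw [X.anti' (Λ h) h, real_inner_self_eq_norm_sq]
  have h5 : Yp Y0 Y1 Y2 T t * Y2 - mup Y1 Y2 T t ^ 2 = -(Y1 ^ 2 / 4) := by
    rw [hY0]
    unfold Yp mup
    ring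
  have h6 : Yp Y0 Y1 Y2 T t ^ 2 * ⟪Acc U (t, x₁ + s • h), h⟫ = Yp Y0 Y1 Y2 T t ^ 2 * ⟪Acc U (t, x₁), h⟫ -
      s * (Y1 ^ 2 / 4 * ‖h‖ ^ 2 + ‖Λ h‖ ^ 2) := by
    have h7 := congrArg (fun v => ⟪v, h⟫) h3
    simp only [inner_add_left, inner_smul_left, conj_trivial, h4, h5, real_inner_self_eq_norm_sq] at h7
    rw [h7]
    ring
  have h8 : 0 < Yp Y0 Y1 Y2 T t ^ 2 := by positivity
  have h9 : 0 ≤ s * (Y1 ^ 2 / 4 * ‖h‖ ^ 2 + ‖Λ h‖ ^ 2) := by positivity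
  have h10 : Yp Y0 Y1 Y2 T t ^ 2 * ⟪Acc U (t, x₁), h⟫ ≤ 0 := mul_nonpos_of_nonneg_of_nonpos h8.le hA
  by_contra hcon
  have := mul_pos h8 (not_le.1 hcon)
  linarith

/-- `Y³ ⟨A, U⟩` at the centre -/
theorem Explicit.acc_U {t : ℝ} (hz : (t, x₀) ∈ Ω) : Yp Y0 Y1 Y2 T t ^ 3 * ⟪Acc U (t, x₀), U (t, x₀)⟫ =
    -(Yp Y0 Y1 Y2 T t * ⟪W1, W0 + (T - t) • W1⟫) - mup Y1 Y2 T t * ‖W0 + (T - t) • W1‖ ^ 2 := by
  have h1 := X.acc hz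
  have h2 := X.eU _ hz
  simp only [sub_self, smul_zero, map_zero, add_zero] at h1 h2
  have h3 : Yp Y0 Y1 Y2 T t * ⟪Acc U (t, x₀), U (t, x₀)⟫ = -⟪W1, U (t, x₀)⟫ - mup Y1 Y2 T t * ‖U (t, x₀)‖ ^ 2 := by
    have h7 := congrArg (fun v => ⟪v, U (t, x₀)⟫) h1
    simp only [inner_add_left, inner_sub_left, inner_neg_left, inner_smul_left, conj_trivial, X.anti,
      real_inner_self_eq_norm_sq] at h7
    linarith
  rw [← h2, inner_smul_right, norm_smul, mul_pow, Real.norm_eq_abs, sq_abs]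
  linear_combination (Yp Y0 Y1 Y2 T t ^ 2) * h3

end expl

/-- the energy function -/
noncomputable def G2 (f : ℝ → E d → E d → ℝ) (U : ℝ × E d → E d) (Y0 Y1 Y2 T : ℝ) (z : ℝ × E d) : ℝ :=
  Yp Y0 Y1 Y2 T z.1 ^ (((d : ℝ) + 2) / 2) * r2 f U z

section main

variable {Ω : Set (ℝ × E d)} {x₀ : E d} {Y0 Y1 Y2 : ℝ} {W0 W1 : E d} {Λ : E d →L[ℝ] E d}
  (H : Iso B T f Ω U) (X : Explicit T Ω U x₀ Y0 Y1 Y2 W0 W1 Λ)

include H X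

theorem G2_fderiv (hd : 0 < d) {z : ℝ × E d} (hz : z ∈ Ω) : ∃ D : ℝ × E d →L[ℝ] ℝ,
    HasFDerivAt (G2 f U Y0 Y1 Y2 T) D z ∧ D (1, U z) = 0 ∧
      ∀ h, D (0, h) = -(Yp Y0 Y1 Y2 T z.1 ^ (((d : ℝ) + 2) / 2) * (d * r0 f U z) * ⟪Acc U z, h⟫) := by
  obtain ⟨D0, D2, -, h2, -, -, h5, h6, -⟩ := H.laws hd hz
  obtain ⟨D, e1, e2, e3⟩ := transported (p := ((d : ℝ) + 2) / 2) h2 (by rw [h5]; ring) (X.pos z hz) (X.elam z hz)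
  refine ⟨D, e1, e2, fun h => ?_⟩
  rw [e3, h6]
  ring

theorem G2_pos (hd : 0 < d) {z : ℝ × E d} (hz : z ∈ Ω) : 0 < G2 f U Y0 Y1 Y2 T z :=
  mul_pos (Real.rpow_pos_of_pos (X.pos z hz) _) (H.r2_pos hd hz)

theorem G2_halfball (hd : 0 < d) (hY0 : Y0 = 0) {t : ℝ} {x₁ h : E d} (hz : ∀ s ∈ Icc (0 : ℝ) 1, (t, x₁ + s • h) ∈ Ω)
    (hA : ⟪Acc U (t, x₁), h⟫ ≤ 0) : G2 f U Y0 Y1 Y2 T (t, x₁) ≤ G2 f U Y0 Y1 Y2 T (t, x₁ + h) := by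
  have hz0 : (t, x₁) ∈ Ω := by simpa using hz 0 (left_mem_Icc.2 zero_le_one)
  have hder : ∀ s ∈ Icc (0 : ℝ) 1, ∃ c, 0 ≤ c ∧ HasDerivAt (fun s : ℝ => G2 f U Y0 Y1 Y2 T (t, x₁ + s • h)) c s := by
    intro s hs
    obtain ⟨D, h1, -, h3⟩ := G2_fderiv H X hd (hz s hs)
    have hl : HasDerivAt (fun s : ℝ => ((t, x₁ + s • h) : ℝ × E d)) (0, h) s := by
      refine (hasDerivAt_const s t).prodMk ?_
      simpa using ((hasDerivAt_id s).smul_const h).const_add x₁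
    have h2' : HasDerivAt (fun s : ℝ => G2 f U Y0 Y1 Y2 T (t, x₁ + s • h)) (D (0, h)) s :=
      HasFDerivAt.comp_hasDerivAt (f := fun s : ℝ => ((t, x₁ + s • h) : ℝ × E d)) s h1 hl
    refine ⟨_, ?_, h2'⟩
    rw [h3]
    have h4 := X.acc_mono hY0 hs.1 hz0 (hz s hs) hA
    have h5 := (H.r0_pos (hz s hs)).le
    have h6 := Real.rpow_nonneg (X.pos _ (hz s hs)).le (((d : ℝ) + 2) / 2)
    have : 0 ≤ (Yp Y0 Y1 Y2 T t ^ (((d : ℝ) + 2) / 2) * (d * r0 f U (t, x₁ + s • h))) * -⟪Acc U (t, x₁ + s • h), h⟫ :=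
      mul_nonneg (by positivity) (by linarith)
    simp only
    linarith
  have hmono : MonotoneOn (fun s : ℝ => G2 f U Y0 Y1 Y2 T (t, x₁ + s • h)) (Icc 0 1) := by
    refine monotoneOn_of_deriv_nonneg (convex_Icc 0 1) (fun s hs => ?_) (fun s hs => ?_) (fun s hs => ?_)
    · obtain ⟨c, -, h2⟩ := hder s hs
      exact h2.continuousAt.continuousWithinAt
    · obtain ⟨c, -, h2⟩ := hder s (interior_subset hs)
      exact h2.differentiableAt.differentiableWithinAt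
    · obtain ⟨c, h1, h2⟩ := hder s (interior_subset hs)
      rw [h2.deriv]
      exact h1
  have := hmono (left_mem_Icc.2 zero_le_one) (right_mem_Icc.2 zero_le_one) zero_le_one
  simpa using this

end main

end Pool.Agent.H67.Boltz
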