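import Pool.Agent.H67.Boltz.Low

set_option autoImplicit false

/-!
# Isotropic distributions: the singular case, the base points
-/

open MeasureTheory Filter Topology Set
open scoped RealInnerProductSpace

namespace Pool.Agent.H67.Boltz

variable {d : ℕ}

variable {B : ℝ → ℝ → ℝ} {T : ℝ} {f : ℝ → E d → E d → ℝ} {U : ℝ × E d → E d}

theorem solve_anti (Λ : E d →L[ℝ] E d) (hΛ : ∀ k, ⟪Λ k, k⟫ = 0) (c : ℝ) (hc : 0 < c) (W : E d) :
    ∃ v, c • v + Λ v = W := by
  set P : E d →ₗ[ℝ] E d := c • LinearMap.id + (Λ : E d →ₗ[ℝ] E d) with hP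
  have hPk : ∀ k, P k = c • k + Λ k := fun k => by simp [hP]
  have hinj : Function.Injective P := by
    rw [← LinearMap.ker_eq_bot, LinearMap.ker_eq_bot']
    intro k hk
    have h1 : ⟪P k, k⟫ = 0 := by rw [hk, inner_zero_left]
    rw [hPk, inner_add_left, inner_smul_left, hΛ, add_zero, real_inner_self_eq_norm_sq] at h1
    simp only [conj_trivial] at h1
    have h2 : ‖k‖ ^ 2 = 0 := by
      rcases mul_eq_zero.1 h1 with h | h
      · exact absurd h hc.ne'
      · exact h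
    exact norm_eq_zero.1 (pow_eq_zero_iff (two_ne_zero)|>.1 h2)
  have hsurj : Function.Surjective P := LinearMap.injective_iff_surjective.1 hinj
  obtain ⟨v, hv⟩ := hsurj W
  exact ⟨v, by rw [← hPk]; exact hv⟩

section main

variable {x₀ : E d} {Y0 Y1 Y2 : ℝ} {W0 W1 : E d} {Λ : E d →L[ℝ] E d} {t₀ δ κ : ℝ}
  (H : Iso B T f (core t₀ T x₀ δ κ) U) (X : Explicit T (core t₀ T x₀ δ κ) U x₀ Y0 Y1 Y2 W0 W1 Λ)

include H X

theorem base_points (hd : 0 < d) (ht₀ : t₀ < T) (hδ : 0 < δ) (hκ1 : κ < 1) (hY0 : Y0 = 0) :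
    ∃ (t₃ c : ℝ) (x₁ : ℝ → E d), t₀ ≤ t₃ ∧ t₃ < T ∧ 0 < c ∧ ∀ t, t₃ < t → t < T →
      ‖x₁ t - x₀‖ ≤ δ / 2 * (T - t) ^ κ ∧ c ≤ G2 f U Y0 Y1 Y2 T (t, x₁ t) := by
  set Ω := core t₀ T x₀ δ κ with hΩ
  have hcen : ∀ t, t₀ < t → t < T → (t, x₀) ∈ Ω := fun t h1 h2 => by
    refine ⟨h1, h2, ?_⟩
    rw [sub_self, norm_zero]
    exact mul_pos hδ (Real.rpow_pos_of_pos (by simp only; linarith) _)
  -- `Y = τ (Y1 + Y2 τ)`
  have hYf : ∀ t, Yp Y0 Y1 Y2 T t = (T - t) * (Y1 + Y2 * (T - t)) := fun t => by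
    rw [hY0]
    unfold Yp
    ring
  have hpos : ∀ t, t₀ < t → t < T → 0 < Y1 + Y2 * (T - t) := fun t h1 h2 => by
    have h3 := X.pos _ (hcen t h1 h2)
    simp only [hYf] at h3
    exact (pos_iff_pos_of_mul_pos h3).1 (by linarith)
  have hY1 : 0 ≤ Y1 := by
    have h1 : Tendsto (fun t : ℝ => Y1 + Y2 * (T - t)) (𝓝[<] T) (𝓝 Y1) := by
      have : Continuous fun t : ℝ => Y1 + Y2 * (T - t) := by fun_prop
      have := this.tendsto T
      simp only [sub_self, mul_zero, add_zero] at this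
      exact this.mono_left nhdsWithin_le_nhds
    refine ge_of_tendsto h1 ?_
    filter_upwards [Ioo_mem_nhdsLT ht₀] with t ht
    exact (hpos t ht.1 ht.2).le
  by_cases hcase : W0 = 0 ∧ 0 < Y1
  · -- the moving point
    obtain ⟨hW0, hY1pos⟩ := hcase
    obtain ⟨v, hv⟩ := solve_anti Λ X.anti (Y1 / 2) (by linarith) W1
    -- choice of `t₃`
    obtain ⟨τ, hτ1, hτ2⟩ : ∃ τ : ℝ, τ ∈ Ioo 0 ((T - t₀) / 2) ∧ ‖v‖ * τ ^ (1 - κ) < δ / 2 := by
      have h1 : ∀ᶠ τ in 𝓝[>] (0 : ℝ), τ ∈ Ioo 0 ((T - t₀) / 2) := Ioo_mem_nhdsGT (by linarith)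
      have h3 : Tendsto (fun τ : ℝ => ‖v‖ * τ ^ (1 - κ)) (𝓝[>] 0) (𝓝 0) := by
        have h4 : ContinuousAt (fun τ : ℝ => ‖v‖ * τ ^ (1 - κ)) 0 :=
          (Real.continuousAt_rpow_const 0 (1 - κ) (Or.inr (by linarith))).const_mul ‖v‖
        have := h4.tendsto
        rw [Real.zero_rpow (by linarith), mul_zero] at this
        exact this.mono_left nhdsWithin_le_nhds
      exact (h1.and (h3.eventually (gt_mem_nhds (by linarith : (0 : ℝ) < δ / 2)))).exists
    have hdist : ∀ t, T - τ ≤ t → t < T → ‖(T - t) • v‖ ≤ δ / 2 * (T - t) ^ κ := by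
      intro t h1 h2
      have hτt : 0 < T - t := by linarith
      have e : (T - t) ^ (1 - κ) * (T - t) ^ κ = T - t := by
        rw [← Real.rpow_add hτt]
        simp
      have h9 : ‖v‖ * (T - t) ^ (1 - κ) ≤ ‖v‖ * τ ^ (1 - κ) :=
        mul_le_mul_of_nonneg_left (Real.rpow_le_rpow hτt.le (by linarith) (by linarith)) (norm_nonneg _)
      rw [norm_smul, Real.norm_eq_abs, abs_of_pos hτt]
      calc (T - t) * ‖v‖ = (‖v‖ * (T - t) ^ (1 - κ)) * (T - t) ^ κ := by rw [mul_assoc, e]; ring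
        _ ≤ δ / 2 * (T - t) ^ κ := mul_le_mul_of_nonneg_right (by linarith) (Real.rpow_nonneg hτt.le _)
    have hin : ∀ t, T - τ ≤ t → t < T → (t, x₀ - (T - t) • v) ∈ Ω := by
      intro t h1 h2
      refine ⟨by show t₀ < t; linarith [hτ1.2], h2, ?_⟩
      have h3 := hdist t h1 h2
      have h4 : 0 < (T - t) ^ κ := Real.rpow_pos_of_pos (by linarith) _
      have h5 : x₀ - (T - t) • v - x₀ = -((T - t) • v) := by abel
      show ‖x₀ - (T - t) • v - x₀‖ < δ * (T - t) ^ κ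
      rw [h5, norm_neg]
      nlinarith
    have hUv : ∀ t, T - τ ≤ t → t < T → U (t, x₀ - (T - t) • v) = v := by
      intro t h1 h2
      have h3 := X.eU _ (hin t h1 h2)
      have h4 := X.pos _ (hin t h1 h2)
      simp only at h3 h4
      have h5 : x₀ - (T - t) • v - x₀ = -((T - t) • v) := by abel
      have h6 : Yp Y0 Y1 Y2 T t • U (t, x₀ - (T - t) • v) = Yp Y0 Y1 Y2 T t • v := by
        rw [h3, h5, hW0, ← hv, hYf, map_neg, map_smul]
        unfold mup
        module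
      exact smul_right_injective _ h4.ne' h6
    have hGd : ∀ t ∈ Ioo (T - τ) T, HasDerivAt (fun t : ℝ => G2 f U Y0 Y1 Y2 T (t, x₀ - (T - t) • v)) 0 t := by
      intro t ht
      have hz := hin t ht.1.le ht.2
      obtain ⟨D, h1, h2, -⟩ := G2_fderiv H X hd hz
      rw [hUv t ht.1.le ht.2] at h2
      have hl : HasDerivAt (fun t : ℝ => ((t, x₀ - (T - t) • v) : ℝ × E d)) (1, v) t := by
        refine (hasDerivAt_id t).prodMk ?_
        have h3 := (((hasDerivAt_id t).const_sub T).smul_const v).const_sub x₀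
        refine h3.congr_deriv ?_
        simp
      have h4 := HasFDerivAt.comp_hasDerivAt (f := fun t : ℝ => ((t, x₀ - (T - t) • v) : ℝ × E d)) t h1 hl
      rw [h2] at h4
      exact h4
    have hm : T - τ / 2 ∈ Ioo (T - τ) T := ⟨by linarith [hτ1.1], by linarith [hτ1.1]⟩
    refine ⟨T - τ, G2 f U Y0 Y1 Y2 T (T - τ / 2, x₀ - (T - (T - τ / 2)) • v), fun t => x₀ - (T - t) • v,
      by linarith [hτ1.2], by linarith [hτ1.1], G2_pos H X hd (hin _ hm.1.le hm.2), fun t h1 h2 => ⟨?_, ?_⟩⟩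
    · have h5 : x₀ - (T - t) • v - x₀ = -((T - t) • v) := by abel
      simp only
      rw [h5, norm_neg]
      exact hdist t h1.le h2
    · exact (const_Ioo (fun t : ℝ => G2 f U Y0 Y1 Y2 T (t, x₀ - (T - t) • v)) (T - τ) T hGd hm ⟨h1, h2⟩).le
  · -- the centre
    have key : ∃ τ ∈ Ioo 0 (T - t₀), ∀ t, T - τ < t → t < T → 0 ≤ ⟪Acc U (t, x₀), U (t, x₀)⟫ := by
      have hsign : ∀ t, t₀ < t → t < T → 0 ≤ -(Yp Y0 Y1 Y2 T t * ⟪W1, W0 + (T - t) • W1⟫) -
          mup Y1 Y2 T t * ‖W0 + (T - t) • W1‖ ^ 2 → 0 ≤ ⟪Acc U (t, x₀), U (t, x₀)⟫ := by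
        intro t h1 h2 h3
        rw [← X.acc_U (hcen t h1 h2)] at h3
        have h4 := X.pos _ (hcen t h1 h2)
        have h5 : 0 < Yp Y0 Y1 Y2 T t ^ 3 := by positivity
        exact nonneg_of_mul_nonneg_right h3 h5
      rcases eq_or_ne W0 0 with hW0 | hW0
      · -- `Y1 = 0`
        have hY10 : Y1 = 0 := by
          by_contra hne
          exact hcase ⟨hW0, lt_of_le_of_ne hY1 (Ne.symm hne)⟩
        refine ⟨(T - t₀) / 2, ⟨by linarith, by linarith⟩, fun t h1 h2 => hsign t (by linarith) h2 (le_of_eq ?_)⟩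
        rw [hYf, hW0, hY10]
        unfold mup
        simp only [zero_add, inner_smul_right, norm_smul, real_inner_self_eq_norm_sq, Real.norm_eq_abs, mul_pow, sq_abs]
        ring
      · have hW0n : 0 < ‖W0‖ := norm_pos_iff.2 hW0
        -- choice of τ
        obtain ⟨τ, hτ1, hτ2, hτ3⟩ : ∃ τ : ℝ, τ ∈ Ioo 0 (T - t₀) ∧ 5 * τ * ‖W1‖ < ‖W0‖ ∧ (0 < Y1 → 3 * |Y2| * τ < Y1) := by
          have h1 : ∀ᶠ τ in 𝓝[>] (0 : ℝ), τ ∈ Ioo 0 (T - t₀) := Ioo_mem_nhdsGT (by linarith)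
          have h2 : Tendsto (fun τ : ℝ => 5 * τ * ‖W1‖) (𝓝[>] 0) (𝓝 0) := by
            have : Continuous fun τ : ℝ => 5 * τ * ‖W1‖ := by fun_prop
            have := this.tendsto 0
            simp only [mul_zero, zero_mul] at this
            exact this.mono_left nhdsWithin_le_nhds
          have h3 : Tendsto (fun τ : ℝ => 3 * |Y2| * τ) (𝓝[>] 0) (𝓝 0) := by
            have : Continuous fun τ : ℝ => 3 * |Y2| * τ := by fun_prop
            have := this.tendsto 0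
            simp only [mul_zero] at this
            exact this.mono_left nhdsWithin_le_nhds
          have h4 : ∀ᶠ τ in 𝓝[>] (0 : ℝ), (0 < Y1 → 3 * |Y2| * τ < Y1) := by
            by_cases h : 0 < Y1
            · filter_upwards [h3.eventually (gt_mem_nhds h)] with τ hτ _ using hτ
            · exact Eventually.of_forall fun τ h' => absurd h' h
          obtain ⟨τ, ha, hb, hc⟩ := (h1.and ((h2.eventually (gt_mem_nhds hW0n)).and h4)).exists
          exact ⟨τ, ha, hb, hc⟩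
        refine ⟨τ, hτ1, fun t h1 h2 => hsign t (by linarith [hτ1.2]) h2 ?_⟩
        have hs0 : 0 < T - t := by linarith
        have hsτ : T - t ≤ τ := by linarith
        set s := T - t with hs
        have hp := hpos t (by linarith [hτ1.2]) h2
        rw [← hs] at hp
        have hq : 0 ≤ Y1 + 3 * (Y2 * s) := by
          rcases hY1.lt_or_eq with h | h
          · have h5 := hτ3 h
            have h6 : |Y2 * s| ≤ |Y2| * τ := by
              rw [abs_mul, abs_of_pos hs0]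
              exact mul_le_mul_of_nonneg_left hsτ (abs_nonneg _)
            linarith [neg_abs_le (Y2 * s)]
          · rw [← h] at hp ⊢
            linarith
        set w := W0 + s • W1 with hw
        have hw1 : 4 * s * ‖W1‖ ≤ ‖w‖ := by
          have h5 : ‖W0‖ ≤ ‖w‖ + s * ‖W1‖ := by
            have : W0 = w - s • W1 := by rw [hw]; abel
            calc ‖W0‖ = ‖w - s • W1‖ := by rw [← this]
              _ ≤ ‖w‖ + ‖s • W1‖ := norm_sub_le _ _
              _ = ‖w‖ + s * ‖W1‖ := by rw [norm_smul, Real.norm_eq_abs, abs_of_pos hs0]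
          have h6 : 5 * s * ‖W1‖ ≤ 5 * τ * ‖W1‖ := by gcongr
          linarith
        have hin : ⟪W1, w⟫ ≤ ‖W1‖ * ‖w‖ := real_inner_le_norm _ _
        have hYs : Yp Y0 Y1 Y2 T t = s * (Y1 + Y2 * s) := by rw [hYf]
        have hmus : -mup Y1 Y2 T t = Y1 / 2 + Y2 * s := by
          unfold mup
          ring
        have h7 : 4 * s * ⟪W1, w⟫ ≤ ‖w‖ ^ 2 := by
          have h8 : 4 * s * ⟪W1, w⟫ ≤ 4 * s * (‖W1‖ * ‖w‖) := by
            apply mul_le_mul_of_nonneg_left hin (by positivity)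
          have h9 : 4 * s * ‖W1‖ * ‖w‖ ≤ ‖w‖ * ‖w‖ := mul_le_mul_of_nonneg_right hw1 (norm_nonneg _)
          nlinarith
        have h10 : (Y1 + Y2 * s) * (4 * s * ⟪W1, w⟫) ≤ (Y1 + Y2 * s) * ‖w‖ ^ 2 := mul_le_mul_of_nonneg_left h7 hp.le
        have h11 : 0 ≤ (Y1 + 3 * (Y2 * s)) * ‖w‖ ^ 2 := by positivity
        rw [hYs]
        have h12 : -(s * (Y1 + Y2 * s) * ⟪W1, w⟫) - mup Y1 Y2 T t * ‖w‖ ^ 2 =
            -(s * (Y1 + Y2 * s) * ⟪W1, w⟫) + (Y1 / 2 + Y2 * s) * ‖w‖ ^ 2 := by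
          rw [← hmus]
          ring
        rw [h12]
        nlinarith
    obtain ⟨τ, hτ1, hτ2⟩ := key
    have hGd : ∀ t ∈ Ioo (T - τ) T, ∃ c, 0 ≤ c ∧ HasDerivAt (fun t : ℝ => G2 f U Y0 Y1 Y2 T (t, x₀)) c t := by
      intro t ht
      have hz := hcen t (by linarith [ht.1, hτ1.2]) ht.2
      obtain ⟨D, h1, h2, h3⟩ := G2_fderiv H X hd hz
      have hl : HasDerivAt (fun t : ℝ => ((t, x₀) : ℝ × E d)) (1, 0) t :=
        (hasDerivAt_id t).prodMk (hasDerivAt_const _ _)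
      have h4 : HasDerivAt (fun t : ℝ => G2 f U Y0 Y1 Y2 T (t, x₀)) (D (1, 0)) t :=
        HasFDerivAt.comp_hasDerivAt (f := fun t : ℝ => ((t, x₀) : ℝ × E d)) t h1 hl
      refine ⟨_, ?_, h4⟩
      have h5 : ((1 : ℝ), (0 : E d)) = (1, U (t, x₀)) - (0, U (t, x₀)) := by simp
      rw [h5, map_sub, h2, h3, zero_sub, neg_neg]
      have h6 := (H.r0_pos hz).le
      have h7 := Real.rpow_nonneg (X.pos _ hz).le (((d : ℝ) + 2) / 2)
      exact mul_nonneg (by positivity) (hτ2 t ht.1 ht.2)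
    have hmono : MonotoneOn (fun t : ℝ => G2 f U Y0 Y1 Y2 T (t, x₀)) (Ioo (T - τ) T) := by
      refine monotoneOn_of_deriv_nonneg (convex_Ioo _ _) (fun s hs => ?_) (fun s hs => ?_) (fun s hs => ?_)
      · obtain ⟨c, -, h2⟩ := hGd s hs
        exact h2.continuousAt.continuousWithinAt
      · obtain ⟨c, -, h2⟩ := hGd s (interior_subset hs)
        exact h2.differentiableAt.differentiableWithinAt
      · obtain ⟨c, h1, h2⟩ := hGd s (interior_subset hs)
        rw [h2.deriv]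
        exact h1
    have hm : T - τ / 2 ∈ Ioo (T - τ) T := ⟨by linarith [hτ1.1], by linarith [hτ1.1]⟩
    refine ⟨T - τ / 2, G2 f U Y0 Y1 Y2 T (T - τ / 2, x₀), fun _ => x₀, by linarith [hτ1.1, hτ1.2],
      by linarith [hτ1.1], G2_pos H X hd (hcen _ (by linarith [hτ1.1, hτ1.2]) hm.2), fun t h1 h2 => ⟨?_, ?_⟩⟩
    · rw [sub_self, norm_zero]
      have : 0 < (T - t) ^ κ := Real.rpow_pos_of_pos (by linarith) _
      positivity
    · exact hmono hm ⟨by linarith [hm.1], h2⟩ h1.le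

end main

end Pool.Agent.H67.Boltz
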