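import Pool.Agent.H67.Boltz.Kin

set_option autoImplicit false

/-!
# Isotropic distributions: moments
-/

open MeasureTheory Filter Topology Set
open scoped RealInnerProductSpace

namespace Pool.Agent.H67.Boltz

variable {d : ℕ}

section iso

variable {B : ℝ → ℝ → ℝ} {T : ℝ} {f : ℝ → E d → E d → ℝ} {Ω : Set (ℝ × E d)} {U : ℝ × E d → E d}

theorem prod_norm_le (L : ℝ × E d →L[ℝ] E d) (M : ℝ) (hM : 0 ≤ M) (hL : ‖L‖ ≤ M) :
    ‖(ContinuousLinearMap.fst ℝ ℝ (E d)).prod ((ContinuousLinearMap.snd ℝ ℝ (E d)).prod L)‖ ≤ 1 + M := by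
  refine ContinuousLinearMap.opNorm_le_bound _ (by linarith) fun y => ?_
  have h1 : ‖L y‖ ≤ M * ‖y‖ := (L.le_opNorm y).trans (mul_le_mul_of_nonneg_right hL (norm_nonneg _))
  have h2 : ‖y.1‖ ≤ ‖y‖ := norm_fst_le y
  have h3 : ‖y.2‖ ≤ ‖y‖ := norm_snd_le y
  have h4 : 0 ≤ M * ‖y‖ := by positivity
  have h5 : 0 ≤ ‖y‖ := norm_nonneg _
  simp only [ContinuousLinearMap.prod_apply, ContinuousLinearMap.coe_fst', ContinuousLinearMap.coe_snd', Prod.norm_mk]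
  refine max_le (by nlinarith) (max_le (by nlinarith) (by nlinarith))

variable (H : Iso B T f Ω U)

include H

theorem Iso.continuous_DF {z : ℝ × E d} (hz : z ∈ Ω) :
    Continuous fun w : E d => fderiv ℝ (Fu f) (z.1, z.2, U z + w) := by
  rw [← continuousOn_univ]
  refine H.sol.continuousOn_fderiv.comp (by fun_prop) fun w _ => ?_
  exact H.time z hz

theorem Iso.continuous_a {z : ℝ × E d} (hz : z ∈ Ω) : Continuous fun w : E d => aU f U z w := by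
  unfold aU
  exact (H.continuous_DF hz).clm_comp continuous_const

theorem Iso.continuous_n {z : ℝ × E d} (hz : z ∈ Ω) : Continuous fun w : E d => nU f U z w := by
  unfold nU
  exact (H.continuous_DF hz).clm_comp continuous_const

theorem Iso.continuous_f {z : ℝ × E d} (hz : z ∈ Ω) : Continuous fun w : E d => f z.1 z.2 (U z + w) := by
  have hd : Differentiable ℝ (fun w : E d => f z.1 z.2 (U z + w)) := fun w => (H.hasFDerivAt_n hz w).differentiableAt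
  exact hd.continuous

theorem Iso.local_decay {z₀ : ℝ × E d} (hz₀ : z₀ ∈ Ω) (N : ℕ) : ∃ s ∈ 𝓝 z₀, s ⊆ Ω ∧ ∃ C : ℝ, ∀ z ∈ s, ∀ w,
    |f z.1 z.2 (U z + w)| ≤ C / (1 + ‖w‖) ^ N ∧ ‖aU f U z w‖ ≤ C / (1 + ‖w‖) ^ N ∧
      ‖nU f U z w‖ ≤ C / (1 + ‖w‖) ^ N := by
  obtain ⟨h0, hT⟩ := H.time z₀ hz₀
  obtain ⟨C, hC⟩ := H.sol.decay (z₀.1 / 2) ((z₀.1 + T) / 2) (by linarith) (by linarith) N
  set M := max ‖U z₀‖ ‖fderiv ℝ U z₀‖ + 1 with hM
  have hM0 : 0 ≤ M := by positivity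
  have hU : ContDiffAt ℝ 2 U z₀ := H.smooth.contDiffAt (H.isOpen.mem_nhds hz₀)
  have c1 : ContinuousAt (fun z => ‖U z‖) z₀ := hU.continuousAt.norm
  have c2 : ContinuousAt (fun z => ‖fderiv ℝ U z‖) z₀ :=
    ((hU.fderiv_right (m := 1) (by norm_num)).continuousAt).norm
  refine ⟨Ω ∩ ({z | z₀.1 / 2 < z.1} ∩ {z | z.1 < (z₀.1 + T) / 2}) ∩ ({z | ‖U z‖ < M} ∩ {z | ‖fderiv ℝ U z‖ < M}), ?_,
    fun z hz => hz.1.1, C * (1 + M) ^ N * (1 + M), ?_⟩
  · refine inter_mem (inter_mem (H.isOpen.mem_nhds hz₀) (inter_mem ?_ ?_)) (inter_mem ?_ ?_)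
    · exact (isOpen_lt continuous_const continuous_fst).mem_nhds (by show z₀.1 / 2 < z₀.1; linarith)
    · exact (isOpen_lt continuous_fst continuous_const).mem_nhds (by show z₀.1 < (z₀.1 + T) / 2; linarith)
    · exact c1.eventually_lt_const (by rw [hM]; have := le_max_left ‖U z₀‖ ‖fderiv ℝ U z₀‖; linarith)
    · exact c2.eventually_lt_const (by rw [hM]; have := le_max_right ‖U z₀‖ ‖fderiv ℝ U z₀‖; linarith)
  · rintro z ⟨⟨hz, ht1, ht2⟩, hz1, hz2⟩ w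
    have hz1' : ‖U z‖ < M := hz1
    have hz2' : ‖fderiv ℝ U z‖ < M := hz2
    obtain ⟨b1, b2⟩ := hC z.1 z.2 (U z + w) (le_of_lt ht1) (le_of_lt ht2)
    have hCnn : 0 ≤ C := by
      by_contra hneg
      have : C / (1 + ‖U z + w‖) ^ N < 0 := div_neg_of_neg_of_pos (not_le.1 hneg) (by positivity)
      linarith [abs_nonneg (f z.1 z.2 (U z + w))]
    have hw : 1 + ‖w‖ ≤ (1 + M) * (1 + ‖U z + w‖) := by
      have e1 : ‖w‖ ≤ ‖U z + w‖ + ‖U z‖ := by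
        have := norm_sub_le (U z + w) (U z)
        rwa [add_sub_cancel_left] at this
      have e2 : 0 ≤ M * ‖U z + w‖ := by positivity
      nlinarith
    have key : C / (1 + ‖U z + w‖) ^ N ≤ C * (1 + M) ^ N / (1 + ‖w‖) ^ N := by
      rw [div_le_div_iff₀ (by positivity) (by positivity), mul_assoc, ← mul_pow]
      exact mul_le_mul_of_nonneg_left (pow_le_pow_left₀ (by positivity) hw N) hCnn
    have hK : 0 ≤ C * (1 + M) ^ N / (1 + ‖w‖) ^ N := by positivity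
    have key2 : C * (1 + M) ^ N / (1 + ‖w‖) ^ N * (1 + M) = C * (1 + M) ^ N * (1 + M) / (1 + ‖w‖) ^ N := by ring
    have b2' : ‖fderiv ℝ (Fu f) (z.1, z.2, U z + w)‖ ≤ C * (1 + M) ^ N / (1 + ‖w‖) ^ N := b2.trans key
    rw [← key2]
    refine ⟨(b1.trans key).trans (by nlinarith), ?_, ?_⟩
    · unfold aU
      refine (ContinuousLinearMap.opNorm_comp_le _ _).trans ?_
      exact mul_le_mul b2' (prod_norm_le _ M hM0 hz2'.le) (norm_nonneg _) hK
    · unfold nU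
      refine (ContinuousLinearMap.opNorm_comp_le _ _).trans ?_
      have h1 : ‖(ContinuousLinearMap.inr ℝ ℝ (E d × E d)).comp (ContinuousLinearMap.inr ℝ (E d) (E d))‖ ≤ 1 + M := by
        refine ContinuousLinearMap.opNorm_le_bound _ (by linarith) fun y => ?_
        simp only [ContinuousLinearMap.comp_apply, ContinuousLinearMap.inr_apply, Prod.norm_mk, norm_zero]
        have := norm_nonneg y
        refine max_le (by positivity) (max_le (by positivity) (by nlinarith))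
      exact mul_le_mul b2' h1 (norm_nonneg _) hK

/-- differentiation of moments -/
theorem Iso.moment {z₀ : ℝ × E d} (hz₀ : z₀ ∈ Ω) (ψ : E d → ℝ) (hψ : Continuous ψ) (hψb : ∀ w, |ψ w| ≤ (1 + ‖w‖) ^ 2) :
    Integrable (fun w => ψ w * f z₀.1 z₀.2 (U z₀ + w)) ∧ Integrable (fun w => ψ w • aU f U z₀ w) ∧
    HasFDerivAt (fun z : ℝ × E d => ∫ w, ψ w * f z.1 z.2 (U z + w)) (∫ w, ψ w • aU f U z₀ w) z₀ := by
  obtain ⟨s, hs, hsΩ, C, hC⟩ := H.local_decay hz₀ (d + 1 + 2)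
  have hr : ∀ w : E d, (1 : ℝ) ≤ 1 + ‖w‖ := fun w => by have := norm_nonneg w; linarith
  have i1 : Integrable (fun w => ψ w * f z₀.1 z₀.2 (U z₀ + w)) := by
    refine integrable_of_decay _ (hψ.mul (H.continuous_f hz₀)).aestronglyMeasurable C fun w => ?_
    rw [norm_mul, Real.norm_eq_abs, Real.norm_eq_abs]
    exact weight_mul (hr w) (abs_nonneg _) (hψb w) (abs_nonneg _) (hC z₀ (mem_of_mem_nhds hs) w).1
  have i2 : Integrable (fun w => ψ w • aU f U z₀ w) := by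
    refine integrable_of_decay _ (hψ.smul (H.continuous_a hz₀)).aestronglyMeasurable C fun w => ?_
    rw [norm_smul, Real.norm_eq_abs]
    exact weight_mul (hr w) (abs_nonneg _) (hψb w) (norm_nonneg _) (hC z₀ (mem_of_mem_nhds hs) w).2.1
  refine ⟨i1, i2, ?_⟩
  refine hasFDerivAt_integral_of_dominated_of_fderiv_le (F' := fun z w => ψ w • aU f U z w)
    (bound := fun w => C / (1 + ‖w‖) ^ (d + 1)) hs ?_ i1 i2.aestronglyMeasurable ?_ (integrable_weight C) ?_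
  · filter_upwards [hs] with z hz
    exact (hψ.mul (H.continuous_f (hsΩ hz))).aestronglyMeasurable
  · refine Eventually.of_forall fun w z hz => ?_
    rw [norm_smul, Real.norm_eq_abs]
    exact weight_mul (hr w) (abs_nonneg _) (hψb w) (norm_nonneg _) (hC z hz w).2.1
  · refine Eventually.of_forall fun w z hz => ?_
    exact (H.hasFDerivAt_a (hsΩ hz) w).const_mul (ψ w)

theorem Iso.n_decay {z₀ : ℝ × E d} (hz₀ : z₀ ∈ Ω) : ∃ C : ℝ, ∀ w,
    |f z₀.1 z₀.2 (U z₀ + w)| ≤ C / (1 + ‖w‖) ^ (d + 1 + 3) ∧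
    ‖fderiv ℝ (fun w : E d => f z₀.1 z₀.2 (U z₀ + w)) w‖ ≤ C / (1 + ‖w‖) ^ (d + 1 + 3) := by
  obtain ⟨s, hs, -, C, hC⟩ := H.local_decay hz₀ (d + 1 + 3)
  refine ⟨C, fun w => ⟨(hC z₀ (mem_of_mem_nhds hs) w).1, ?_⟩⟩
  rw [(H.hasFDerivAt_n hz₀ w).fderiv]
  exact (hC z₀ (mem_of_mem_nhds hs) w).2.2

theorem Iso.contDiff_w {z₀ : ℝ × E d} (hz₀ : z₀ ∈ Ω) : ContDiff ℝ 1 (fun w : E d => f z₀.1 z₀.2 (U z₀ + w)) := by
  rw [contDiff_one_iff_fderiv]
  refine ⟨fun w => (H.hasFDerivAt_n hz₀ w).differentiableAt, ?_⟩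
  have : fderiv ℝ (fun w : E d => f z₀.1 z₀.2 (U z₀ + w)) = fun w => nU f U z₀ w := by
    funext w
    exact (H.hasFDerivAt_n hz₀ w).fderiv
  rw [this]
  exact H.continuous_n hz₀

theorem Iso.int_n0 {z₀ : ℝ × E d} (hz₀ : z₀ ∈ Ω) :
    ∫ w, nU f U z₀ w w = -(d : ℝ) * ∫ w, f z₀.1 z₀.2 (U z₀ + w) := by
  obtain ⟨C, hC⟩ := H.n_decay hz₀
  rw [← ibp0 _ (H.contDiff_w hz₀) C (fun w => (hC w).1) (fun w => (hC w).2)]
  simp_rw [(H.hasFDerivAt_n hz₀ _).fderiv]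

theorem Iso.int_n2 {z₀ : ℝ × E d} (hz₀ : z₀ ∈ Ω) :
    ∫ w, ‖w‖ ^ 2 * nU f U z₀ w w = -((d : ℝ) + 2) * ∫ w, ‖w‖ ^ 2 * f z₀.1 z₀.2 (U z₀ + w) := by
  obtain ⟨C, hC⟩ := H.n_decay hz₀
  rw [← ibp2 _ (H.contDiff_w hz₀) C (fun w => (hC w).1) (fun w => (hC w).2)]
  simp_rw [(H.hasFDerivAt_n hz₀ _).fderiv]

/-- `∫ n(w) w dw` converges, also with weight `|w|²` -/
theorem Iso.integrable_n {z₀ : ℝ × E d} (hz₀ : z₀ ∈ Ω) :
    Integrable (fun w => nU f U z₀ w w) ∧ Integrable (fun w => ‖w‖ ^ 2 * nU f U z₀ w w) := by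
  obtain ⟨s, hs, -, C, hC⟩ := H.local_decay hz₀ (d + 1 + 3)
  have hr : ∀ w : E d, (1 : ℝ) ≤ 1 + ‖w‖ := fun w => by have := norm_nonneg w; linarith
  have hc : Continuous fun w => nU f U z₀ w w := (H.continuous_n hz₀).clm_apply continuous_id
  have hb : ∀ w : E d, |nU f U z₀ w w| ≤ (1 + ‖w‖) * ‖nU f U z₀ w‖ := fun w => by
    have := (nU f U z₀ w).le_opNorm w
    rw [Real.norm_eq_abs] at this
    have h2 := norm_nonneg (nU f U z₀ w)
    nlinarith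
  constructor
  · refine integrable_of_decay _ hc.aestronglyMeasurable C fun w => ?_
    rw [Real.norm_eq_abs]
    refine (hb w).trans (weight_mul (k := 3) (hr w) (by linarith [hr w]) ?_ (norm_nonneg _)
      (hC z₀ (mem_of_mem_nhds hs) w).2.2)
    exact le_self_pow₀ (hr w) (by norm_num)
  · refine integrable_of_decay _ (by fun_prop) C fun w => ?_
    rw [norm_mul, Real.norm_eq_abs, Real.norm_eq_abs, abs_of_nonneg (by positivity)]
    calc ‖w‖ ^ 2 * |nU f U z₀ w w| ≤ ‖w‖ ^ 2 * ((1 + ‖w‖) * ‖nU f U z₀ w‖) :=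
          mul_le_mul_of_nonneg_left (hb w) (by positivity)
      _ = (‖w‖ ^ 2 * (1 + ‖w‖)) * ‖nU f U z₀ w‖ := by ring
      _ ≤ C / (1 + ‖w‖) ^ (d + 1) := by
        refine weight_mul (k := 3) (hr w) (by positivity) ?_ (norm_nonneg _) (hC z₀ (mem_of_mem_nhds hs) w).2.2
        have h1 : ‖w‖ ^ 2 ≤ (1 + ‖w‖) ^ 2 := pow_le_pow_left₀ (norm_nonneg _) (by linarith) 2
        calc ‖w‖ ^ 2 * (1 + ‖w‖) ≤ (1 + ‖w‖) ^ 2 * (1 + ‖w‖) :=
              mul_le_mul_of_nonneg_right h1 (by linarith [hr w])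
          _ = (1 + ‖w‖) ^ 3 := by ring

end iso

end Pool.Agent.H67.Boltz
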