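import Pool.Agent.H67.Boltz.Mom

set_option autoImplicit false

/-!
# Isotropic distributions: the balance of mass, momentum and energy
-/

open MeasureTheory Filter Topology Set
open scoped RealInnerProductSpace

namespace Pool.Agent.H67.Boltz

variable {d : ℕ}

section sol

variable {B : ℝ → ℝ → ℝ} {T : ℝ} {f : ℝ → E d → E d → ℝ} (hf : ClassicalSolution B T f)

include hf

theorem ClassicalSolution.transport_continuous {t : ℝ} (x : E d) (h0 : 0 < t) (hT : t < T) :
    Continuous fun v => transport f t x v := by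
  have h1 : Continuous fun v : E d => fderiv ℝ (Fu f) (t, x, v) := by
    rw [← continuousOn_univ]
    exact hf.continuousOn_fderiv.comp (by fun_prop) fun w _ => ⟨h0, hT⟩
  have h2 : (fun v => transport f t x v) = fun v => fderiv ℝ (Fu f) (t, x, v) (1, v, 0) := by
    funext v
    exact hf.transport_eq x v h0 hT
  rw [h2]
  exact h1.clm_apply (by fun_prop)

theorem ClassicalSolution.transport_decay {t : ℝ} (x : E d) (h0 : 0 < t) (hT : t < T) (N : ℕ) :
    ∃ C : ℝ, ∀ v, |transport f t x v| ≤ C / (1 + ‖v‖) ^ N := by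
  obtain ⟨C, hC⟩ := hf.decay t t h0 hT (N + 1)
  refine ⟨C, fun v => ?_⟩
  rw [hf.transport_eq x v h0 hT]
  have h1 := (hC t x v le_rfl le_rfl).2
  have h2 := (fderiv ℝ (Fu f) (t, x, v)).le_opNorm (1, v, 0)
  rw [Real.norm_eq_abs] at h2
  have hv := norm_nonneg v
  have h3 : ‖((1 : ℝ), v, (0 : E d))‖ ≤ 1 + ‖v‖ := by
    simp only [Prod.norm_mk, norm_one, norm_zero]
    refine max_le (by linarith) (max_le (by linarith) (by linarith))
  calc |fderiv ℝ (Fu f) (t, x, v) (1, v, 0)| ≤ ‖fderiv ℝ (Fu f) (t, x, v)‖ * ‖((1 : ℝ), v, (0 : E d))‖ := h2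
    _ ≤ (C / (1 + ‖v‖) ^ (N + 1)) * (1 + ‖v‖) :=
      mul_le_mul h1 h3 (norm_nonneg _) ((norm_nonneg _).trans h1)
    _ = C / (1 + ‖v‖) ^ N := by
      rw [pow_succ]
      field_simp

theorem ClassicalSolution.q_moments {t : ℝ} (x u : E d) (h0 : 0 < t) (hT : t < T) :
    Integrable (fun w => transport f t x (u + w)) ∧ Integrable (fun w => ‖w‖ ^ 2 * transport f t x (u + w)) ∧
    ∫ w, transport f t x (u + w) = 0 ∧ ∫ w, ‖w‖ ^ 2 * transport f t x (u + w) = 0 := by
  obtain ⟨C, hC⟩ := hf.transport_decay x h0 hT (d + 1 + 2)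
  have hc := hf.transport_continuous x h0 hT
  have hr : ∀ w : E d, (1 : ℝ) ≤ 1 + ‖w‖ := fun w => by have := norm_nonneg w; linarith
  have i0 : Integrable fun v => transport f t x v := by
    refine integrable_of_decay _ hc.aestronglyMeasurable C fun v => ?_
    have := weight_mul (k := 2) (s := 1) (hr v) zero_le_one (one_le_pow₀ (hr v)) (abs_nonneg _) (hC v)
    rwa [one_mul] at this
  have i1 : Integrable fun v => transport f t x v • v := by
    refine integrable_of_decay _ (hc.smul continuous_id).aestronglyMeasurable C fun v => ?_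
    rw [norm_smul, Real.norm_eq_abs, mul_comm]
    refine weight_mul (k := 2) (hr v) (norm_nonneg _) ?_ (abs_nonneg _) (hC v)
    have := norm_nonneg v
    nlinarith
  have i2 : Integrable fun v => ‖v‖ ^ 2 * transport f t x v := by
    refine integrable_of_decay _ (by fun_prop) C fun v => ?_
    rw [norm_mul, Real.norm_eq_abs, Real.norm_eq_abs, abs_of_nonneg (by positivity)]
    refine weight_mul (k := 2) (hr v) (by positivity) ?_ (abs_nonneg _) (hC v)
    exact pow_le_pow_left₀ (norm_nonneg _) (by linarith) 2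
  have i3 : Integrable fun v => ⟪u, transport f t x v • v⟫ := i1.const_inner u
  have e1 : ∀ v : E d, ‖v - u‖ ^ 2 * transport f t x v =
      ‖v‖ ^ 2 * transport f t x v - 2 * ⟪u, transport f t x v • v⟫ + ‖u‖ ^ 2 * transport f t x v := by
    intro v
    rw [norm_sub_sq_real, inner_smul_right, real_inner_comm]
    ring
  have i4 : Integrable fun v => ‖v - u‖ ^ 2 * transport f t x v := by
    simp_rw [e1]
    exact (i2.sub (i3.const_mul 2)).add (i0.const_mul _)
  have hm := hf.mass t x h0 hT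
  have hmo := hf.momentum t x h0 hT
  have hh := hf.heat t x h0 hT
  have i5 : Integrable fun v => ‖v‖ ^ 2 * transport f t x v - 2 * ⟪u, transport f t x v • v⟫ :=
    i2.sub (i3.const_mul 2)
  have e2 : ∫ v, ‖v - u‖ ^ 2 * transport f t x v = 0 := by
    simp_rw [e1]
    rw [integral_add i5 (i0.const_mul _), integral_sub i2 (i3.const_mul 2),
      integral_const_mul, integral_const_mul, integral_inner i1, hm, hmo, hh]
    simp
  refine ⟨i0.comp_add_left u, ?_, ?_, ?_⟩
  · have := i4.comp_add_left u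
    simpa using this
  · rw [integral_add_left_eq_self (fun v => transport f t x v) u]
    exact hm
  · have h1 := integral_add_left_eq_self (fun v => ‖v - u‖ ^ 2 * transport f t x v) u (μ := volume)
    simp only [add_sub_cancel_left] at h1
    rw [h1, e2]

end sol

section iso

variable {B : ℝ → ℝ → ℝ} {T : ℝ} {f : ℝ → E d → E d → ℝ} {Ω : Set (ℝ × E d)} {U : ℝ × E d → E d}

/-- mass density -/
noncomputable def r0 (f : ℝ → E d → E d → ℝ) (U : ℝ × E d → E d) (z : ℝ × E d) : ℝ :=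
  ∫ w, f z.1 z.2 (U z + w)

/-- internal energy density -/
noncomputable def r2 (f : ℝ → E d → E d → ℝ) (U : ℝ × E d → E d) (z : ℝ × E d) : ℝ :=
  ∫ w, ‖w‖ ^ 2 * f z.1 z.2 (U z + w)

/-- the acceleration -/
noncomputable def Acc (U : ℝ × E d → E d) (z : ℝ × E d) : E d := fderiv ℝ U z (1, U z)

variable (H : Iso B T f Ω U)

include H

theorem Iso.balance (hd : 0 < d) {z : ℝ × E d} (hz : z ∈ Ω) : ∃ (lam : ℝ) (D0 D2 : ℝ × E d →L[ℝ] ℝ),
    HasFDerivAt (r0 f U) D0 z ∧ HasFDerivAt (r2 f U) D2 z ∧ (∀ h, ⟪h, fderiv ℝ U z (0, h)⟫ = lam * ‖h‖ ^ 2) ∧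
    D0 (1, U z) = -(d : ℝ) * lam * r0 f U z ∧ D2 (1, U z) = -((d : ℝ) + 2) * lam * r2 f U z ∧
    (∀ h, D2 (0, h) = -(d : ℝ) * r0 f U z * ⟪Acc U z, h⟫) ∧ ∀ h, ⟪Acc U z, h⟫ = 0 → D0 (0, h) = 0 := by
  obtain ⟨hA, lam, hlam, hq⟩ := H.relations hd hz
  have m0 := H.moment hz (fun _ => 1) continuous_const (fun w => by
    have := norm_nonneg w
    rw [abs_one]
    nlinarith)
  have m2 := H.moment hz (fun w => ‖w‖ ^ 2) (by fun_prop) (fun w => by
    rw [abs_of_nonneg (by positivity)]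
    exact pow_le_pow_left₀ (norm_nonneg _) (by linarith) 2)
  simp only [one_mul, one_smul] at m0
  obtain ⟨q0, q2, hq0, hq2⟩ := H.sol.q_moments z.2 (U z) (H.time z hz).1 (H.time z hz).2
  obtain ⟨n0, n2⟩ := H.integrable_n hz
  refine ⟨lam, _, _, m0.2.2, m2.2.2, hlam, ?_, ?_, ?_, ?_⟩
  · rw [ContinuousLinearMap.integral_apply m0.2.1]
    simp_rw [hq]
    rw [integral_add q0 (n0.const_mul lam), hq0, integral_const_mul, H.int_n0 hz]
    unfold r0
    ring
  · rw [ContinuousLinearMap.integral_apply m2.2.1]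
    have e : ∀ w : E d, (‖w‖ ^ 2 • aU f U z w) (1, U z) =
        ‖w‖ ^ 2 * transport f z.1 z.2 (U z + w) + lam * (‖w‖ ^ 2 * nU f U z w w) := by
      intro w
      rw [smul_apply, hq, smul_eq_mul]
      ring
    simp_rw [e]
    rw [integral_add q2 (n2.const_mul lam), hq2, integral_const_mul, H.int_n2 hz]
    unfold r2
    ring
  · intro h
    rw [ContinuousLinearMap.integral_apply m2.2.1]
    have e : ∀ w : E d, (‖w‖ ^ 2 • aU f U z w) (0, h) = nU f U z w w * ⟪Acc U z, h⟫ := by
      intro w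
      rw [smul_apply, smul_eq_mul]
      rcases eq_or_ne w 0 with rfl | hw
      · simp
      · have hw' : ‖w‖ ≠ 0 := norm_ne_zero_iff.2 hw
        rw [hA w hw h]
        unfold Acc
        field_simp
    simp_rw [e]
    rw [integral_mul_const, H.int_n0 hz]
    unfold r0
    ring
  · intro h hh
    rw [ContinuousLinearMap.integral_apply m0.2.1]
    have e : ∀ᵐ w : E d, (aU f U z w) (0, h) = 0 := by
      have : Nonempty (Fin d) := ⟨⟨0, hd⟩⟩
      have : ∀ᵐ w : E d, w ≠ 0 := by
        have h1 : (volume : Measure (E d)) {0} = 0 := measure_singleton 0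
        rw [ae_iff]
        simp
      filter_upwards [this] with w hw
      rw [hA w hw h]
      unfold Acc at hh
      rw [hh, mul_zero]
    rw [integral_congr_ae e]
    simp

theorem Iso.pos_of_weight {z : ℝ × E d} (hz : z ∈ Ω) (ψ : E d → ℝ) (hψ : Continuous ψ)
    (hψb : ∀ w, |ψ w| ≤ (1 + ‖w‖) ^ 2) (hψ0 : ∀ w, 0 ≤ ψ w) (w₀ : E d) (h0 : ψ w₀ * f z.1 z.2 (U z + w₀) ≠ 0) :
    0 < ∫ w, ψ w * f z.1 z.2 (U z + w) := by
  have hc : Continuous fun w => ψ w * f z.1 z.2 (U z + w) := hψ.mul (H.continuous_f hz)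
  have hn : ∀ w, 0 ≤ ψ w * f z.1 z.2 (U z + w) := fun w =>
    mul_nonneg (hψ0 w) (H.sol.nonneg _ _ _ (H.time z hz).1 (H.time z hz).2)
  rw [integral_pos_iff_support_of_nonneg hn (H.moment hz ψ hψ hψb).1]
  exact hc.isOpen_support.measure_pos volume ⟨w₀, h0⟩

theorem Iso.r0_pos {z : ℝ × E d} (hz : z ∈ Ω) : 0 < r0 f U z := by
  obtain ⟨v, hv⟩ := H.vac z hz
  have h := H.pos_of_weight hz (fun _ => 1) continuous_const (fun w => by
    have := norm_nonneg w
    rw [abs_one]
    nlinarith) (fun _ => zero_le_one) (v - U z) (by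
      rw [one_mul, add_sub_cancel]
      exact hv)
  simpa [r0] using h

theorem Iso.r2_pos (hd : 0 < d) {z : ℝ × E d} (hz : z ∈ Ω) : 0 < r2 f U z := by
  obtain ⟨v, hv⟩ := H.vac z hz
  have : Nonempty (Fin d) := ⟨⟨0, hd⟩⟩
  obtain ⟨w₀, hw₀, hw₁⟩ : ∃ w₀ : E d, f z.1 z.2 (U z + w₀) ≠ 0 ∧ w₀ ≠ 0 := by
    by_contra hcon
    push Not at hcon
    have hs : {w : E d | f z.1 z.2 (U z + w) ≠ 0} ⊆ {0} := fun w hw => hcon w hw
    have ho : IsOpen {w : E d | f z.1 z.2 (U z + w) ≠ 0} := (H.continuous_f hz).isOpen_support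
    have h1 := ho.measure_pos volume ⟨v - U z, by
      show f z.1 z.2 (U z + (v - U z)) ≠ 0
      rw [add_sub_cancel]
      exact hv⟩
    have h2 := measure_mono (μ := (volume : Measure (E d))) hs
    rw [measure_singleton] at h2
    exact absurd h1 (not_lt.2 h2)
  exact H.pos_of_weight hz (fun w => ‖w‖ ^ 2) (by fun_prop) (fun w => by
    rw [abs_of_nonneg (by positivity)]
    exact pow_le_pow_left₀ (norm_nonneg _) (by linarith) 2) (fun w => by positivity) w₀ (by positivity)

end iso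

end Pool.Agent.H67.Boltz
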