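import Pool.Agent.H67.Boltz.Rig

set_option autoImplicit false

/-!
# Isotropic distributions: the explicit form of affine velocity fields
-/

open MeasureTheory Filter Topology Set
open scoped RealInnerProductSpace

namespace Pool.Agent.H67.Boltz

variable {d : ℕ}

/-- growth along a segment -/
theorem slice_affine {G : Type*} [NormedAddCommGroup G] [NormedSpace ℝ G] (g : ℝ × E d → G) (t : ℝ) (x₀ h : E d) (v : G)
    (hg : ∀ s ∈ Icc (0 : ℝ) 1, DifferentiableAt ℝ g (t, x₀ + s • h) ∧ fderiv ℝ g (t, x₀ + s • h) (0, h) = v) :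
    g (t, x₀ + h) = g (t, x₀) + v := by
  have hder : ∀ s ∈ Icc (0 : ℝ) 1, HasDerivWithinAt (fun s : ℝ => g (t, x₀ + s • h) - s • v) 0 (Icc 0 1) s := by
    intro s hs
    obtain ⟨h1, h2⟩ := hg s hs
    have hl : HasDerivAt (fun s : ℝ => ((t, x₀ + s • h) : ℝ × E d)) (0, h) s := by
      refine (hasDerivAt_const s t).prodMk ?_
      simpa using ((hasDerivAt_id s).smul_const h).const_add x₀
    have h3 := (h1.hasFDerivAt.comp_hasDerivAt s hl).sub ((hasDerivAt_id s).smul_const v)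
    rw [h2] at h3
    exact (h3.congr_deriv (by simp)).hasDerivWithinAt
  have h4 := Convex.norm_image_sub_le_of_norm_hasDerivWithin_le (C := 0) (fun s hs => hder s hs) (fun s _ => by simp)
    (convex_Icc 0 1) (left_mem_Icc.2 zero_le_one) (right_mem_Icc.2 zero_le_one)
  rw [zero_mul] at h4
  have h5 := norm_le_zero_iff.1 h4
  simp only [one_smul, zero_smul, add_zero, sub_zero] at h5
  rw [sub_sub, sub_eq_zero] at h5
  rw [h5, add_comm v]

/-- functions with vanishing derivative on an interval -/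
theorem const_Ioo {G : Type*} [NormedAddCommGroup G] [NormedSpace ℝ G] (g : ℝ → G) (a b : ℝ)
    (hg : ∀ s ∈ Ioo a b, HasDerivAt g 0 s) {s t : ℝ} (hs : s ∈ Ioo a b) (ht : t ∈ Ioo a b) : g s = g t := by
  have h4 := Convex.norm_image_sub_le_of_norm_hasDerivWithin_le (C := 0) (fun s hs => (hg s hs).hasDerivWithinAt)
    (fun s _ => by simp) (convex_Ioo a b) hs ht
  rw [zero_mul] at h4
  exact (sub_eq_zero.1 (norm_le_zero_iff.1 h4)).symm

section iso

variable {B : ℝ → ℝ → ℝ} {T : ℝ} {f : ℝ → E d → E d → ℝ} {Ω : Set (ℝ × E d)} {U : ℝ × E d → E d}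

variable (H : Iso B T f Ω U)

include H

theorem Iso.affine_core (hd : 0 < d) (hR : Rigid Ω U) (t₀ : ℝ) (x₀ : E d) (ht₀ : t₀ < T)
    (hc : ∀ t ∈ Ioo t₀ T, (t, x₀) ∈ Ω)
    (hstar : ∀ z ∈ Ω, z.1 ∈ Ioo t₀ T ∧ ∀ s ∈ Icc (0 : ℝ) 1, (z.1, x₀ + s • (z.2 - x₀)) ∈ Ω) :
    ∃ (Y0 Y1 κ : ℝ) (W0 W1 : E d) (Λ : E d →L[ℝ] E d), (∀ k, ⟪Λ k, k⟫ = 0) ∧ ∀ z ∈ Ω,
      0 < Y0 + Y1 * (T - z.1) + κ * (T - z.1) ^ 2 ∧
      (Y0 + Y1 * (T - z.1) + κ * (T - z.1) ^ 2) * lam U z = -Y1 / 2 - κ * (T - z.1) ∧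
      (Y0 + Y1 * (T - z.1) + κ * (T - z.1) ^ 2) • U z =
        W0 + (T - z.1) • W1 + (-Y1 / 2 - κ * (T - z.1)) • (z.2 - x₀) + Λ (z.2 - x₀) ∧
      (∀ k, (Y0 + Y1 * (T - z.1) + κ * (T - z.1) ^ 2) • fderiv ℝ U z (0, k) = (-Y1 / 2 - κ * (T - z.1)) • k + Λ k) ∧
      (Y0 + Y1 * (T - z.1) + κ * (T - z.1) ^ 2) • Vv U z = -W1 + κ • (z.2 - x₀) := by
  set I := Ioo t₀ T with hI
  set t₁ := (t₀ + T) / 2 with ht₁
  have ht₁I : t₁ ∈ I := ⟨by rw [ht₁]; linarith, by rw [ht₁]; linarith⟩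
  -- vertical derivatives
  have hvert : ∀ {G : Type} [NormedAddCommGroup G] [NormedSpace ℝ G] (g : ℝ × E d → G) (z : ℝ × E d),
      DifferentiableAt ℝ g z → HasDerivAt (fun s : ℝ => g (s, z.2)) (fderiv ℝ g z (1, 0)) z.1 := by
    intro G _ _ g z hg
    have hl : HasDerivAt (fun s : ℝ => ((s, z.2) : ℝ × E d)) (1, 0) z.1 :=
      (hasDerivAt_id z.1).prodMk (hasDerivAt_const _ _)
    exact (show HasFDerivAt g (fderiv ℝ g z) ((z.1, z.2) : ℝ × E d) from hg.hasFDerivAt).comp_hasDerivAt z.1 hl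
  have hlamconst : ∀ z ∈ Ω, lam U z = lam U (z.1, x₀) := by
    intro z hz
    have h1 := slice_affine (lam U) z.1 x₀ (z.2 - x₀) 0 (fun s hs => by
      have hz' := (hstar z hz).2 s hs
      exact ⟨H.lam_diff hz', (H.rigid_facts hd hR hz').1 _⟩)
    rw [add_sub_cancel, add_zero] at h1
    exact h1
  have hlamt : ∀ z ∈ Ω, fderiv ℝ (lam U) z (1, 0) = fderiv ℝ (lam U) (z.1, x₀) (1, 0) := by
    intro z hz
    have hz0 : (z.1, x₀) ∈ Ω := hc z.1 (hstar z hz).1
    have h1 := hvert (lam U) z (H.lam_diff hz)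
    have h2 := hvert (lam U) (z.1, x₀) (H.lam_diff hz0)
    refine h1.unique (h2.congr_of_eventuallyEq ?_)
    have h3 : ∀ᶠ s in 𝓝 z.1, (s, z.2) ∈ Ω := by
      have hcont : ContinuousAt (fun s : ℝ => ((s, z.2) : ℝ × E d)) z.1 := by fun_prop
      exact hcont.eventually (H.isOpen.mem_nhds hz)
    filter_upwards [h3] with s hs
    exact hlamconst (s, z.2) hs
  have hMconst : ∀ z ∈ Ω, ∀ k, fderiv ℝ U z (0, k) = fderiv ℝ U (z.1, x₀) (0, k) := by
    intro z hz k
    have h1 := slice_affine (fun z => fderiv ℝ U z (0, k)) z.1 x₀ (z.2 - x₀) 0 (fun s hs => by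
      have hz' := (hstar z hz).2 s hs
      have h2 := (H.dU_diff hz').hasFDerivAt.clm_apply (hasFDerivAt_const ((0 : ℝ), k) (z.1, x₀ + s • (z.2 - x₀)))
      refine ⟨h2.differentiableAt, ?_⟩
      rw [h2.fderiv]
      simp [hR _ hz' (z.2 - x₀) k])
    simp only [add_sub_cancel, add_zero] at h1
    exact h1
  have hUaff : ∀ z ∈ Ω, U z = U (z.1, x₀) + fderiv ℝ U (z.1, x₀) (0, z.2 - x₀) := by
    intro z hz
    have h1 := slice_affine U z.1 x₀ (z.2 - x₀) (fderiv ℝ U (z.1, x₀) (0, z.2 - x₀)) (fun s hs => by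
      have hz' := (hstar z hz).2 s hs
      exact ⟨H.U_diff hz', hMconst _ hz' _⟩)
    rw [add_sub_cancel] at h1
    exact h1
  -- the function y
  set L : ℝ → ℝ := fun t => lam U (t, x₀) with hL
  have hLc : ContinuousOn L I := fun t ht => by
    have h1 := hvert (lam U) (t, x₀) (H.lam_diff (hc t ht))
    exact h1.continuousAt.continuousWithinAt
  set l : ℝ → ℝ := fun t => ∫ s in t₁..t, L s with hl
  have hld : ∀ t ∈ I, HasDerivAt l (L t) t := by
    intro t ht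
    have hsub : uIcc t₁ t ⊆ I := by
      intro s hs
      rcases le_total t₁ t with h | h
      · rw [uIcc_of_le h] at hs
        exact ⟨ht₁I.1.trans_le hs.1, hs.2.trans_lt ht.2⟩
      · rw [uIcc_of_ge h] at hs
        exact ⟨ht.1.trans_le hs.1, hs.2.trans_lt ht₁I.2⟩
    refine intervalIntegral.integral_hasDerivAt_right ((hLc.mono hsub).intervalIntegrable) ?_
      (hLc.continuousAt (isOpen_Ioo.mem_nhds ht))
    exact hLc.stronglyMeasurableAtFilter isOpen_Ioo t ht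
  set y : ℝ → ℝ := fun t => Real.exp (2 * l t) with hy
  have hypos : ∀ t, 0 < y t := fun t => Real.exp_pos _
  have hyd : ∀ t ∈ I, HasDerivAt y (2 * (y t * L t)) t := by
    intro t ht
    have := ((hld t ht).const_mul 2).exp
    refine this.congr_deriv ?_
    simp only [hy]
    ring
  -- the function κ
  set κf : ℝ → ℝ := fun t => y t * (fderiv ℝ (lam U) (t, x₀) (1, 0) + 2 * L t ^ 2) with hκf
  have hmud : ∀ t ∈ I, HasDerivAt (fun t => y t * L t) (κf t) t := by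
    intro t ht
    have h1 := hvert (lam U) (t, x₀) (H.lam_diff (hc t ht))
    refine ((hyd t ht).mul h1).congr_deriv ?_
    simp only [hκf, hL]
    ring
  -- the function y V
  have hyV : ∀ z ∈ Ω, HasDerivAt (fun s : ℝ => y s • Vv U (s, z.2)) 0 z.1 := by
    intro z hz
    have h1 := hvert (Vv U) z (H.Vv_hasFDerivAt hz).1.differentiableAt
    have h2 := (hyd z.1 (hstar z hz).1).smul h1
    refine h2.congr_deriv ?_
    rw [(H.rigid_facts hd hR hz).2.2.2.2.2, hlamconst z hz]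
    simp only [hL]
    module
  have hVaff : ∀ z ∈ Ω, y z.1 • Vv U z = y z.1 • Vv U (z.1, x₀) + κf z.1 • (z.2 - x₀) := by
    intro z hz
    have h1 := slice_affine (Vv U) z.1 x₀ (z.2 - x₀)
      ((fderiv ℝ (lam U) (z.1, x₀) (1, 0) + 2 * L z.1 ^ 2) • (z.2 - x₀)) (fun s hs => by
      have hz' := (hstar z hz).2 s hs
      refine ⟨(H.Vv_hasFDerivAt hz').1.differentiableAt, ?_⟩
      rw [(H.rigid_facts hd hR hz').2.2.2.2.1, hlamt _ hz', hlamconst _ hz'])
    rw [add_sub_cancel] at h1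
    rw [show Vv U z = Vv U (z.1, z.2) from rfl, h1, smul_add, smul_smul]
  have hκd : ∀ t ∈ I, HasDerivAt κf 0 t := by
    intro t ht
    set e := EuclideanSpace.single (⟨0, hd⟩ : Fin d) (1 : ℝ) with he
    have hne : ⟪e, e⟫ = 1 := by
      rw [real_inner_self_eq_norm_sq, he, PiLp.norm_single, norm_one, one_pow]
    -- a point near the centre
    have hcont : ContinuousAt (fun r : ℝ => ((t, x₀ + r • e) : ℝ × E d)) 0 := by fun_prop
    have h1 : ∀ᶠ r in 𝓝 (0 : ℝ), (t, x₀ + r • e) ∈ Ω := by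
      refine hcont.eventually (H.isOpen.mem_nhds ?_)
      simpa using hc t ht
    obtain ⟨r, hr1, hr2⟩ : ∃ r : ℝ, (t, x₀ + r • e) ∈ Ω ∧ r ≠ 0 := by
      have h2 := (h1.filter_mono (nhdsWithin_le_nhds (s := {(0 : ℝ)}ᶜ))).and self_mem_nhdsWithin
      obtain ⟨r, hr⟩ := h2.exists
      exact ⟨r, hr.1, hr.2⟩
    have h3 := hyV (t, x₀ + r • e) hr1
    have h4 := hyV (t, x₀) (hc t ht)
    have h5 := ((innerSL ℝ e).hasFDerivAt.comp_hasDerivAt t (h3.sub h4)).mul_const r⁻¹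
    have h6 : HasDerivAt κf ((innerSL ℝ e) (0 - 0) * r⁻¹) t := by
      refine h5.congr_of_eventuallyEq ?_
      have h7 : ∀ᶠ s in 𝓝 t, (s, x₀ + r • e) ∈ Ω := by
        have hcont : ContinuousAt (fun s : ℝ => ((s, x₀ + r • e) : ℝ × E d)) t := by fun_prop
        exact hcont.eventually (H.isOpen.mem_nhds hr1)
      filter_upwards [h7] with s hs
      have h8 := hVaff (s, x₀ + r • e) hs
      simp only [add_sub_cancel_left] at h8
      simp only [Function.comp, Pi.sub_apply, innerSL_apply_apply]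
      rw [h8, add_sub_cancel_left, inner_smul_right, inner_smul_right, hne]
      field_simp
    simpa using h6
  set κ := κf t₁ with hκ
  have hκc : ∀ t ∈ I, κf t = κ := fun t ht => const_Ioo κf t₀ T hκd ht ht₁I
  -- polynomials
  set μ₁ := y t₁ * L t₁ with hμ₁
  have hmu : ∀ t ∈ I, y t * L t = μ₁ + κ * (t - t₁) := by
    intro t ht
    have h1 := const_Ioo (fun t => y t * L t - κ * (t - t₁)) t₀ T (fun s hs => by
      have h2 := (hmud s hs).sub (((hasDerivAt_id s).sub_const t₁).const_mul κ)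
      refine h2.congr_deriv ?_
      rw [hκc s hs]
      simp) ht ht₁I
    simp only [sub_self, mul_zero, sub_zero] at h1
    linarith
  have hyp : ∀ t ∈ I, y t = y t₁ + 2 * μ₁ * (t - t₁) + κ * (t - t₁) ^ 2 := by
    intro t ht
    have h1 := const_Ioo (fun t => y t - 2 * μ₁ * (t - t₁) - κ * (t - t₁) ^ 2) t₀ T (fun s hs => by
      have h2 := ((hyd s hs).sub (((hasDerivAt_id s).sub_const t₁).const_mul (2 * μ₁))).sub
        ((((hasDerivAt_id s).sub_const t₁).pow 2).const_mul κ)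
      refine h2.congr_deriv ?_
      rw [hmu s hs]
      simp
      ring) ht ht₁I
    simp only [sub_self, mul_zero, sub_zero] at h1
    have : κ * (0 : ℝ) ^ 2 = 0 := by ring
    linarith
  -- w
  set w₁ : E d := y t₁ • Vv U (t₁, x₀) with hw₁
  have hw1 : ∀ t ∈ I, y t • Vv U (t, x₀) = w₁ := fun t ht =>
    const_Ioo (fun s => y s • Vv U (s, x₀)) t₀ T (fun s hs => hyV (s, x₀) (hc s hs)) ht ht₁I
  have hwd : ∀ t ∈ I, HasDerivAt (fun s : ℝ => y s • U (s, x₀)) w₁ t := by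
    intro t ht
    have h1 := hvert U (t, x₀) (H.U_diff (hc t ht))
    refine ((hyd t ht).smul h1).congr_deriv ?_
    rw [(H.rigid_facts hd hR (hc t ht)).2.1, ← hw1 t ht]
    simp only [Vv, hL]
    module
  set wa : E d := y t₁ • U (t₁, x₀) with hwa
  have hw : ∀ t ∈ I, y t • U (t, x₀) = wa + (t - t₁) • w₁ := by
    intro t ht
    have h1 := const_Ioo (fun t => y t • U (t, x₀) - (t - t₁) • w₁) t₀ T (fun s hs => by
      have h2 := (hwd s hs).sub (((hasDerivAt_id s).sub_const t₁).smul_const w₁)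
      refine h2.congr_deriv ?_
      simp) ht ht₁I
    simp only [sub_self, zero_smul, sub_zero] at h1
    rw [hwa, ← h1]
    abel
  -- M
  have hNd : ∀ k, ∀ t ∈ I, HasDerivAt (fun s : ℝ => y s • fderiv ℝ U (s, x₀) (0, k)) (κ • k) t := by
    intro k t ht
    have h0 := (H.dU_diff (hc t ht)).hasFDerivAt.clm_apply (hasFDerivAt_const ((0 : ℝ), k) (t, x₀))
    have h1 := hvert (fun z => fderiv ℝ U z (0, k)) (t, x₀) h0.differentiableAt
    refine ((hyd t ht).smul h1).congr_deriv ?_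
    rw [h0.fderiv]
    simp only [add_apply, ContinuousLinearMap.comp_apply, ContinuousLinearMap.flip_apply, zero_apply, map_zero, zero_add]
    rw [(H.rigid_facts hd hR (hc t ht)).2.2.2.1, ← hκc t ht]
    simp only [hκf, hL]
    module
  have hN : ∀ k, ∀ t ∈ I, y t • fderiv ℝ U (t, x₀) (0, k) = y t₁ • fderiv ℝ U (t₁, x₀) (0, k) + (κ * (t - t₁)) • k := by
    intro k t ht
    have h1 := const_Ioo (fun t => y t • fderiv ℝ U (t, x₀) (0, k) - (κ * (t - t₁)) • k) t₀ T (fun s hs => by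
      have h2 := (hNd k s hs).sub ((((hasDerivAt_id s).sub_const t₁).const_mul κ).smul_const k)
      refine h2.congr_deriv ?_
      simp) ht ht₁I
    simp only [sub_self, mul_zero, zero_smul, sub_zero] at h1
    rw [← h1]
    abel
  set Λ : E d →L[ℝ] E d := y t₁ • (fderiv ℝ U (t₁, x₀)).comp (ContinuousLinearMap.inr ℝ ℝ (E d)) -
    μ₁ • ContinuousLinearMap.id ℝ (E d) with hΛ
  have hΛk : ∀ k, Λ k = y t₁ • fderiv ℝ U (t₁, x₀) (0, k) - μ₁ • k := fun k => by simp [hΛ]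
  have hy0 : ∀ t, t - t₁ = (T - t₁) - (T - t) := fun t => by ring
  refine ⟨y t₁ + 2 * μ₁ * (T - t₁) + κ * (T - t₁) ^ 2, -(2 * μ₁) - 2 * κ * (T - t₁), κ,
    wa + (T - t₁) • w₁, -w₁, Λ, fun k => ?_, fun z hz => ?_⟩
  · rw [hΛk, inner_sub_left, inner_smul_left, inner_smul_left]
    have h1 := H.F1 hd (hc t₁ ht₁I) k k
    simp only [conj_trivial, hμ₁, hL]
    rw [real_inner_comm]
    linear_combination (y t₁ / 2) * h1
  · obtain ⟨hzI, -⟩ := hstar z hz
    have e1 : y t₁ + 2 * μ₁ * (T - t₁) + κ * (T - t₁) ^ 2 + (-(2 * μ₁) - 2 * κ * (T - t₁)) * (T - z.1) +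
        κ * (T - z.1) ^ 2 = y z.1 := by
      rw [hyp z.1 hzI]
      ring
    have e2 : -(-(2 * μ₁) - 2 * κ * (T - t₁)) / 2 - κ * (T - z.1) = μ₁ + κ * (z.1 - t₁) := by ring
    rw [e1, e2]
    refine ⟨hypos _, ?_, ?_, ?_, ?_⟩
    · rw [hlamconst z hz]
      exact hmu z.1 hzI
    · rw [hUaff z hz, smul_add, hw z.1 hzI, hN _ z.1 hzI, hΛk]
      module
    · intro k
      rw [hMconst z hz, hN k z.1 hzI, hΛk]
      module
    · rw [hVaff z hz, hw1 z.1 hzI, hκc z.1 hzI]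
      simp

end iso

end Pool.Agent.H67.Boltz
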