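import Pool.Agent.H67.Boltz.Sym

set_option autoImplicit false

/-!
# Isotropic distributions: affine velocity fields
-/

open MeasureTheory Filter Topology Set
open scoped RealInnerProductSpace

namespace Pool.Agent.H67.Boltz

variable {d : ℕ}

/-- the velocity field is affine in `x` -/
def Rigid (Ω : Set (ℝ × E d)) (U : ℝ × E d → E d) : Prop :=
  ∀ z ∈ Ω, ∀ h k : E d, fderiv ℝ (fderiv ℝ U) z (0, h) (0, k) = 0

/-- `V = D U + 2 λ U - M U` -/
noncomputable def Vv (U : ℝ × E d → E d) (z : ℝ × E d) : E d :=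
  Acc U z + (2 * lam U z) • U z - fderiv ℝ U z (0, U z)

section iso

variable {B : ℝ → ℝ → ℝ} {T : ℝ} {f : ℝ → E d → E d → ℝ} {Ω : Set (ℝ × E d)} {U : ℝ × E d → E d}

variable (H : Iso B T f Ω U)

include H

theorem Iso.D2_symm {z : ℝ × E d} (hz : z ∈ Ω) (v w : ℝ × E d) :
    fderiv ℝ (fderiv ℝ U) z v w = fderiv ℝ (fderiv ℝ U) z w v := by
  have h : ContDiffAt ℝ 2 U z := H.smooth.contDiffAt (H.isOpen.mem_nhds hz)
  exact (h.isSymmSndFDerivAt (by simp)) v w

/-- conformal Killing equation -/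
theorem Iso.F1 (hd : 0 < d) {z : ℝ × E d} (hz : z ∈ Ω) (h k : E d) :
    ⟪h, fderiv ℝ U z (0, k)⟫ + ⟪k, fderiv ℝ U z (0, h)⟫ = 2 * lam U z * ⟪h, k⟫ := by
  obtain ⟨D0, D2, -, -, h3, -, -, -, -⟩ := H.laws hd hz
  have e1 := h3 (h + k)
  have e2 := h3 h
  have e3 := h3 k
  have e4 : ((0 : ℝ), h + k) = (0, h) + (0, k) := by simp
  rw [e4, map_add, inner_add_left, inner_add_right, inner_add_right, norm_add_sq_real] at e1
  linarith

theorem Iso.F1' (hd : 0 < d) {z : ℝ × E d} (hz : z ∈ Ω) (v : ℝ × E d) (h k : E d) :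
    ⟪h, fderiv ℝ (fderiv ℝ U) z v (0, k)⟫ + ⟪k, fderiv ℝ (fderiv ℝ U) z v (0, h)⟫ =
      2 * fderiv ℝ (lam U) z v * ⟪h, k⟫ := by
  have hD := (H.dU_diff hz).hasFDerivAt
  have hL := (H.lam_diff hz).hasFDerivAt
  have e : ∀ a b : E d, HasFDerivAt (fun z => ⟪a, fderiv ℝ U z (0, b)⟫)
      ((innerSL ℝ a).comp ((fderiv ℝ (fderiv ℝ U) z).flip (0, b))) z := by
    intro a b
    have e1 : HasFDerivAt (fun z => fderiv ℝ U z (0, b)) ((fderiv ℝ (fderiv ℝ U) z).flip (0, b)) z := by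
      have := hD.clm_apply (hasFDerivAt_const ((0 : ℝ), b) z)
      refine this.congr_fderiv (ContinuousLinearMap.ext fun v => ?_)
      simp
    exact (innerSL ℝ a).hasFDerivAt.comp z e1
  have e2 := (e h k).add (e k h)
  have e3 : HasFDerivAt (fun z => 2 * lam U z * ⟪h, k⟫) ((2 * ⟪h, k⟫) • fderiv ℝ (lam U) z) z := by
    refine ((hL.const_mul 2).mul_const ⟪h, k⟫).congr_fderiv (ContinuousLinearMap.ext fun v => ?_)
    simp
    ring
  have e4 := e2.unique (e3.congr_of_eventuallyEq (by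
    filter_upwards [H.isOpen.mem_nhds hz] with y hy using H.F1 hd hy h k))
  have e5 := congrArg (fun L : ℝ × E d →L[ℝ] ℝ => L v) e4
  simp only [add_apply, ContinuousLinearMap.comp_apply, ContinuousLinearMap.flip_apply, innerSL_apply_apply,
    smul_apply, smul_eq_mul] at e5
  rw [e5]
  ring

theorem Iso.Acc_fderiv {z : ℝ × E d} (hz : z ∈ Ω) (v : ℝ × E d) :
    fderiv ℝ (Acc U) z v = fderiv ℝ (fderiv ℝ U) z v (1, U z) + fderiv ℝ U z (0, fderiv ℝ U z v) := by
  have hD := (H.dU_diff hz).hasFDerivAt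
  have hU := (H.U_diff hz).hasFDerivAt
  have e := hD.clm_apply ((hasFDerivAt_const (1 : ℝ) z).prodMk hU)
  have e2 : HasFDerivAt (Acc U) _ z := e
  rw [e2.fderiv]
  simp [add_comm]

theorem Iso.Vv_hasFDerivAt {z : ℝ × E d} (hz : z ∈ Ω) : HasFDerivAt (Vv U) (fderiv ℝ (Vv U) z) z ∧ ∀ v,
    fderiv ℝ (Vv U) z v = fderiv ℝ (Acc U) z v + (2 * fderiv ℝ (lam U) z v) • U z +
      (2 * lam U z) • fderiv ℝ U z v - (fderiv ℝ (fderiv ℝ U) z v (0, U z) + fderiv ℝ U z (0, fderiv ℝ U z v)) := by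
  have hD := (H.dU_diff hz).hasFDerivAt
  have hU := (H.U_diff hz).hasFDerivAt
  have hA := (H.Acc_diff hz).hasFDerivAt
  have hL := (H.lam_diff hz).hasFDerivAt
  have e := hD.clm_apply ((hasFDerivAt_const (0 : ℝ) z).prodMk hU)
  have e2 : HasFDerivAt (Vv U) _ z := (hA.add ((hL.const_mul 2).smul hU)).sub e
  refine ⟨e2.differentiableAt.hasFDerivAt, fun v => ?_⟩
  rw [e2.fderiv]
  simp
  abel

theorem Iso.rigid_facts (hd : 0 < d) (hR : Rigid Ω U) {z : ℝ × E d} (hz : z ∈ Ω) :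
    (∀ k, fderiv ℝ (lam U) z (0, k) = 0) ∧
    (fderiv ℝ U z (1, 0) = Acc U z - fderiv ℝ U z (0, U z)) ∧
    (∀ k, fderiv ℝ (Acc U) z (0, k) = fderiv ℝ (lam U) z (1, 0) • k + fderiv ℝ U z (0, fderiv ℝ U z (0, k)) +
      (2 * lam U z ^ 2) • k - (2 * lam U z) • fderiv ℝ U z (0, k)) ∧
    (∀ k, fderiv ℝ (fderiv ℝ U) z (1, 0) (0, k) = (fderiv ℝ (lam U) z (1, 0) + 2 * lam U z ^ 2) • k -
      (2 * lam U z) • fderiv ℝ U z (0, k)) ∧
    (∀ k, fderiv ℝ (Vv U) z (0, k) = (fderiv ℝ (lam U) z (1, 0) + 2 * lam U z ^ 2) • k) ∧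
    fderiv ℝ (Vv U) z (1, 0) = -(2 * lam U z) • Vv U z := by
  have hsymm := H.D2_symm hz
  have hF1 := H.F1 hd hz
  have hF1' := H.F1' hd hz
  obtain ⟨hS, hC⟩ := H.compat hd hz
  -- (F2)
  have F2 : ∀ k, fderiv ℝ (lam U) z (0, k) = 0 := by
    intro k
    set e := EuclideanSpace.single (⟨0, hd⟩ : Fin d) (1 : ℝ) with he
    have hne : ⟪e, e⟫ = 1 := by
      rw [real_inner_self_eq_norm_sq, he, PiLp.norm_single, norm_one, one_pow]
    have h1 := hF1' (0, k) e e
    rw [hR z hz k e, inner_zero_right, hne] at h1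
    linarith
  have e10 : ((1 : ℝ), U z) = (1, 0) + (0, U z) := by simp
  have F0 : fderiv ℝ U z (1, 0) = Acc U z - fderiv ℝ U z (0, U z) := by
    unfold Acc
    rw [e10, map_add]
    abel
  have F5a : ∀ k, fderiv ℝ (fderiv ℝ U) z (0, k) (1, U z) = fderiv ℝ (fderiv ℝ U) z (1, 0) (0, k) := by
    intro k
    rw [hsymm (0, k) (1, U z), e10, map_add, add_apply, hR z hz (U z) k, add_zero]
  have F5 : ∀ k, fderiv ℝ (Acc U) z (0, k) = fderiv ℝ (fderiv ℝ U) z (1, 0) (0, k) +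
      fderiv ℝ U z (0, fderiv ℝ U z (0, k)) := by
    intro k
    rw [H.Acc_fderiv hz, F5a]
  set M : E d → E d := fun k => fderiv ℝ U z (0, k) with hM
  have hMk : ∀ k, fderiv ℝ U z (0, k) = M k := fun k => rfl
  have F6 : ∀ k, fderiv ℝ (Acc U) z (0, k) = fderiv ℝ (lam U) z (1, 0) • k + M (M k) +
      (2 * lam U z ^ 2) • k - (2 * lam U z) • M k := by
    intro k
    refine ext_inner_right ℝ fun l => ?_
    have h1 := hS k l
    have h2 := hF1' (1, 0) k l
    have h3 := F5 k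
    have h4 := F5 l
    have h5 := hF1 k (M l)
    have h6 := hF1 k l
    have h7 := hF1 l (M k)
    simp only [hMk] at h2 h3 h4 h5 h6 h7 ⊢
    have c1 := real_inner_comm (M k) (M l)
    have c2 := real_inner_comm k (M (M l))
    have c3 := real_inner_comm l (M (M k))
    have c4 := real_inner_comm k (M l)
    have c5 := real_inner_comm l (M k)
    have c6 := real_inner_comm k l
    have c7 := real_inner_comm k (fderiv ℝ (fderiv ℝ U) z (1, 0) (0, l))
    have c8 := real_inner_comm l (fderiv ℝ (fderiv ℝ U) z (1, 0) (0, k))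
    rw [inner_sub_left, inner_add_left, inner_add_left, inner_smul_left, inner_smul_left, inner_smul_left]
    simp only [conj_trivial]
    have i3 : ⟪fderiv ℝ (Acc U) z (0, k), l⟫ = ⟪fderiv ℝ (fderiv ℝ U) z (1, 0) (0, k), l⟫ + ⟪M (M k), l⟫ := by
      rw [h3, inner_add_left]
    have i4 : ⟪fderiv ℝ (Acc U) z (0, l), k⟫ = ⟪fderiv ℝ (fderiv ℝ U) z (1, 0) (0, l), k⟫ + ⟪M (M l), k⟫ := by
      rw [h4, inner_add_left]
    linear_combination (1 / 2) * h1 + (1 / 2) * i3 + (1 / 2) * i4 + (1 / 2) * c7 + (1 / 2) * c8 + (1 / 2) * h2 +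
      (1 / 2) * c2 + (1 / 2) * h5 - (1 / 2) * h7 - (1 / 2) * c3 - (1 / 2) * c1 + lam U z * h6 + 2 * lam U z * c5
  have F7 : ∀ k, fderiv ℝ (fderiv ℝ U) z (1, 0) (0, k) = (fderiv ℝ (lam U) z (1, 0) + 2 * lam U z ^ 2) • k -
      (2 * lam U z) • M k := by
    intro k
    have h1 := F5 k
    rw [F6 k] at h1
    simp only [hMk] at h1
    have h2 : fderiv ℝ (fderiv ℝ U) z (1, 0) (0, k) = (fderiv ℝ (lam U) z (1, 0) • k + M (M k) +
      (2 * lam U z ^ 2) • k - (2 * lam U z) • M k) - M (M k) := by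
      rw [h1]
      abel
    rw [h2]
    module
  have hVd := (H.Vv_hasFDerivAt hz).2
  have Madd : ∀ a b, M (a + b) = M a + M b := fun a b => by
    have : ((0 : ℝ), a + b) = (0, a) + (0, b) := by simp
    simp only [hM, this, map_add]
  have Msub : ∀ a b, M (a - b) = M a - M b := fun a b => by
    have : ((0 : ℝ), a - b) = (0, a) - (0, b) := by simp
    simp only [hM, this, map_sub]
  have F8 : ∀ k, fderiv ℝ (Vv U) z (0, k) = (fderiv ℝ (lam U) z (1, 0) + 2 * lam U z ^ 2) • k := by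
    intro k
    rw [hVd, F2, F6, hR z hz k (U z)]
    simp only [hMk]
    module
  have F9 : fderiv ℝ (Acc U) z (1, U z) = -(4 * lam U z) • Acc U z + M (Acc U z) := by
    refine ext_inner_right ℝ fun k => ?_
    have h1 := hC k
    have h2 := hF1 (Acc U z) k
    simp only [hMk] at h1 h2
    rw [F2, mul_zero, add_zero] at h1
    rw [inner_add_left, inner_smul_left]
    simp only [conj_trivial]
    have c1 := real_inner_comm k (M (Acc U z))
    rw [h1]
    linear_combination (-1) * h2 - c1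
  have F10 : fderiv ℝ (Acc U) z (1, 0) = fderiv ℝ (Acc U) z (1, U z) - fderiv ℝ (Acc U) z (0, U z) := by
    rw [e10, map_add]
    abel
  refine ⟨F2, F0, F6, F7, F8, ?_⟩
  rw [hVd, F10, F9, F6, F7, F0]
  simp only [hMk]
  rw [Msub]
  have : Vv U z = Acc U z + (2 * lam U z) • U z - M (U z) := rfl
  rw [this]
  module

end iso

end Pool.Agent.H67.Boltz
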