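import Pool.Agent.H67.Boltz.Mom2

set_option autoImplicit false

/-!
# Isotropic distributions: compatibility of the balance laws
-/

open MeasureTheory Filter Topology Set
open scoped RealInnerProductSpace

namespace Pool.Agent.H67.Boltz

variable {d : ℕ}

section iso

variable {B : ℝ → ℝ → ℝ} {T : ℝ} {f : ℝ → E d → E d → ℝ} {Ω : Set (ℝ × E d)} {U : ℝ × E d → E d}

/-- the rate of expansion -/
noncomputable def lam (U : ℝ × E d → E d) (z : ℝ × E d) : ℝ :=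
  (∑ i, ⟪EuclideanSpace.basisFun (Fin d) ℝ i, fderiv ℝ U z (0, EuclideanSpace.basisFun (Fin d) ℝ i)⟫) / d

theorem lam_eq (hd : 0 < d) {z : ℝ × E d} {c : ℝ} (h : ∀ h, ⟪h, fderiv ℝ U z (0, h)⟫ = c * ‖h‖ ^ 2) : lam U z = c := by
  unfold lam
  have hd' : (d : ℝ) ≠ 0 := by exact_mod_cast hd.ne'
  have hbn : ∀ i, ‖EuclideanSpace.basisFun (Fin d) ℝ i‖ = 1 := fun i =>
    (EuclideanSpace.basisFun (Fin d) ℝ).orthonormal.1 i
  rw [Finset.sum_congr rfl fun i _ => h _]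
  simp only [hbn]
  simp
  field_simp

variable (H : Iso B T f Ω U)

include H

theorem Iso.laws (hd : 0 < d) {z : ℝ × E d} (hz : z ∈ Ω) : ∃ (D0 D2 : ℝ × E d →L[ℝ] ℝ),
    HasFDerivAt (r0 f U) D0 z ∧ HasFDerivAt (r2 f U) D2 z ∧ (∀ h, ⟪h, fderiv ℝ U z (0, h)⟫ = lam U z * ‖h‖ ^ 2) ∧
    D0 (1, U z) = -(d : ℝ) * lam U z * r0 f U z ∧ D2 (1, U z) = -((d : ℝ) + 2) * lam U z * r2 f U z ∧
    (∀ h, D2 (0, h) = -(d : ℝ) * r0 f U z * ⟪Acc U z, h⟫) ∧
    ∀ h k, D0 (0, h) * ⟪Acc U z, k⟫ = D0 (0, k) * ⟪Acc U z, h⟫ := by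
  obtain ⟨c, D0, D2, h1, h2, h3, h4, h5, h6, h7⟩ := H.balance hd hz
  have hc := lam_eq hd h3
  subst hc
  refine ⟨D0, D2, h1, h2, h3, h4, h5, h6, fun h k => ?_⟩
  have e : ∀ h, D0 (0, h) * ‖Acc U z‖ ^ 2 = D0 (0, Acc U z) * ⟪Acc U z, h⟫ := by
    intro h
    have h8 := h7 (‖Acc U z‖ ^ 2 • h - ⟪Acc U z, h⟫ • Acc U z) (by
      rw [inner_sub_right, inner_smul_right, inner_smul_right, real_inner_self_eq_norm_sq]
      ring)
    have h9 : ((0 : ℝ), ‖Acc U z‖ ^ 2 • h - ⟪Acc U z, h⟫ • Acc U z) =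
        ‖Acc U z‖ ^ 2 • ((0 : ℝ), h) - ⟪Acc U z, h⟫ • ((0 : ℝ), Acc U z) := by
      simp
    rw [h9, map_sub, map_smul, map_smul, smul_eq_mul, smul_eq_mul] at h8
    linarith
  rcases eq_or_ne (Acc U z) 0 with h0 | h0
  · rw [h0]
    simp
  · have hn : ‖Acc U z‖ ^ 2 ≠ 0 := by positivity
    have e1 := e h
    have e2 := e k
    have : (D0 (0, h) * ⟪Acc U z, k⟫) * ‖Acc U z‖ ^ 2 = (D0 (0, k) * ⟪Acc U z, h⟫) * ‖Acc U z‖ ^ 2 := by
      calc (D0 (0, h) * ⟪Acc U z, k⟫) * ‖Acc U z‖ ^ 2 = (D0 (0, h) * ‖Acc U z‖ ^ 2) * ⟪Acc U z, k⟫ := by ring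
        _ = (D0 (0, Acc U z) * ⟪Acc U z, h⟫) * ⟪Acc U z, k⟫ := by rw [e1]
        _ = (D0 (0, Acc U z) * ⟪Acc U z, k⟫) * ⟪Acc U z, h⟫ := by ring
        _ = (D0 (0, k) * ⟪Acc U z, h⟫) * ‖Acc U z‖ ^ 2 := by rw [← e2]; ring
    exact mul_right_cancel₀ hn this

theorem Iso.U_C1 {z : ℝ × E d} (hz : z ∈ Ω) : ContDiffAt ℝ 1 (fderiv ℝ U) z :=
  (H.smooth.contDiffAt (H.isOpen.mem_nhds hz)).fderiv_right (by norm_num)

theorem Iso.dU_diff {z : ℝ × E d} (hz : z ∈ Ω) : DifferentiableAt ℝ (fderiv ℝ U) z :=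
  (H.U_C1 hz).differentiableAt (by norm_num)

theorem Iso.U_diff {z : ℝ × E d} (hz : z ∈ Ω) : DifferentiableAt ℝ U z := (H.hasFDerivAt_U hz).differentiableAt

theorem Iso.Acc_diff {z : ℝ × E d} (hz : z ∈ Ω) : DifferentiableAt ℝ (Acc U) z := by
  unfold Acc
  exact (H.dU_diff hz).clm_apply ((differentiableAt_const _).prodMk (H.U_diff hz))

theorem Iso.lam_diff {z : ℝ × E d} (hz : z ∈ Ω) : DifferentiableAt ℝ (lam U) z := by
  have h : DifferentiableAt ℝ (fun z => ∑ i, ⟪EuclideanSpace.basisFun (Fin d) ℝ i,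
      fderiv ℝ U z (0, EuclideanSpace.basisFun (Fin d) ℝ i)⟫) z := by
    refine DifferentiableAt.fun_sum fun i _ => ?_
    exact (differentiableAt_const _).inner ℝ ((H.dU_diff hz).clm_apply (differentiableAt_const _))
  refine (h.mul_const ((d : ℝ)⁻¹)).congr_of_eventuallyEq (Eventually.of_forall fun z => ?_)
  exact div_eq_mul_inv _ _

/-- the compatibility conditions -/
theorem Iso.compat (hd : 0 < d) {z : ℝ × E d} (hz : z ∈ Ω) :
    (∀ h k, ⟪fderiv ℝ (Acc U) z (0, h), k⟫ = ⟪fderiv ℝ (Acc U) z (0, k), h⟫) ∧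
    ∀ k, ⟪fderiv ℝ (Acc U) z (1, U z), k⟫ = -2 * lam U z * ⟪Acc U z, k⟫ - ⟪Acc U z, fderiv ℝ U z (0, k)⟫ +
      ((d : ℝ) + 2) * r2 f U z / (d * r0 f U z) * fderiv ℝ (lam U) z (0, k) := by
  set G : ℝ × E d → (ℝ × E d →L[ℝ] ℝ) := fun z =>
    (-((d : ℝ) + 2) * (lam U z * r2 f U z)) • ContinuousLinearMap.fst ℝ ℝ (E d) -
      ((d : ℝ) * r0 f U z) • (innerSL ℝ (Acc U z)).comp (ContinuousLinearMap.snd ℝ ℝ (E d) -
        (ContinuousLinearMap.fst ℝ ℝ (E d)).smulRight (U z)) with hG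
  have hGapp : ∀ z w, G z w = -((d : ℝ) + 2) * (lam U z * r2 f U z) * w.1 -
      (d : ℝ) * r0 f U z * ⟪Acc U z, w.2 - w.1 • U z⟫ := by
    intro z w
    simp [hG, inner_sub_right, inner_smul_right]
  have hder : ∀ z ∈ Ω, HasFDerivAt (r2 f U) (G z) z := by
    intro z hz
    obtain ⟨D0, D2, h1, h2, h3, h4, h5, h6, h7⟩ := H.laws hd hz
    refine h2.congr_fderiv (ContinuousLinearMap.ext fun w => ?_)
    rw [hGapp]
    have e : w = w.1 • ((1 : ℝ), U z) + ((0 : ℝ), w.2 - w.1 • U z) := by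
      ext <;> simp
    conv_lhs => rw [e]
    rw [map_add, map_smul, h5, h6, smul_eq_mul]
    ring
  obtain ⟨D0, D2, h1, h2, h3, h4, h5, h6, h7⟩ := H.laws hd hz
  have hGdiff : DifferentiableAt ℝ G z := by
    have e1 := H.lam_diff hz
    have e2 := h2.differentiableAt
    have e3 := h1.differentiableAt
    have e4 := H.Acc_diff hz
    have e5 := H.U_diff hz
    have e6 : DifferentiableAt ℝ (fun z => innerSL ℝ (Acc U z)) z :=
      (innerSL ℝ).differentiableAt.comp z e4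
    have e7 : DifferentiableAt ℝ (fun z => ContinuousLinearMap.snd ℝ ℝ (E d) -
        (ContinuousLinearMap.fst ℝ ℝ (E d)).smulRight (U z)) z := by
      refine (differentiableAt_const _).sub ?_
      exact ((ContinuousLinearMap.smulRightL ℝ (ℝ × E d) (E d)
        (ContinuousLinearMap.fst ℝ ℝ (E d))).differentiableAt).comp z e5
    refine DifferentiableAt.sub ?_ ?_
    · exact ((e1.mul e2).const_mul _).smul_const _
    · exact (e3.const_mul _).smul (e6.clm_comp e7)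
  have hsymm : ∀ v w, fderiv ℝ G z v w = fderiv ℝ G z w v := fun v w =>
    second_derivative_symmetric_of_eventually
      (by filter_upwards [H.isOpen.mem_nhds hz] with y hy using hder y hy) hGdiff.hasFDerivAt v w
  -- the derivatives
  have hA := (H.Acc_diff hz).hasFDerivAt
  have hU := (H.U_diff hz).hasFDerivAt
  have hL := (H.lam_diff hz).hasFDerivAt
  have hform : ∀ v w : ℝ × E d, fderiv ℝ G z v w =
      -((d : ℝ) + 2) * (fderiv ℝ (lam U) z v * r2 f U z + lam U z * D2 v) * w.1 -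
      (d : ℝ) * (D0 v * ⟪Acc U z, w.2 - w.1 • U z⟫ + r0 f U z * (⟪fderiv ℝ (Acc U) z v, w.2 - w.1 • U z⟫ -
        w.1 * ⟪Acc U z, fderiv ℝ U z v⟫)) := by
    intro v w
    have e1 : HasFDerivAt (fun z => G z w) ((fderiv ℝ G z).flip w) z := by
      have := hGdiff.hasFDerivAt.clm_apply (hasFDerivAt_const w z)
      refine this.congr_fderiv (ContinuousLinearMap.ext fun v => ?_)
      simp
    have e2 : HasDerivAt (fun s : ℝ => G (z + s • v) w) (fderiv ℝ G z v w) 0 := by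
      have hl : HasDerivAt (fun s : ℝ => z + s • v) v 0 := by
        simpa using ((hasDerivAt_id (0 : ℝ)).smul_const v).const_add z
      have e3 : HasFDerivAt (fun z => G z w) ((fderiv ℝ G z).flip w) (z + (0 : ℝ) • v) := by simpa using e1
      exact e3.comp_hasDerivAt (0 : ℝ) hl
    have hl : HasDerivAt (fun s : ℝ => z + s • v) v 0 := by
      simpa using ((hasDerivAt_id (0 : ℝ)).smul_const v).const_add z
    have hz0 : z = z + (0 : ℝ) • v := by simp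
    have l0 : HasDerivAt (fun s : ℝ => r0 f U (z + s • v)) (D0 v) 0 := by
      rw [hz0] at h1
      exact h1.comp_hasDerivAt (0 : ℝ) hl
    have l2 : HasDerivAt (fun s : ℝ => r2 f U (z + s • v)) (D2 v) 0 := by
      rw [hz0] at h2
      exact h2.comp_hasDerivAt (0 : ℝ) hl
    have lA : HasDerivAt (fun s : ℝ => Acc U (z + s • v)) (fderiv ℝ (Acc U) z v) 0 := by
      have : HasFDerivAt (Acc U) (fderiv ℝ (Acc U) z) (z + (0 : ℝ) • v) := by rw [← hz0]; exact hA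
      exact this.comp_hasDerivAt (0 : ℝ) hl
    have lU : HasDerivAt (fun s : ℝ => U (z + s • v)) (fderiv ℝ U z v) 0 := by
      have : HasFDerivAt U (fderiv ℝ U z) (z + (0 : ℝ) • v) := by rw [← hz0]; exact hU
      exact this.comp_hasDerivAt (0 : ℝ) hl
    have lL : HasDerivAt (fun s : ℝ => lam U (z + s • v)) (fderiv ℝ (lam U) z v) 0 := by
      have : HasFDerivAt (lam U) (fderiv ℝ (lam U) z) (z + (0 : ℝ) • v) := by rw [← hz0]; exact hL
      exact this.comp_hasDerivAt (0 : ℝ) hl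
    have e4 : HasDerivAt (fun s : ℝ => -((d : ℝ) + 2) * (lam U (z + s • v) * r2 f U (z + s • v)) * w.1 -
        (d : ℝ) * (r0 f U (z + s • v) * ⟪Acc U (z + s • v), w.2 - w.1 • U (z + s • v)⟫))
        (-((d : ℝ) + 2) * (fderiv ℝ (lam U) z v * r2 f U (z + (0 : ℝ) • v) + lam U (z + (0 : ℝ) • v) * D2 v) * w.1 -
        (d : ℝ) * (D0 v * ⟪Acc U (z + (0 : ℝ) • v), w.2 - w.1 • U (z + (0 : ℝ) • v)⟫ +
          r0 f U (z + (0 : ℝ) • v) * (⟪Acc U (z + (0 : ℝ) • v), -(w.1 • fderiv ℝ U z v)⟫ +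
            ⟪fderiv ℝ (Acc U) z v, w.2 - w.1 • U (z + (0 : ℝ) • v)⟫))) 0 := by
      refine HasDerivAt.sub (((lL.mul l2).const_mul _).mul_const _) ((l0.mul ?_).const_mul _)
      exact lA.inner ℝ ((lU.const_smul w.1).const_sub w.2)
    rw [← hz0] at e4
    have e5 := e4.unique (e2.congr_of_eventuallyEq (Eventually.of_forall fun s => by
      simp only
      rw [hGapp]
      ring))
    rw [← e5, inner_neg_right, inner_smul_right]
    ring
  have hdr : (d : ℝ) ≠ 0 := by exact_mod_cast hd.ne'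
  have hr0 : r0 f U z ≠ 0 := (H.r0_pos hz).ne'
  constructor
  · intro h k
    have e := hsymm (0, h) (0, k)
    rw [hform, hform] at e
    simp only [mul_zero, zero_smul, sub_zero, zero_mul] at e
    have e' := h7 h k
    have : (d : ℝ) * r0 f U z * ⟪fderiv ℝ (Acc U) z (0, h), k⟫ = (d : ℝ) * r0 f U z * ⟪fderiv ℝ (Acc U) z (0, k), h⟫ := by
      linear_combination (-1) * e - (d : ℝ) * e'
    exact mul_left_cancel₀ (mul_ne_zero hdr hr0) this
  · intro k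
    have e := hsymm (1, U z) (0, k)
    rw [hform, hform] at e
    simp only [mul_zero, zero_smul, sub_zero, zero_mul, one_smul, sub_self, inner_zero_right, mul_one, one_mul] at e
    rw [h4, h6] at e
    have h9 : (d : ℝ) * r0 f U z * ⟪fderiv ℝ (Acc U) z (1, U z), k⟫ = (d : ℝ) * r0 f U z * (-2 * lam U z * ⟪Acc U z, k⟫ -
        ⟪Acc U z, fderiv ℝ U z (0, k)⟫) + ((d : ℝ) + 2) * r2 f U z * fderiv ℝ (lam U) z (0, k) := by
      linear_combination (-1) * e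
    have h10 : (d : ℝ) * r0 f U z ≠ 0 := mul_ne_zero hdr hr0
    have h11 : ⟪fderiv ℝ (Acc U) z (1, U z), k⟫ = ((d : ℝ) * r0 f U z * ⟪fderiv ℝ (Acc U) z (1, U z), k⟫) / (d * r0 f U z) := by
      field_simp
    rw [h11, h9]
    field_simp

end iso

end Pool.Agent.H67.Boltz
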