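import Pool.Agent.H67.Boltz.Ode

set_option autoImplicit false

/-!
# Isotropic distributions: transported densities and upper bounds
-/

open MeasureTheory Filter Topology Set
open scoped RealInnerProductSpace

namespace Pool.Agent.H67.Boltz

variable {d : ℕ}

/-- the quadratic polynomial -/
def Yp (Y0 Y1 Y2 T t : ℝ) : ℝ := Y0 + Y1 * (T - t) + Y2 * (T - t) ^ 2

/-- half of its derivative with respect to `t` -/
noncomputable def mup (Y1 Y2 T t : ℝ) : ℝ := -Y1 / 2 - Y2 * (T - t)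

theorem Yp_deriv (Y0 Y1 Y2 T t : ℝ) : HasDerivAt (Yp Y0 Y1 Y2 T) (2 * mup Y1 Y2 T t) t := by
  unfold Yp mup
  have h1 : HasDerivAt (fun t : ℝ => T - t) (-1) t := by simpa using (hasDerivAt_id t).const_sub T
  refine (((h1.const_mul Y1).const_add Y0).add ((h1.pow 2).const_mul Y2)).congr_deriv ?_
  simp
  ring

theorem transported {T Y0 Y1 Y2 : ℝ} {z : ℝ × E d} {u : E d} {l p : ℝ} {r : ℝ × E d → ℝ} {Dr : ℝ × E d →L[ℝ] ℝ}
    (hr : HasFDerivAt r Dr z) (hDr : Dr (1, u) = -(2 * p) * l * r z) (hY : 0 < Yp Y0 Y1 Y2 T z.1)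
    (hl : Yp Y0 Y1 Y2 T z.1 * l = mup Y1 Y2 T z.1) :
    ∃ D : ℝ × E d →L[ℝ] ℝ, HasFDerivAt (fun z : ℝ × E d => Yp Y0 Y1 Y2 T z.1 ^ p * r z) D z ∧ D (1, u) = 0 ∧
      ∀ h, D (0, h) = Yp Y0 Y1 Y2 T z.1 ^ p * Dr (0, h) := by
  have h1 : HasDerivAt (fun t : ℝ => Yp Y0 Y1 Y2 T t ^ p) (2 * mup Y1 Y2 T z.1 * p * Yp Y0 Y1 Y2 T z.1 ^ (p - 1)) z.1 :=
    (Yp_deriv Y0 Y1 Y2 T z.1).rpow_const (Or.inl hY.ne')
  have h2 : HasFDerivAt (fun z : ℝ × E d => Yp Y0 Y1 Y2 T z.1 ^ p)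
      ((2 * mup Y1 Y2 T z.1 * p * Yp Y0 Y1 Y2 T z.1 ^ (p - 1)) • ContinuousLinearMap.fst ℝ ℝ (E d)) z :=
    h1.comp_hasFDerivAt z hasFDerivAt_fst
  refine ⟨_, h2.mul hr, ?_, fun h => ?_⟩
  · simp only [add_apply, smul_apply, smul_eq_mul, ContinuousLinearMap.coe_fst', mul_one]
    rw [hDr, ← hl]
    have h3 : Yp Y0 Y1 Y2 T z.1 ^ p = Yp Y0 Y1 Y2 T z.1 * Yp Y0 Y1 Y2 T z.1 ^ (p - 1) := by
      rw [Real.rpow_sub_one hY.ne']
      field_simp
    rw [h3]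
    ring
  · simp

/-- maximum principle for transported functions -/
theorem barrier {g : ℝ × E d → ℝ} {Ω : Set (ℝ × E d)} {U : ℝ × E d → E d} {V t₂ t' : ℝ} {x' : E d} {C : ℝ}
    (hV : 0 ≤ V) (ht : t₂ ≤ t')
    (hcone : ∀ t x, t₂ ≤ t → t ≤ t' → ‖x - x'‖ ≤ V * (t' - t) → (t, x) ∈ Ω)
    (hU : ∀ t x, t₂ ≤ t → t ≤ t' → ‖x - x'‖ ≤ V * (t' - t) → ‖U (t, x)‖ ≤ V)
    (hg : ∀ z ∈ Ω, ∃ D : ℝ × E d →L[ℝ] ℝ, HasFDerivAt g D z ∧ D (1, U z) = 0)
    (hC : ∀ x, ‖x - x'‖ ≤ V * (t' - t₂) → g (t₂, x) ≤ C) : g (t', x') ≤ C := by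
  set K : Set (ℝ × E d) := {z | t₂ ≤ z.1 ∧ z.1 ≤ t' ∧ ‖z.2 - x'‖ ≤ V * (t' - z.1)} with hK
  have hKc : IsCompact K := by
    have hclosed : IsClosed K := by
      refine (isClosed_le continuous_const continuous_fst).inter
        ((isClosed_le continuous_fst continuous_const).inter ?_)
      exact isClosed_le (f := fun z : ℝ × E d => ‖z.2 - x'‖) (g := fun z : ℝ × E d => V * (t' - z.1))
        (by fun_prop) (by fun_prop)
    refine ((isCompact_Icc (a := t₂) (b := t')).prod (isCompact_closedBall x' (V * (t' - t₂)))).of_isClosed_subset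
      hclosed ?_
    rintro z ⟨h1, h2, h3⟩
    refine ⟨⟨h1, h2⟩, ?_⟩
    rw [Metric.mem_closedBall, dist_eq_norm]
    exact h3.trans (mul_le_mul_of_nonneg_left (by linarith) hV)
  have hKΩ : K ⊆ Ω := fun z hz => hcone z.1 z.2 hz.1 hz.2.1 hz.2.2
  have hmem : ((t', x') : ℝ × E d) ∈ K := ⟨ht, le_rfl, by simp⟩
  have hgc : ContinuousOn g K := fun z hz => by
    obtain ⟨D, hD, -⟩ := hg z (hKΩ hz)
    exact hD.continuousAt.continuousWithinAt
  refine le_of_forall_pos_le_add fun ε' hε' => ?_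
  set ε := ε' / (t' - t₂ + 1) with hε
  have hεpos : 0 < ε := div_pos hε' (by linarith)
  have hεle : ε * (t' - t₂) ≤ ε' := by
    rw [hε, div_mul_eq_mul_div, div_le_iff₀ (by linarith)]
    nlinarith
  obtain ⟨z₁, hz₁, hmax⟩ := hKc.exists_isMaxOn ⟨_, hmem⟩
    (hgc.sub (f := g) (g := fun z : ℝ × E d => ε * (z.1 - t₂)) (by fun_prop))
  have hmax' : ∀ z ∈ K, g z - ε * (z.1 - t₂) ≤ g z₁ - ε * (z₁.1 - t₂) := fun z hz => hmax hz
  have h1 := hmax' _ hmem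
  simp only at h1
  rcases eq_or_lt_of_le hz₁.1 with h2 | h2
  · have h3 := hC z₁.2 (by rw [h2]; exact hz₁.2.2)
    rw [h2] at h3
    have h4 : g z₁ ≤ C := h3
    rw [← h2, sub_self, mul_zero, sub_zero] at h1
    linarith
  · exfalso
    obtain ⟨D, hD, hD0⟩ := hg z₁ (hKΩ hz₁)
    have hl : HasDerivAt (fun h : ℝ => z₁ - h • ((1 : ℝ), U z₁)) (-((1 : ℝ), U z₁)) 0 := by
      simpa using ((hasDerivAt_id (0 : ℝ)).smul_const ((1 : ℝ), U z₁)).const_sub z₁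
    have hD' : HasFDerivAt g D (z₁ - (0 : ℝ) • ((1 : ℝ), U z₁)) := by simpa using hD
    have h3 := hD'.comp_hasDerivAt (0 : ℝ) hl
    have h4 : HasDerivAt (fun h : ℝ => g (z₁ - h • ((1 : ℝ), U z₁)) - ε * (z₁.1 - h - t₂)) ε 0 := by
      have h5 : HasDerivAt (fun h : ℝ => ε * (z₁.1 - h - t₂)) (-ε) 0 := by
        have := ((((hasDerivAt_id (0 : ℝ)).const_sub z₁.1).sub_const t₂).const_mul ε)
        refine this.congr_deriv ?_
        ring
      refine (h3.sub h5).congr_deriv ?_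
      rw [map_neg, hD0]
      ring
    have h6 := hasDerivAt_iff_tendsto_slope.1 h4
    have h7 : ∀ᶠ h in 𝓝[≠] (0 : ℝ), 0 < slope (fun h : ℝ => g (z₁ - h • ((1 : ℝ), U z₁)) - ε * (z₁.1 - h - t₂)) 0 h :=
      h6.eventually (lt_mem_nhds hεpos)
    have h8 : ∀ᶠ h in 𝓝[>] (0 : ℝ), 0 < slope (fun h : ℝ => g (z₁ - h • ((1 : ℝ), U z₁)) - ε * (z₁.1 - h - t₂)) 0 h :=
      h7.filter_mono (nhdsWithin_mono _ fun h hh => ne_of_gt hh)
    have h9 : ∀ᶠ h in 𝓝[>] (0 : ℝ), h ∈ Ioo (0 : ℝ) (z₁.1 - t₂) := Ioo_mem_nhdsGT (by linarith)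
    obtain ⟨h, hh1, hh2⟩ := (h8.and h9).exists
    rw [slope_def_field, div_pos_iff_of_pos_right (by linarith [hh2.1])] at hh1
    simp only [zero_smul, sub_zero] at hh1
    have hin : z₁ - h • ((1 : ℝ), U z₁) ∈ K := by
      have e1 : (z₁ - h • ((1 : ℝ), U z₁)).1 = z₁.1 - h := by simp
      have e2 : (z₁ - h • ((1 : ℝ), U z₁)).2 = z₁.2 - h • U z₁ := by simp
      refine ⟨by rw [e1]; linarith [hh2.2], by rw [e1]; linarith [hh2.1, hz₁.2.1], ?_⟩
      rw [e1, e2]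
      have e3 : z₁.2 - h • U z₁ - x' = (z₁.2 - x') - h • U z₁ := by abel
      rw [e3]
      calc ‖(z₁.2 - x') - h • U z₁‖ ≤ ‖z₁.2 - x'‖ + ‖h • U z₁‖ := norm_sub_le _ _
        _ ≤ V * (t' - z₁.1) + h * V := by
          refine add_le_add hz₁.2.2 ?_
          rw [norm_smul, Real.norm_eq_abs, abs_of_pos hh2.1]
          exact mul_le_mul_of_nonneg_left (hU z₁.1 z₁.2 hz₁.1 hz₁.2.1 hz₁.2.2) hh2.1.le
        _ = V * (t' - (z₁.1 - h)) := by ring
    have h10 := hmax' _ hin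
    have e1 : (z₁ - h • ((1 : ℝ), U z₁)).1 = z₁.1 - h := by simp
    rw [e1] at h10
    linarith

section iso

variable {B : ℝ → ℝ → ℝ} {T : ℝ} {f : ℝ → E d → E d → ℝ} {Ω : Set (ℝ × E d)} {U : ℝ × E d → E d}

/-- mass, momentum and energy in terms of the peculiar velocity -/
theorem rho_eq (f : ℝ → E d → E d → ℝ) (U : ℝ × E d → E d) (z : ℝ × E d) : rho (f z.1 z.2) = r0 f U z := by
  unfold rho r0
  exact (integral_add_left_eq_self (fun v => f z.1 z.2 v) (U z)).symm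

theorem ClassicalSolution.moments_bound (hf : ClassicalSolution B T f) {t : ℝ} (h0 : 0 < t) (hT : t < T) :
    (∀ x, Integrable (fun v => f t x v)) ∧ (∀ x, Integrable (fun v => ‖v‖ ^ 2 * f t x v)) ∧
    ∃ C : ℝ, ∀ x, rho (f t x) ≤ C ∧ energy (f t x) ≤ C := by
  obtain ⟨C, hC⟩ := hf.decay t t h0 hT (d + 1 + 2)
  have hr : ∀ w : E d, (1 : ℝ) ≤ 1 + ‖w‖ := fun w => by have := norm_nonneg w; linarith
  have hc : ∀ x, Continuous fun v => f t x v := by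
    intro x
    have h1 : ContinuousOn (Fu f) {z : ℝ × E d × E d | 0 < z.1 ∧ z.1 < T} := hf.smooth.continuousOn
    rw [← continuousOn_univ]
    exact h1.comp (f := fun v : E d => ((t, x, v) : ℝ × E d × E d)) (by fun_prop) fun w _ => ⟨h0, hT⟩
  have b0 : ∀ x v, |f t x v| ≤ C / (1 + ‖v‖) ^ (d + 1) := fun x v => by
    have := weight_mul (k := 2) (s := 1) (hr v) zero_le_one (one_le_pow₀ (hr v)) (abs_nonneg _) (hC t x v le_rfl le_rfl).1
    rwa [one_mul] at this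
  have b2 : ∀ x v, |‖v‖ ^ 2 * f t x v| ≤ C / (1 + ‖v‖) ^ (d + 1) := fun x v => by
    rw [abs_mul, abs_of_nonneg (by positivity)]
    exact weight_mul (k := 2) (hr v) (by positivity) (pow_le_pow_left₀ (norm_nonneg _) (by linarith) 2) (abs_nonneg _)
      (hC t x v le_rfl le_rfl).1
  have i0 : ∀ x, Integrable (fun v => f t x v) := fun x =>
    integrable_of_decay _ (hc x).aestronglyMeasurable C (b0 x)
  have i2 : ∀ x, Integrable (fun v => ‖v‖ ^ 2 * f t x v) := fun x => by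
    have := hc x
    exact integrable_of_decay _ (by fun_prop) C (b2 x)
  refine ⟨i0, i2, ∫ v : E d, C / (1 + ‖v‖) ^ (d + 1), fun x => ⟨?_, ?_⟩⟩
  · exact integral_mono (i0 x) (integrable_weight C) fun v => (le_abs_self _).trans (b0 x v)
  · exact integral_mono (i2 x) (integrable_weight C) fun v => (le_abs_self _).trans (b2 x v)

variable (H : Iso B T f Ω U)

include H

/-- `energy = r2 + |U|² r0` -/
theorem Iso.energy_eq {z : ℝ × E d} (hz : z ∈ Ω) :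
    energy (f z.1 z.2) = r2 f U z + ‖U z‖ ^ 2 * r0 f U z := by
  have m0 := (H.moment hz (fun _ => 1) continuous_const (fun w => by
    have := norm_nonneg w
    rw [abs_one]
    nlinarith)).1
  have m2 := (H.moment hz (fun w => ‖w‖ ^ 2) (by fun_prop) (fun w => by
    rw [abs_of_nonneg (by positivity)]
    exact pow_le_pow_left₀ (norm_nonneg _) (by linarith) 2)).1
  simp only [one_mul] at m0
  -- the odd moment vanishes
  have hodd : ∫ w, ⟪U z, w⟫ * f z.1 z.2 (U z + w) = 0 := by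
    have h1 := integral_neg_eq_self (fun w : E d => ⟪U z, w⟫ * f z.1 z.2 (U z + w)) volume
    have h2 : ∀ w : E d, ⟪U z, -w⟫ * f z.1 z.2 (U z + -w) = -(⟪U z, w⟫ * f z.1 z.2 (U z + w)) := by
      intro w
      rw [H.iso z hz (-w) w (norm_neg w), inner_neg_right]
      ring
    simp_rw [h2] at h1
    rw [integral_neg] at h1
    linarith
  have i1 : Integrable (fun w : E d => ⟪U z, w⟫ * f z.1 z.2 (U z + w)) := by
    refine ((m0.norm.add m2.norm).const_mul (‖U z‖)).mono' ?_ (Eventually.of_forall fun w => ?_)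
    · exact ((continuous_const.inner continuous_id).mul (H.continuous_f hz)).aestronglyMeasurable
    · simp only [Pi.add_apply, norm_mul, Real.norm_eq_abs]
      have h1 := abs_real_inner_le_norm (U z) w
      have h2 : ‖w‖ ≤ 1 + ‖w‖ ^ 2 := by nlinarith [norm_nonneg w, sq_nonneg (‖w‖ - 1)]
      have h3 : |‖w‖ ^ 2| = ‖w‖ ^ 2 := abs_of_nonneg (by positivity)
      rw [h3]
      calc |⟪U z, w⟫| * |f z.1 z.2 (U z + w)| ≤ (‖U z‖ * ‖w‖) * |f z.1 z.2 (U z + w)| :=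
            mul_le_mul_of_nonneg_right h1 (abs_nonneg _)
        _ ≤ (‖U z‖ * (1 + ‖w‖ ^ 2)) * |f z.1 z.2 (U z + w)| := by gcongr
        _ = ‖U z‖ * (|f z.1 z.2 (U z + w)| + ‖w‖ ^ 2 * |f z.1 z.2 (U z + w)|) := by ring
  unfold energy
  rw [← integral_add_left_eq_self (fun v => ‖v‖ ^ 2 * f z.1 z.2 v) (U z)]
  have e : ∀ w : E d, ‖U z + w‖ ^ 2 * f z.1 z.2 (U z + w) =
      (‖w‖ ^ 2 * f z.1 z.2 (U z + w) + 2 * (⟪U z, w⟫ * f z.1 z.2 (U z + w))) + ‖U z‖ ^ 2 * f z.1 z.2 (U z + w) := by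
    intro w
    rw [norm_add_sq_real]
    ring
  simp_rw [e]
  have i3 : Integrable fun w : E d => ‖w‖ ^ 2 * f z.1 z.2 (U z + w) + 2 * (⟪U z, w⟫ * f z.1 z.2 (U z + w)) :=
    m2.add (i1.const_mul 2)
  rw [integral_add i3 (m0.const_mul _), integral_add m2 (i1.const_mul 2), integral_const_mul, integral_const_mul, hodd]
  unfold r2 r0
  ring

end iso

end Pool.Agent.H67.Boltz
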