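import Pool.Agent.H67.Boltz.Up

set_option autoImplicit false

/-!
# Isotropic distributions: upper bounds
-/

open MeasureTheory Filter Topology Set
open scoped RealInnerProductSpace

namespace Pool.Agent.H67.Boltz

variable {d : ℕ}

variable {B : ℝ → ℝ → ℝ} {T : ℝ} {f : ℝ → E d → E d → ℝ} {U : ℝ × E d → E d}

theorem Iso.upper (hd : 0 < d) {t₀ : ℝ} {x₀ : E d} {δ κ : ℝ} (H : Iso B T f (core t₀ T x₀ δ κ) U) (ht₀ : t₀ < T)
    (hδ : 0 < δ) (hκ0 : 0 ≤ κ) (hκ1 : κ < 1) {Y0 Y1 Y2 : ℝ} {W0 W1 : E d} {Λ : E d →L[ℝ] E d} (hY0 : 0 < Y0)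
    (hY : ∀ z ∈ core t₀ T x₀ δ κ, 0 < Yp Y0 Y1 Y2 T z.1 ∧ Yp Y0 Y1 Y2 T z.1 * lam U z = mup Y1 Y2 T z.1 ∧
      Yp Y0 Y1 Y2 T z.1 • U z = W0 + (T - z.1) • W1 + mup Y1 Y2 T z.1 • (z.2 - x₀) + Λ (z.2 - x₀))
    {δ' : ℝ} (hδ'0 : 0 ≤ δ') (hδ' : δ' < δ) :
    ∃ t₂, t₀ ≤ t₂ ∧ t₂ < T ∧ ∃ C : ℝ, ∀ z ∈ core t₂ T x₀ δ' κ, rho (f z.1 z.2) ≤ C ∧ energy (f z.1 z.2) ≤ C := by
  set Ω := core t₀ T x₀ δ κ with hΩ
  set S := T - t₀ with hS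
  have hSpos : 0 < S := by rw [hS]; linarith
  set R := δ * S ^ κ with hR
  have hRpos : 0 ≤ R := by positivity
  set V := 2 / Y0 * (‖W0‖ + S * ‖W1‖ + (|Y1| / 2 + |Y2| * S) * R + ‖Λ‖ * R) with hV
  have hVpos : 0 ≤ V := by positivity
  -- the choice of `τ₂ = T - t₂`
  obtain ⟨τ, hτ1, hτ2, hτ3⟩ : ∃ τ : ℝ, τ ∈ Ioo 0 (S / 2) ∧ |Y1| * τ + |Y2| * τ ^ 2 < Y0 / 2 ∧ V * τ ^ (1 - κ) < δ - δ' := by
    have h1 : ∀ᶠ τ in 𝓝[>] (0 : ℝ), τ ∈ Ioo 0 (S / 2) := Ioo_mem_nhdsGT (by linarith)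
    have h2 : Tendsto (fun τ : ℝ => |Y1| * τ + |Y2| * τ ^ 2) (𝓝[>] 0) (𝓝 0) := by
      have : Continuous fun τ : ℝ => |Y1| * τ + |Y2| * τ ^ 2 := by fun_prop
      have := this.tendsto 0
      simp only [mul_zero, ne_eq, OfNat.ofNat_ne_zero, not_false_eq_true, zero_pow, add_zero] at this
      exact this.mono_left nhdsWithin_le_nhds
    have h3 : Tendsto (fun τ : ℝ => V * τ ^ (1 - κ)) (𝓝[>] 0) (𝓝 0) := by
      have h4 : ContinuousAt (fun τ : ℝ => V * τ ^ (1 - κ)) 0 :=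
        (Real.continuousAt_rpow_const 0 (1 - κ) (Or.inr (by linarith))).const_mul V
      have := h4.tendsto
      rw [Real.zero_rpow (by linarith), mul_zero] at this
      exact this.mono_left nhdsWithin_le_nhds
    obtain ⟨τ, ha, hb, hc⟩ := (h1.and ((h2.eventually (gt_mem_nhds (by linarith : (0 : ℝ) < Y0 / 2))).and
      (h3.eventually (gt_mem_nhds (by linarith : (0 : ℝ) < δ - δ'))))).exists
    exact ⟨τ, ha, hb, hc⟩
  set t₂ := T - τ with ht₂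
  have ht₂T : t₂ < T := by rw [ht₂]; linarith [hτ1.1]
  have ht₀₂ : t₀ < t₂ := by
    have := hτ1.2
    rw [ht₂]
    linarith
  -- bounds for Y and U
  have hYlow : ∀ t, t₂ ≤ t → t < T → Y0 / 2 ≤ Yp Y0 Y1 Y2 T t := by
    intro t h1 h2
    have h3 : 0 < T - t := by linarith
    have h4 : T - t ≤ τ := by rw [ht₂] at h1; linarith
    have h5 : -(|Y1| * τ) ≤ Y1 * (T - t) := by
      have : |Y1 * (T - t)| ≤ |Y1| * τ := by
        rw [abs_mul, abs_of_pos h3]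
        exact mul_le_mul_of_nonneg_left h4 (abs_nonneg _)
      linarith [neg_abs_le (Y1 * (T - t))]
    have h6 : -(|Y2| * τ ^ 2) ≤ Y2 * (T - t) ^ 2 := by
      have : |Y2 * (T - t) ^ 2| ≤ |Y2| * τ ^ 2 := by
        rw [abs_mul, abs_of_nonneg (by positivity : (0 : ℝ) ≤ (T - t) ^ 2)]
        exact mul_le_mul_of_nonneg_left (pow_le_pow_left₀ h3.le h4 2) (abs_nonneg _)
      linarith [neg_abs_le (Y2 * (T - t) ^ 2)]
    unfold Yp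
    linarith
  have hUb : ∀ z ∈ Ω, t₂ ≤ z.1 → ‖U z‖ ≤ V := by
    intro z hz h1
    obtain ⟨hz0, hzT, hzx⟩ := hz
    have hz : z ∈ Ω := ⟨hz0, hzT, hzx⟩
    have h3 : 0 < T - z.1 := by linarith
    have h4 : T - z.1 ≤ S := by rw [hS]; linarith
    have h5 : ‖z.2 - x₀‖ ≤ R := hzx.le.trans (mul_le_mul_of_nonneg_left (Real.rpow_le_rpow h3.le h4 hκ0) hδ.le)
    have hY' := hYlow z.1 h1 hzT
    obtain ⟨hp, -, hU⟩ := hY z hz
    have hmu : |mup Y1 Y2 T z.1| ≤ |Y1| / 2 + |Y2| * S := by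
      unfold mup
      calc |-Y1 / 2 - Y2 * (T - z.1)| ≤ |-Y1 / 2| + |Y2 * (T - z.1)| := abs_sub _ _
        _ = |Y1| / 2 + |Y2| * (T - z.1) := by
          rw [abs_div, abs_neg, abs_mul, abs_of_pos h3]
          norm_num
        _ ≤ |Y1| / 2 + |Y2| * S := by gcongr
    have h6 : Yp Y0 Y1 Y2 T z.1 * ‖U z‖ ≤ ‖W0‖ + S * ‖W1‖ + (|Y1| / 2 + |Y2| * S) * R + ‖Λ‖ * R := by
      rw [← abs_of_pos hp, ← Real.norm_eq_abs, ← norm_smul, hU]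
      refine (norm_add_le _ _).trans (add_le_add ((norm_add_le _ _).trans (add_le_add ((norm_add_le _ _).trans
        (add_le_add le_rfl ?_)) ?_)) ?_)
      · rw [norm_smul, Real.norm_eq_abs, abs_of_pos h3]
        gcongr
      · rw [norm_smul, Real.norm_eq_abs]
        gcongr
      · exact (Λ.le_opNorm _).trans (by gcongr)
    rw [hV, div_mul_eq_mul_div, le_div_iff₀ hY0]
    have h7 : Y0 / 2 * ‖U z‖ ≤ Yp Y0 Y1 Y2 T z.1 * ‖U z‖ := mul_le_mul_of_nonneg_right hY' (norm_nonneg _)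
    linarith
  obtain ⟨ht0pos, -⟩ : 0 < t₂ ∧ t₂ < T := by
    refine H.time (t₂, x₀) ⟨ht₀₂, ht₂T, ?_⟩
    rw [sub_self, norm_zero]
    exact mul_pos hδ (Real.rpow_pos_of_pos (by simp only; linarith) _)
  obtain ⟨-, -, C, hC⟩ := H.sol.moments_bound ht0pos ht₂T
  set C' := max C 0 with hC'
  set C0 := Yp Y0 Y1 Y2 T t₂ ^ ((d : ℝ) / 2) * C' with hC0
  set C2 := Yp Y0 Y1 Y2 T t₂ ^ (((d : ℝ) + 2) / 2) * C' with hC2
  have hY₂ : 0 < Yp Y0 Y1 Y2 T t₂ := by linarith [hYlow t₂ le_rfl ht₂T]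
  have hC0pos : 0 ≤ C0 := by positivity
  have hC2pos : 0 ≤ C2 := by positivity
  have hg0 : ∀ z ∈ Ω, ∃ D : ℝ × E d →L[ℝ] ℝ,
      HasFDerivAt (fun z : ℝ × E d => Yp Y0 Y1 Y2 T z.1 ^ ((d : ℝ) / 2) * r0 f U z) D z ∧ D (1, U z) = 0 := by
    intro z hz
    obtain ⟨D0, D2, h1, -, -, h4, -⟩ := H.laws hd hz
    obtain ⟨hp, hl, -⟩ := hY z hz
    obtain ⟨D, e1, e2, -⟩ := transported (p := (d : ℝ) / 2) h1 (by rw [h4]; ring) hp hl
    exact ⟨D, e1, e2⟩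
  have hg2 : ∀ z ∈ Ω, ∃ D : ℝ × E d →L[ℝ] ℝ,
      HasFDerivAt (fun z : ℝ × E d => Yp Y0 Y1 Y2 T z.1 ^ (((d : ℝ) + 2) / 2) * r2 f U z) D z ∧ D (1, U z) = 0 := by
    intro z hz
    obtain ⟨D0, D2, -, h2, -, -, h5, -⟩ := H.laws hd hz
    obtain ⟨hp, hl, -⟩ := hY z hz
    obtain ⟨D, e1, e2, -⟩ := transported (p := ((d : ℝ) + 2) / 2) h2 (by rw [h5]; ring) hp hl
    exact ⟨D, e1, e2⟩
  refine ⟨t₂, ht₀₂.le, ht₂T, C0 / (Y0 / 2) ^ ((d : ℝ) / 2) + C2 / (Y0 / 2) ^ (((d : ℝ) + 2) / 2) +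
    V ^ 2 * (C0 / (Y0 / 2) ^ ((d : ℝ) / 2)), fun z hz => ?_⟩
  obtain ⟨hz1, hz2, hz3⟩ := hz
  -- the cone
  have hcone : ∀ t x, t₂ ≤ t → t ≤ z.1 → ‖x - z.2‖ ≤ V * (z.1 - t) → (t, x) ∈ Ω := by
    intro t x h1 h2 h3
    refine ⟨by show t₀ < t; linarith, by show t < T; linarith, ?_⟩
    show ‖x - x₀‖ < δ * (T - t) ^ κ
    have hτt : 0 < T - t := by linarith
    have h4 : ‖x - x₀‖ ≤ ‖x - z.2‖ + ‖z.2 - x₀‖ := by
      have : x - x₀ = (x - z.2) + (z.2 - x₀) := by abel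
      rw [this]
      exact norm_add_le _ _
    have h5 : (T - z.1) ^ κ ≤ (T - t) ^ κ := Real.rpow_le_rpow (by linarith) (by linarith) hκ0
    have h6 : δ' * (T - z.1) ^ κ ≤ δ' * (T - t) ^ κ := mul_le_mul_of_nonneg_left h5 hδ'0
    have h7 : V * (z.1 - t) ≤ V * (T - t) := mul_le_mul_of_nonneg_left (by linarith) hVpos
    have h8 : V * (T - t) = V * (T - t) ^ (1 - κ) * (T - t) ^ κ := by
      have e : (T - t) ^ (1 - κ) * (T - t) ^ κ = T - t := by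
        rw [← Real.rpow_add hτt]
        simp
      rw [mul_assoc V, e]
    have h9 : V * (T - t) ^ (1 - κ) ≤ V * τ ^ (1 - κ) :=
      mul_le_mul_of_nonneg_left (Real.rpow_le_rpow hτt.le (by rw [ht₂] at h1; linarith) (by linarith)) hVpos
    have h10 : 0 < (T - t) ^ κ := Real.rpow_pos_of_pos hτt κ
    have h11 : V * (T - t) ^ (1 - κ) * (T - t) ^ κ ≤ (δ - δ') * (T - t) ^ κ :=
      mul_le_mul_of_nonneg_right (by linarith) h10.le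
    calc ‖x - x₀‖ ≤ ‖x - z.2‖ + ‖z.2 - x₀‖ := h4
      _ < V * (T - t) + δ' * (T - t) ^ κ := by linarith
      _ ≤ (δ - δ') * (T - t) ^ κ + δ' * (T - t) ^ κ := by rw [h8]; linarith
      _ = δ * (T - t) ^ κ := by ring
  have hzΩ : z ∈ Ω := hcone z.1 z.2 hz1.le le_rfl (by simp)
  have hUc : ∀ t x, t₂ ≤ t → t ≤ z.1 → ‖x - z.2‖ ≤ V * (z.1 - t) → ‖U (t, x)‖ ≤ V := fun t x h1 h2 h3 =>
    hUb (t, x) (hcone t x h1 h2 h3) h1
  have b0 := barrier (g := fun z : ℝ × E d => Yp Y0 Y1 Y2 T z.1 ^ ((d : ℝ) / 2) * r0 f U z) (C := C0) hVpos hz1.le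
    hcone hUc hg0 (fun x _ => by
      have h1 : r0 f U (t₂, x) ≤ C' := by
        rw [← rho_eq f U (t₂, x)]
        exact (hC x).1.trans (le_max_left _ _)
      exact mul_le_mul_of_nonneg_left h1 (by positivity))
  have b2 := barrier (g := fun z : ℝ × E d => Yp Y0 Y1 Y2 T z.1 ^ (((d : ℝ) + 2) / 2) * r2 f U z) (C := C2) hVpos hz1.le
    hcone hUc hg2 (fun x hx => by
      have hxΩ : ((t₂, x) : ℝ × E d) ∈ Ω := hcone t₂ x le_rfl hz1.le hx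
      have h1 : r2 f U (t₂, x) ≤ C' := by
        have h2 := H.energy_eq hxΩ
        have h3 := (H.r0_pos hxΩ).le
        have h4 : 0 ≤ ‖U (t₂, x)‖ ^ 2 * r0 f U (t₂, x) := by positivity
        have h5 := (hC x).2.trans (le_max_left C 0)
        simp only at h2
        linarith
      exact mul_le_mul_of_nonneg_left h1 (by positivity))
  simp only at b0 b2
  have hYz := hYlow z.1 hz1.le hz2
  have hr0 : r0 f U z ≤ C0 / (Y0 / 2) ^ ((d : ℝ) / 2) := by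
    rw [le_div_iff₀ (by positivity)]
    have h1 : (Y0 / 2) ^ ((d : ℝ) / 2) ≤ Yp Y0 Y1 Y2 T z.1 ^ ((d : ℝ) / 2) :=
      Real.rpow_le_rpow (by linarith) hYz (by positivity)
    have h2 := (H.r0_pos hzΩ).le
    calc r0 f U z * (Y0 / 2) ^ ((d : ℝ) / 2) ≤ r0 f U z * Yp Y0 Y1 Y2 T z.1 ^ ((d : ℝ) / 2) :=
          mul_le_mul_of_nonneg_left h1 h2
      _ ≤ C0 := by rw [mul_comm]; exact b0
  have hr2 : r2 f U z ≤ C2 / (Y0 / 2) ^ (((d : ℝ) + 2) / 2) := by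
    rw [le_div_iff₀ (by positivity)]
    have h1 : (Y0 / 2) ^ (((d : ℝ) + 2) / 2) ≤ Yp Y0 Y1 Y2 T z.1 ^ (((d : ℝ) + 2) / 2) :=
      Real.rpow_le_rpow (by linarith) hYz (by positivity)
    have h2 := (H.r2_pos hd hzΩ).le
    calc r2 f U z * (Y0 / 2) ^ (((d : ℝ) + 2) / 2) ≤ r2 f U z * Yp Y0 Y1 Y2 T z.1 ^ (((d : ℝ) + 2) / 2) :=
          mul_le_mul_of_nonneg_left h1 h2
      _ ≤ C2 := by rw [mul_comm]; exact b2
  have hr00 := (H.r0_pos hzΩ).le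
  have hUz : ‖U z‖ ^ 2 ≤ V ^ 2 := pow_le_pow_left₀ (norm_nonneg _) (hUb z hzΩ hz1.le) 2
  have hd1 : 0 ≤ C2 / (Y0 / 2) ^ (((d : ℝ) + 2) / 2) := by positivity
  have hd0 : 0 ≤ C0 / (Y0 / 2) ^ ((d : ℝ) / 2) := by positivity
  constructor
  · rw [rho_eq f U z]
    have : 0 ≤ V ^ 2 * (C0 / (Y0 / 2) ^ ((d : ℝ) / 2)) := by positivity
    linarith
  · rw [H.energy_eq hzΩ]
    have h1 : ‖U z‖ ^ 2 * r0 f U z ≤ V ^ 2 * (C0 / (Y0 / 2) ^ ((d : ℝ) / 2)) :=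
      mul_le_mul hUz hr0 hr00 (by positivity)
    linarith

end Pool.Agent.H67.Boltz
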